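import Mathlib

namespace Pool.Agent.Helper905.Manes

/-- the map `x ↦ b x + c / x` on the projective line `ℚ ∪ {∞}` -/
def f (b c : ℚ) : Option ℚ → Option ℚ
  | none => none
  | some x => if x = 0 then none else some (b * x + c / x)

/-- all rational periodic points have period 1, 2 or 4 -/
def Fine (b c : ℚ) : Prop :=
  ∀ P ∈ Function.periodicPts (f b c),
    Function.minimalPeriod (f b c) P = 1 ∨ Function.minimalPeriod (f b c) P = 2 ∨
      Function.minimalPeriod (f b c) P = 4

/-- `b` is exceptional if for some `c` there is a rational periodic point of `b x + c / x`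
whose period is not `1`, `2` or `4` -/
def Exceptional (b : ℚ) : Prop :=
  b ≠ 0 ∧ ∃ c : ℚ, c ≠ 0 ∧ ∃ P ∈ Function.periodicPts (f b c),
    ¬ (Function.minimalPeriod (f b c) P = 1 ∨ Function.minimalPeriod (f b c) P = 2 ∨
      Function.minimalPeriod (f b c) P = 4)

/-- conditions on `b` alone; `b.num.natAbs` and `b.den` are numerator and denominator of `|b|` -/
def Good (b : ℚ) : Prop :=
  (padicValRat 2 b = 0 ∨ padicValRat 2 b = -1) ∨ padicValRat 3 b = 0 ∨ padicValRat 5 b = 0 ∨
  b.num.natAbs.primeFactors.card ≤ 1 ∨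
  (1 < |b| ∧ b.num.natAbs.primeFactors.card ≤ 2) ∨
  b.den ^ 5 ≤ b.num.natAbs ∨ b.num.natAbs ^ 6 ≤ b.den ∨
  (∃ p, p.Prime ∧ p ∣ b.num.natAbs ∧ ∀ p', p'.Prime → p' ∣ b.num.natAbs →
    2 * b.den ^ 2 ≤ p ^ (padicValNat p b.num.natAbs) * p' ^ (padicValNat p' b.num.natAbs))

/-- the non-zero rational numbers of height at most `H` -/
def Box (H : ℕ) : Set ℚ := {b : ℚ | b ≠ 0 ∧ b.num.natAbs ≤ H ∧ b.den ≤ H}

/-- the rational preperiodic points: those with a finite forward orbit -/
def PrePer (b c : ℚ) : Set (Option ℚ) :=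
  {P | (Set.range (fun n : ℕ => (f b c)^[n] P)).Finite}

/-- all periods are `1` or `2`, there are at most six preperiodic points, and six occur -/
def Settled (b : ℚ) : Prop :=
  (∀ c : ℚ, c ≠ 0 →
    (∀ P ∈ Function.periodicPts (f b c),
      Function.minimalPeriod (f b c) P = 1 ∨ Function.minimalPeriod (f b c) P = 2) ∧
    (PrePer b c).Finite ∧ (PrePer b c).ncard ≤ 6) ∧
  ∃ c : ℚ, c ≠ 0 ∧ (PrePer b c).ncard = 6

end Pool.Agent.Helper905.Manes
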