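import Mathlib

namespace Pool.Agent.Helper905.Manes

/-- strictly increasing along a periodic sequence is impossible -/
theorem per_lt {α : Type*} [Preorder α] (f : ℕ → α) {n : ℕ} (hn : 0 < n)
    (hper : ∀ i, f (i + n) = f i) (k : ℕ) (h : ∀ i, k ≤ i → f i < f (i + 1)) : False := by
  have h1 : ∀ j, 0 < j → f k < f (k + j) := by
    intro j hj
    induction j with
    | zero => omega
    | succ j ih =>
      rcases Nat.eq_zero_or_pos j with h0 | h0
      · subst h0; exact h k le_rfl
      · exact lt_trans (ih h0) (h (k + j) (by omega))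
  have := h1 n hn
  rw [hper] at this
  exact lt_irrefl _ this

theorem per_mul {α : Type*} (f : ℕ → α) {n : ℕ}
    (hper : ∀ i, f (i + n) = f i) (m i : ℕ) : f (i + n * m) = f i := by
  induction m with
  | zero => simp
  | succ m ih => rw [Nat.mul_succ, ← Nat.add_assoc, hper, ih]

/-- the cycle hypotheses -/
structure Cyc (b : ℚ) (u s : ℕ → ℚ) (n : ℕ) : Prop where
  hn : 0 < n
  hb : b ≠ 0
  hs : ∀ i, s i = b + u i
  hu : ∀ i, u (i + 1) = u i / (s i) ^ 2
  hper : ∀ i, u (i + n) = u i
  u0 : ∀ i, u i ≠ 0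
  s0 : ∀ i, s i ≠ 0

namespace Cyc

variable {b : ℚ} {u s : ℕ → ℚ} {n : ℕ}

theorem sper (C : Cyc b u s n) (i : ℕ) : s (i + n) = s i := by
  rw [C.hs, C.hs, C.hper]

theorem neg (C : Cyc b u s n) : Cyc (-b) (fun i => - u i) (fun i => - s i) n where
  hn := C.hn
  hb := neg_ne_zero.mpr C.hb
  hs := fun i => by simp only [C.hs i]; ring
  hu := fun i => by
    simp only [C.hu i]
    have := C.s0 i
    field_simp
  hper := fun i => by simp only [C.hper i]
  u0 := fun i => neg_ne_zero.mpr (C.u0 i)
  s0 := fun i => neg_ne_zero.mpr (C.s0 i)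

theorem all_of_one (C : Cyc b u s n) (k : ℕ) (h : (s k) ^ 2 = 1) : ∀ i, (s i) ^ 2 = 1 := by
  have h1 : ∀ j, (s (k + j)) ^ 2 = 1 := by
    intro j
    induction j with
    | zero => exact h
    | succ j ih =>
      have h2 : u (k + j + 1) = u (k + j) := by rw [C.hu, ih, div_one]
      have h3 : s (k + j + 1) = s (k + j) := by rw [C.hs, C.hs, h2]
      rw [← Nat.add_assoc, h3]; exact ih
  intro i
  have h2 := per_mul s C.sper k i
  have hn := C.hn
  have h3 : k ≤ i + n * k := by nlinarith [Nat.mul_le_mul_right k hn]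
  obtain ⟨j, hj⟩ := Nat.exists_eq_add_of_le h3
  rw [← h2, hj]; exact h1 j

theorem s_succ (C : Cyc b u s n) (i : ℕ) :
    (s i) ^ 2 * s (i + 1) = b * (s i) ^ 2 + s i - b := by
  have h0 := C.s0 i
  have h1 : u i = s i - b := by rw [C.hs i]; ring
  rw [C.hs (i + 1), C.hu i, h1]
  field_simp
  ring

theorem t_eq (C : Cyc b u s n) (i : ℕ) :
    b * ((s i) ^ 2 - 1) = s i * (s i * s (i + 1) - 1) := by
  have := C.s_succ i
  linarith

theorem sub_one (C : Cyc b u s n) (i : ℕ) :
    (s (i + 1) - 1) * (s i) ^ 2 = (s i - 1) * ((b - 1) * s i + b) := by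
  have := C.s_succ i
  linear_combination this

theorem add_one (C : Cyc b u s n) (i : ℕ) :
    (s (i + 1) + 1) * (s i) ^ 2 = (s i + 1) * ((b + 1) * s i - b) := by
  have := C.s_succ i
  linear_combination this

/-- if everything is constant -/
theorem all_of_u (C : Cyc b u s n) (k : ℕ) (h : u (k + 1) = u k) : ∀ i, (s i) ^ 2 = 1 := by
  apply C.all_of_one k
  have h1 := C.hu k
  rw [h] at h1
  have h2 := C.s0 k
  have h3 := C.u0 k
  field_simp at h1
  exact h1

end Cyc

/-- integer valuation sequences with `β ≤ 0` -/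
theorem val_nonpos {β : ℤ} {g e : ℕ → ℤ} {n : ℕ} (hn : 0 < n) (hper : ∀ i, g (i + n) = g i)
    (h1 : ∀ i, g (i + 1) = g i - 2 * e i)
    (h2 : ∀ i, g i ≠ β → e i = min β (g i))
    (h3 : ∀ i, g i = β → β ≤ e i) (hβ : β ≤ 0) :
    ∀ i, e i = 0 ∧ β ≤ g i := by
  have hup : ∀ i, β < g i → β < g (i + 1) ∧ g i ≤ g (i + 1) ∧ e i = β := by
    intro i hi
    have a := h1 i
    have c := h2 i (by omega)
    rw [min_eq_left (by omega)] at c
    omega
  by_cases hex : ∃ k, β < g k
  · obtain ⟨k, hk⟩ := hex
    have h4 : ∀ j, β < g (k + j) := by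
      intro j
      induction j with
      | zero => exact hk
      | succ j ih => exact (hup _ ih).1
    have h5 : ∀ i, β < g i := by
      intro i
      have h6 := per_mul g hper k i
      have h7 : k ≤ i + n * k := by nlinarith [Nat.mul_le_mul_right k hn]
      obtain ⟨j, hj⟩ := Nat.exists_eq_add_of_le h7
      rw [← h6, hj]; exact h4 j
    have hb0 : β = 0 := by
      by_contra hne
      have hlt : β < 0 := by omega
      apply per_lt g hn hper 0
      intro i _
      have := (hup i (h5 i)).2.2
      have := h1 i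
      omega
    intro i
    have := (hup i (h5 i)).2.2
    have := h5 i
    omega
  · push Not at hex
    have h5 : ∀ i, g i = β := by
      intro i
      by_contra hne
      have h6 := hex i
      have h7 := h2 i hne
      rw [min_eq_right h6] at h7
      have h8 := h1 i
      have h9 := hex (i + 1)
      omega
    intro i
    have := h1 i
    have := h5 i
    have := h5 (i + 1)
    omega

end Pool.Agent.Helper905.Manes
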