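import Mathlib
import Pool.Agent.Helper905.Manes.Basic

namespace Pool.Agent.Helper905.Manes

namespace Cyc

variable {b : ℚ} {u s : ℕ → ℚ} {n : ℕ}

theorem v1 (C : Cyc b u s n) (p : ℕ) [Fact p.Prime] (i : ℕ) :
    padicValRat p (u (i + 1)) = padicValRat p (u i) - 2 * padicValRat p (s i) := by
  rw [C.hu i, padicValRat.div (C.u0 i) (pow_ne_zero _ (C.s0 i)), padicValRat.pow]
  push_cast
  ring

theorem v2 (C : Cyc b u s n) (p : ℕ) [Fact p.Prime] (i : ℕ)
    (h : padicValRat p (u i) ≠ padicValRat p b) :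
    padicValRat p (s i) = min (padicValRat p b) (padicValRat p (u i)) := by
  have h0 := C.s0 i
  rw [C.hs i] at h0 ⊢
  exact padicValRat.add_eq_min h0 C.hb (C.u0 i) (Ne.symm h)

theorem v3 (C : Cyc b u s n) (p : ℕ) [Fact p.Prime] (i : ℕ) :
    min (padicValRat p b) (padicValRat p (u i)) ≤ padicValRat p (s i) := by
  have h0 := C.s0 i
  rw [C.hs i] at h0 ⊢
  exact padicValRat.min_le_padicValRat_add h0

theorem v_unit (C : Cyc b u s n) (p : ℕ) [Fact p.Prime] (h : padicValRat p b ≤ 0) (i : ℕ) :
    padicValRat p (s i) = 0 ∧ padicValRat p b ≤ padicValRat p (u i) := by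
  have := val_nonpos (β := padicValRat p b) (g := fun i => padicValRat p (u i))
    (e := fun i => padicValRat p (s i)) C.hn (fun i => by simp only [C.hper i])
    (C.v1 p) (C.v2 p) (fun i hi => by
      have := C.v3 p i
      rw [hi, min_self] at this; exact this) h i
  exact this

end Cyc

/-- potential inequality -/
theorem pot {β g g' e : ℤ} (hβ : 0 < β) (h1 : g' = g - 2 * e) (h2 : g ≠ β → e = min β g)
    (h3 : min β g ≤ e) :
    2 * (β + e - min β g) + (if g = β then 4 * β else 0) ≤
      4 * β + max (β - g') (g' - β) - max (β - g) (g - β) := by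
  by_cases h : g = β
  · rw [if_pos h]
    subst h
    rw [min_self] at h3 ⊢
    omega
  · rw [if_neg h]
    have := h2 h
    omega

end Pool.Agent.Helper905.Manes
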