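import Mathlib
import Pool.Agent.Helper905.Manes.Val

namespace Pool.Agent.Helper905.Manes

namespace Cyc

variable {b : ℚ} {u s : ℕ → ℚ} {n : ℕ}

theorem u_neg (C : Cyc b u s n) (hb : 1 ≤ b) (i : ℕ) : u i < 0 := by
  by_contra hcon
  have hk : 0 < u i := lt_of_le_of_ne (not_lt.mp hcon) (Ne.symm (C.u0 i))
  have hf : ∀ j, 0 < u (i + j) := by
    intro j
    induction j with
    | zero => exact hk
    | succ j ih =>
      rw [← Nat.add_assoc, C.hu]
      have := C.s0 (i + j)
      positivity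
  apply per_lt (fun j => - u j) C.hn (fun j => by simp only [C.hper j]) i
  intro j hj
  obtain ⟨l, rfl⟩ := Nat.exists_eq_add_of_le hj
  have h1 := hf l
  have h2 := C.hs (i + l)
  have h3 : 1 < s (i + l) := by linarith
  have h4 : 1 < (s (i + l)) ^ 2 := by nlinarith
  rw [C.hu (i + l), neg_lt_neg_iff, div_lt_iff₀ (by linarith)]
  nlinarith

theorem s_lt_one (C : Cyc b u s n) (hu : ∀ i, u i < 0) (hnt : ∀ i, (s i) ^ 2 ≠ 1) (i : ℕ) :
    s i < 1 := by
  by_contra hcon
  have hk : 1 < s i := by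
    refine lt_of_le_of_ne (not_lt.mp hcon) ?_
    intro h
    exact hnt i (by rw [← h]; norm_num)
  have hinc : ∀ j, 1 < s j → s j < s (j + 1) := by
    intro j hj
    have h1 := C.hu j
    have h2 := C.hs j
    have h3 := C.hs (j + 1)
    have h4 := hu j
    have h5 : 1 < (s j) ^ 2 := by nlinarith
    have h6 : u j < u (j + 1) := by
      rw [h1, lt_div_iff₀ (by linarith)]
      nlinarith
    linarith
  have hf : ∀ j, 1 < s (i + j) := by
    intro j
    induction j with
    | zero => exact hk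
    | succ j ih =>
      rw [← Nat.add_assoc]
      exact lt_trans ih (hinc _ ih)
  apply per_lt s C.hn C.sper i
  intro j hj
  obtain ⟨l, rfl⟩ := Nat.exists_eq_add_of_le hj
  exact hinc _ (hf l)

theorem s_gt (C : Cyc b u s n) (hu : ∀ i, u i < 0) (hnt : ∀ i, (s i) ^ 2 ≠ 1) (i : ℕ) :
    0 < (b - 1) * s i + b := by
  have h1 := C.s_lt_one hu hnt i
  have h2 := C.s_lt_one hu hnt (i + 1)
  have h3 := C.sub_one i
  have h0 := C.s0 i
  have h4 : 0 < (s i) ^ 2 := by positivity
  by_contra hcon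
  have h5 : (b - 1) * s i + b ≤ 0 := not_lt.mp hcon
  nlinarith [mul_nonneg_of_nonpos_of_nonpos (sub_nonpos.mpr h1.le) h5]

end Cyc

/-- absolute value bounds in the form of two rational inequalities -/
theorem abs_bounds' {b : ℚ} {u s : ℕ → ℚ} {n : ℕ} (C : Cyc b u s n) (hb : 2 ≤ b)
    (hnt : ∀ i, (s i) ^ 2 ≠ 1) (i : ℕ) :
    b - 1 < b * |s i| ∧ (b - 1) * |s i| < b := by
  have hu := C.u_neg (by linarith)
  have h1 := C.s_lt_one hu hnt i
  have h2 := C.s_gt hu hnt i
  have h3 := C.s_gt hu hnt (i + 1)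
  have h4 := C.s_succ i
  have h0 := C.s0 i
  have h5 : 0 < (s i) ^ 2 := by positivity
  -- (b-1) * s' + b > 0, times s^2
  have h6 : 0 < (b - 1) * (b * (s i) ^ 2 + s i - b) + b * (s i) ^ 2 := by
    rw [← h4]
    nlinarith
  have h7 : (b - 1) * (b - s i) < b ^ 2 * (s i) ^ 2 := by nlinarith
  rcases lt_or_gt_of_ne h0 with hneg | hpos
  · rw [abs_of_neg hneg]
    constructor
    · by_contra hcon
      have h8 : b * (- s i) ≤ b - 1 := not_lt.mp hcon
      have h9 : 0 < b * (- s i) := by nlinarith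
      nlinarith
    · nlinarith
  · rw [abs_of_pos hpos]
    constructor
    · by_contra hcon
      have h8 : b * s i ≤ b - 1 := not_lt.mp hcon
      have h9 : 0 < b * s i := by nlinarith
      nlinarith
    · nlinarith

theorem abs_bounds {b : ℚ} {u s : ℕ → ℚ} {n : ℕ} (C : Cyc b u s n) (hb : 6 ≤ b)
    (hnt : ∀ i, (s i) ^ 2 ≠ 1) (i : ℕ) :
    b - 1 < b * |s i| ∧ (b - 1) * |s i| < b :=
  abs_bounds' C (by linarith) hnt i

theorem same_bound {b a a' : ℚ} (hb : 6 ≤ b) (h1 : b - 1 < b * a) (h2 : (b - 1) * a < b)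
    (h3 : b - 1 < b * a') (h4 : (b - 1) * a' < b)
    (h5 : b * |a ^ 2 - 1| = a * |a * a' - 1|) :
    |a - 1| * (b - 1) ^ 3 ≤ b * a := by
  have ha : 0 < a := by
    by_contra h
    have : b * a ≤ 0 := mul_nonpos_of_nonneg_of_nonpos (by linarith) (not_lt.mp h)
    linarith
  have ha' : 0 < a' := by
    by_contra h
    have : b * a' ≤ 0 := mul_nonpos_of_nonneg_of_nonpos (by linarith) (not_lt.mp h)
    linarith
  have h6 : |a * a' - 1| * (b - 1) ^ 2 ≤ 2 * b - 1 := by
    have hsq : 0 < (b - 1) ^ 2 := by nlinarith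
    rcases abs_cases (a * a' - 1) with ⟨he, _⟩ | ⟨he, _⟩
    · rw [he]
      have : (b - 1) * a * ((b - 1) * a') < b * b :=
        mul_lt_mul'' h2 h4 (by nlinarith) (by nlinarith)
      nlinarith
    · rw [he]
      have h7 : (b - 1) * (b - 1) < b * a * (b * a') :=
        mul_lt_mul'' h1 h3 (by nlinarith) (by nlinarith)
      have h8 : (1 - a * a') * b ^ 2 < 2 * b - 1 := by nlinarith
      have h9 : (1 - a * a') * (b - 1) ^ 2 ≤ (1 - a * a') * b ^ 2 :=
        mul_le_mul_of_nonneg_left (by nlinarith) (by linarith)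
      linarith
  have h7 : |a ^ 2 - 1| = |a - 1| * (a + 1) := by
    have e : a ^ 2 - 1 = (a - 1) * (a + 1) := by ring
    rw [e, abs_mul, abs_of_pos (show (0:ℚ) < a + 1 by linarith)]
  rw [h7] at h5
  have h8 : 0 ≤ |a - 1| := abs_nonneg _
  -- b |a-1| (a+1) (b-1)^2 ≤ a (2b-1)
  have h9 : |a - 1| * (b * (a + 1)) * (b - 1) ^ 2 ≤ a * (2 * b - 1) := by
    have : |a - 1| * (b * (a + 1)) * (b - 1) ^ 2 = a * (|a * a' - 1| * (b - 1) ^ 2) := by
      linear_combination (b - 1) ^ 2 * h5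
    rw [this]
    exact mul_le_mul_of_nonneg_left h6 ha.le
  have h10 : |a - 1| * (2 * b - 1) * (b - 1) ^ 2 ≤ |a - 1| * (b * (a + 1)) * (b - 1) ^ 2 := by
    apply mul_le_mul_of_nonneg_right _ (by positivity)
    apply mul_le_mul_of_nonneg_left _ h8
    nlinarith
  have h11 : |a - 1| * (b - 1) ^ 2 ≤ a := by
    have h12 : (|a - 1| * (b - 1) ^ 2) * (2 * b - 1) ≤ a * (2 * b - 1) := by nlinarith
    exact le_of_mul_le_mul_right h12 (by linarith)
  have h13 : |a - 1| * (b - 1) ^ 3 = |a - 1| * (b - 1) ^ 2 * (b - 1) := by ring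
  rw [h13]
  nlinarith

theorem pos_neg_bound {b s a' : ℚ} (hb : 6 ≤ b) (h1 : b - 1 < b * s)
    (h3 : b - 1 < b * a') (h4 : (b - 1) * a' < b)
    (h5 : s ^ 2 * (b + a') = b - s) (ha1 : a' ≠ 1) :
    (b + 1) * s - b ≠ 0 ∧ |(b + 1) * s - b| * (b - 1) ^ 3 ≤ b ^ 2 * s := by
  have hs : 0 < s := by
    by_contra h
    have : b * s ≤ 0 := mul_nonpos_of_nonneg_of_nonpos (by linarith) (not_lt.mp h)
    linarith
  have ha' : 0 < a' := by
    by_contra h
    have : b * a' ≤ 0 := mul_nonpos_of_nonneg_of_nonpos (by linarith) (not_lt.mp h)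
    linarith
  set D := (b + 1) * s - b with hD
  have hid : D * ((D + 2 * b) * (b + a') + (b + 1)) = b ^ 2 * (1 - a') := by
    rw [hD]
    linear_combination (b + 1) ^ 2 * h5
  have hbr : 2 * b ^ 2 ≤ (D + 2 * b) * (b + a') + (b + 1) := by
    have e1 : 2 * b - 1 ≤ D + 2 * b := by rw [hD]; nlinarith
    have e2 : b ≤ b + a' := by linarith
    have e3 : (2 * b - 1) * b ≤ (D + 2 * b) * (b + a') :=
      mul_le_mul e1 e2 (by linarith) (by linarith)
    nlinarith
  constructor
  · intro h0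
    rw [h0, zero_mul] at hid
    have : 1 - a' ≠ 0 := by
      intro h; apply ha1; linarith
    have hb2 : b ^ 2 ≠ 0 := by positivity
    exact (mul_ne_zero hb2 this) hid.symm
  · have h6 : |D| * (2 * b ^ 2) ≤ b ^ 2 * |1 - a'| := by
      have e1 : |D| * ((D + 2 * b) * (b + a') + (b + 1)) = b ^ 2 * |1 - a'| := by
        have := congrArg abs hid
        rw [abs_mul, abs_mul, abs_of_pos (show (0:ℚ) < b ^ 2 by positivity),
          abs_of_pos (lt_of_lt_of_le (by positivity) hbr)] at this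
        exact this
      rw [← e1]
      exact mul_le_mul_of_nonneg_left hbr (abs_nonneg _)
    have h7 : |1 - a'| * (b - 1) ≤ 1 := by
      rcases abs_cases (1 - a') with ⟨he, _⟩ | ⟨he, _⟩
      · rw [he]; nlinarith
      · rw [he]; nlinarith
    have h8 : 0 ≤ |D| := abs_nonneg _
    have h9 : |D| * 2 ≤ |1 - a'| := by
      have hb2 : 0 < b ^ 2 := by positivity
      have : (|D| * 2) * b ^ 2 ≤ |1 - a'| * b ^ 2 := by nlinarith
      exact le_of_mul_le_mul_right this hb2
    have h10 : |D| * (b - 1) ≤ 1 := by nlinarith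
    have h11 : |D| * (b - 1) ^ 3 ≤ (b - 1) ^ 2 := by
      have : |D| * (b - 1) ^ 3 = (|D| * (b - 1)) * (b - 1) ^ 2 := by ring
      rw [this]
      nlinarith [mul_le_mul_of_nonneg_right h10 (sq_nonneg (b - 1))]
    nlinarith

theorem neg_pos_bound {b a a' : ℚ} (hb : 6 ≤ b) (h1 : b - 1 < b * a)
    (h3 : b - 1 < b * a') (h4 : a' < 1)
    (h5 : a ^ 2 * (b - a') = b + a) :
    (b - 1) * a - b ≠ 0 ∧ |(b - 1) * a - b| * (b - 1) ^ 3 ≤ b ^ 2 * a := by
  have hs : 0 < a := by
    by_contra h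
    have : b * a ≤ 0 := mul_nonpos_of_nonneg_of_nonpos (by linarith) (not_lt.mp h)
    linarith
  have ha' : 0 < a' := by
    by_contra h
    have : b * a' ≤ 0 := mul_nonpos_of_nonneg_of_nonpos (by linarith) (not_lt.mp h)
    linarith
  set D := (b - 1) * a - b with hD
  have hid : D * ((D + 2 * b) * (b - a') - (b - 1)) = - (b ^ 2 * (1 - a')) := by
    rw [hD]
    linear_combination (b - 1) ^ 2 * h5
  have hbr : (b - 1) * (2 * b - 3) ≤ (D + 2 * b) * (b - a') - (b - 1) := by
    have e1 : 2 * (b - 1) ≤ D + 2 * b := by rw [hD]; nlinarith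
    have e2 : b - 1 ≤ b - a' := by linarith
    have e3 : 2 * (b - 1) * (b - 1) ≤ (D + 2 * b) * (b - a') :=
      mul_le_mul e1 e2 (by linarith) (by linarith)
    nlinarith
  have hbr0 : 0 < (b - 1) * (2 * b - 3) := by nlinarith
  constructor
  · intro h0
    rw [h0, zero_mul] at hid
    have : 1 - a' ≠ 0 := by
      intro h; linarith
    have hb2 : b ^ 2 ≠ 0 := by positivity
    apply (mul_ne_zero hb2 this)
    linarith
  · have h6 : |D| * ((b - 1) * (2 * b - 3)) ≤ b ^ 2 * (1 - a') := by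
      have e1 : |D| * ((D + 2 * b) * (b - a') - (b - 1)) = b ^ 2 * (1 - a') := by
        have := congrArg abs hid
        rw [abs_mul, abs_neg, abs_of_pos (show (0:ℚ) < b ^ 2 * (1 - a') by
            have : (0:ℚ) < 1 - a' := by linarith
            positivity),
          abs_of_pos (lt_of_lt_of_le hbr0 hbr)] at this
        exact this
      rw [← e1]
      exact mul_le_mul_of_nonneg_left hbr (abs_nonneg _)
    have h7 : (1 - a') * b ≤ 1 := by nlinarith
    have h8 : 0 ≤ |D| := abs_nonneg _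
    have h9 : |D| * ((b - 1) * (2 * b - 3)) ≤ b := by nlinarith
    have h10 : |D| * (b - 1) ^ 2 ≤ b := by
      have : |D| * (b - 1) ^ 2 ≤ |D| * ((b - 1) * (2 * b - 3)) :=
        mul_le_mul_of_nonneg_left (by nlinarith) h8
      linarith
    have h11 : |D| * (b - 1) ^ 3 ≤ b * (b - 1) := by
      have : |D| * (b - 1) ^ 3 = (|D| * (b - 1) ^ 2) * (b - 1) := by ring
      rw [this]
      exact mul_le_mul_of_nonneg_right h10 (by linarith)
    nlinarith

end Pool.Agent.Helper905.Manes
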