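import Mathlib
import Pool.Agent.Helper905.Manes.Real

namespace Pool.Agent.Helper905.Manes

/-- valuation of a rational at a prime dividing the numerator -/
theorem val_of_dvd {q : ℚ} {p : ℕ} (hp : p.Prime) (h : p ∣ q.num.natAbs) :
    padicValRat p q = (padicValNat p q.num.natAbs : ℤ) := by
  have h1 : ¬ p ∣ q.den := by
    intro h2
    have := q.reduced
    have h3 : p ∣ 1 := by
      rw [← this]; exact Nat.dvd_gcd h h2
    exact hp.one_lt.ne' (Nat.dvd_one.mp h3)
  rw [padicValRat, padicValNat.eq_zero_of_not_dvd h1, padicValInt]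
  simp

theorem val_of_not_dvd {q : ℚ} {p : ℕ} (h : ¬ p ∣ q.num.natAbs) :
    padicValRat p q ≤ 0 := by
  rw [padicValRat, padicValInt, padicValNat.eq_zero_of_not_dvd h]
  simp

theorem dvd_of_val_pos {q : ℚ} {p : ℕ} (h : 0 < padicValRat p q) : p ∣ q.num.natAbs := by
  by_contra hcon
  have := val_of_not_dvd hcon
  omega

theorem val_pos_of_dvd {q : ℚ} {p : ℕ} (hp : p.Prime) (h0 : q ≠ 0) (h : p ∣ q.num.natAbs) :
    0 < padicValRat p q := by
  haveI : Fact p.Prime := ⟨hp⟩
  rw [val_of_dvd hp h]
  have h1 : q.num.natAbs ≠ 0 := by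
    simpa using h0
  have := one_le_padicValNat_of_dvd h1 h
  exact_mod_cast this

/-- upper bound for the numerator of a positive rational in terms of valuations -/
theorem num_le {ρ : ℚ} (h0 : ρ ≠ 0) (S : Finset ℕ) (hS : ∀ p ∈ S, p.Prime) (h : ℕ → ℕ)
    (h1 : ∀ p ∈ S, padicValRat p ρ ≤ h p)
    (h2 : ∀ p, p.Prime → p ∉ S → padicValRat p ρ ≤ 0) :
    ρ.num.natAbs ≤ ∏ p ∈ S, p ^ h p := by
  have hX : ρ.num.natAbs ≠ 0 := by simpa using h0
  have e1 : ρ.num.natAbs = ∏ p ∈ (ρ.num.natAbs).primeFactors,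
      p ^ (padicValNat p ρ.num.natAbs) := by
    conv_lhs => rw [← Nat.factorization_prod_pow_eq_self hX]
    rw [Finsupp.prod, Nat.support_factorization]
    apply Finset.prod_congr rfl
    intro p hp
    rw [Nat.factorization_def _ (Nat.prime_of_mem_primeFactors hp)]
  have hsub : (ρ.num.natAbs).primeFactors ⊆ S := by
    intro p hp
    by_contra hcon
    have hpp := Nat.prime_of_mem_primeFactors hp
    have h3 := h2 p hpp hcon
    have h4 := val_pos_of_dvd hpp h0 (Nat.dvd_of_mem_primeFactors hp)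
    omega
  rw [e1]
  calc ∏ p ∈ (ρ.num.natAbs).primeFactors, p ^ (padicValNat p ρ.num.natAbs)
      ≤ ∏ p ∈ (ρ.num.natAbs).primeFactors, p ^ h p := by
        apply Finset.prod_le_prod'
        intro p hp
        have hpp := Nat.prime_of_mem_primeFactors hp
        apply Nat.pow_le_pow_right hpp.pos
        have h3 := h1 p (hsub hp)
        rw [val_of_dvd hpp (Nat.dvd_of_mem_primeFactors hp)] at h3
        exact_mod_cast h3
    _ ≤ ∏ p ∈ S, p ^ h p := by
        apply Finset.prod_le_prod_of_subset_of_one_le' hsub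
        intro p hp _
        exact Nat.one_le_pow _ _ (hS p hp).pos

/-- integrality step -/
theorem num_ge {ρ b : ℚ} (hb : 6 ≤ b) (h0 : 0 < ρ) (h1 : ρ ≠ 1)
    (h2 : |ρ - 1| * (b - 1) ^ 3 ≤ b * ρ) : (b - 1) ^ 3 ≤ b * (ρ.num.natAbs : ℚ) := by
  have hd : (0:ℚ) < ρ.den := by exact_mod_cast ρ.den_pos
  have hn : (0:ℚ) < ρ.num := by exact_mod_cast Rat.num_pos.mpr h0
  have e0 : ρ = ρ.num / ρ.den := (Rat.num_div_den ρ).symm
  have e1 : ((ρ.num.natAbs : ℕ) : ℚ) = ρ.num := by
    rw [Nat.cast_natAbs, abs_of_pos (Rat.num_pos.mpr h0)]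
  rw [e1]
  have e2 : |ρ - 1| * ρ.den = |(ρ.num : ℚ) - ρ.den| := by
    rw [← abs_of_pos hd, ← abs_mul, abs_of_pos hd]
    congr 1
    rw [sub_mul, one_mul, Rat.mul_den_eq_num]
  have e3 : (1:ℚ) ≤ |(ρ.num : ℚ) - ρ.den| := by
    have hne : ρ.num - (ρ.den : ℤ) ≠ 0 := by
      intro h
      apply h1
      have h3 : ρ.num = (ρ.den : ℤ) := by omega
      rw [e0, h3]
      push_cast
      exact div_self (ne_of_gt hd)
    have := Int.one_le_abs hne
    exact_mod_cast this
  have e4 : ρ * ρ.den = ρ.num := Rat.mul_den_eq_num ρ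
  have h3 : 0 ≤ (b - 1) ^ 3 := by
    have : (0:ℚ) ≤ b - 1 := by linarith
    positivity
  calc (b - 1) ^ 3 ≤ |(ρ.num : ℚ) - ρ.den| * (b - 1) ^ 3 := by nlinarith
    _ = (|ρ - 1| * (b - 1) ^ 3) * ρ.den := by rw [← e2]; ring
    _ ≤ (b * ρ) * ρ.den := mul_le_mul_of_nonneg_right h2 hd.le
    _ = b * ρ.num := by rw [mul_assoc, e4]

theorem val_abs (p : ℕ) (q : ℚ) : padicValRat p |q| = padicValRat p q := by
  rcases abs_choice q with h | h
  · rw [h]
  · rw [h, padicValRat.neg]

theorem rho_exists {b : ℚ} {u s : ℕ → ℚ} {n : ℕ} (C : Cyc b u s n) (hb : 6 ≤ b)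
    (hnt : ∀ i, (s i) ^ 2 ≠ 1) (i : ℕ) :
    ∃ ρ : ℚ, 0 < ρ ∧ ρ ≠ 1 ∧ |ρ - 1| * (b - 1) ^ 3 ≤ b * ρ ∧
      ∀ p : ℕ, p.Prime → (padicValRat p ρ ≤ padicValRat p b + padicValRat p (s i)
        - min (padicValRat p b) (padicValRat p (u i))) ∧
        (padicValRat p b ≤ 0 → padicValRat p ρ ≤ 0) := by
  have h0 := C.s0 i
  have h0' := C.s0 (i + 1)
  obtain ⟨a1, a2⟩ := abs_bounds C hb hnt i
  obtain ⟨a3, a4⟩ := abs_bounds C hb hnt (i + 1)
  have hu := C.u_neg (by linarith)
  have ht := C.t_eq i
  have hs := C.s_succ i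
  have hlt := C.s_lt_one hu hnt
  have hbpos : 0 < b := by linarith
  by_cases hsame : 0 < s i * s (i + 1)
  · refine ⟨|s i|, abs_pos.mpr h0, ?_, ?_, ?_⟩
    · intro h
      apply hnt i
      rw [← sq_abs, h]; norm_num
    · apply same_bound hb a1 a2 a3 a4
      have e : |s i| * |s (i + 1)| = s i * s (i + 1) := by rw [← abs_mul, abs_of_pos hsame]
      rw [e, sq_abs]
      have := congrArg abs ht
      rw [abs_mul, abs_mul, abs_of_pos hbpos] at this
      exact this
    · intro p hp
      haveI : Fact p.Prime := ⟨hp⟩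
      rw [val_abs]
      constructor
      · have := min_le_left (padicValRat p b) (padicValRat p (u i))
        linarith
      · intro hβ
        rw [(C.v_unit p hβ i).1]
  · have hneg : s i * s (i + 1) < 0 :=
      lt_of_le_of_ne (not_lt.mp hsame) (mul_ne_zero h0 h0')
    have hui : b - s i = - u i := by rw [C.hs i]; ring
    have hbs : 0 < b - s i := by have := hu i; linarith
    have hρ : 0 < b * |s i| / (b - s i) := by
      have := abs_pos.mpr h0
      positivity
    have hkey : b * |s i| - (b - s i) ≠ 0 ∧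
        |b * |s i| - (b - s i)| * (b - 1) ^ 3 ≤ b ^ 2 * |s i| := by
      rcases lt_or_gt_of_ne h0 with hn | hp
      · have hp' : 0 < s (i + 1) := by
          by_contra hc
          have := mul_nonneg_of_nonpos_of_nonpos hn.le (not_lt.mp hc)
          linarith
        rw [abs_of_neg hn] at a1 a2 ⊢
        rw [abs_of_pos hp'] at a3 a4
        have := neg_pos_bound (a := - s i) (a' := s (i + 1)) hb a1 a3 (hlt (i + 1))
          (by linear_combination - hs)
        have e : b * -s i - (b - s i) = (b - 1) * -s i - b := by ring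
        rw [e]
        exact this
      · have hn' : s (i + 1) < 0 := by
          by_contra hc
          have := mul_nonneg hp.le (not_lt.mp hc)
          linarith
        rw [abs_of_pos hp] at a1 a2 ⊢
        rw [abs_of_neg hn'] at a3 a4
        have := pos_neg_bound (s := s i) (a' := - s (i + 1)) hb a1 a3 a4
          (by linear_combination - hs) (by
            intro h
            apply hnt (i + 1)
            have : s (i + 1) = -1 := by linarith
            rw [this]; norm_num)
        have e : b * s i - (b - s i) = (b + 1) * s i - b := by ring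
        rw [e]
        exact this
    refine ⟨b * |s i| / (b - s i), hρ, ?_, ?_, ?_⟩
    · intro h
      rw [div_eq_one_iff_eq hbs.ne'] at h
      apply hkey.1
      linarith
    · have e : b * |s i| / (b - s i) - 1 = (b * |s i| - (b - s i)) / (b - s i) := by
        field_simp
      rw [e, abs_div, abs_of_pos hbs, div_mul_eq_mul_div, mul_div_assoc', div_le_div_iff_of_pos_right hbs]
      have := hkey.2
      nlinarith
    · intro p hp
      haveI : Fact p.Prime := ⟨hp⟩
      have hv : padicValRat p (b * |s i| / (b - s i)) =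
          padicValRat p b + padicValRat p (s i) - padicValRat p (u i) := by
        rw [padicValRat.div (mul_ne_zero C.hb (abs_ne_zero.mpr h0)) hbs.ne',
          padicValRat.mul C.hb (abs_ne_zero.mpr h0), val_abs, hui, padicValRat.neg]
      rw [hv]
      constructor
      · have := min_le_right (padicValRat p b) (padicValRat p (u i))
        linarith
      · intro hβ
        have := C.v_unit p hβ i
        linarith [this.1, this.2]

end Pool.Agent.Helper905.Manes
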