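import Mathlib
import Pool.Agent.Helper905.Manes.Num

namespace Pool.Agent.Helper905.Manes

theorem prod_fac {N : ℕ} (hN : N ≠ 0) : ∏ p ∈ N.primeFactors, p ^ (padicValNat p N) = N := by
  conv_rhs => rw [← Nat.factorization_prod_pow_eq_self hN]
  rw [Finsupp.prod, Nat.support_factorization]
  apply Finset.prod_congr rfl
  intro p hp
  rw [Nat.factorization_def _ (Nat.prime_of_mem_primeFactors hp)]

theorem size_contra {b : ℚ} {u s : ℕ → ℚ} {n : ℕ} (C : Cyc b u s n) (hb : 6 ≤ b)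
    (hnt : ∀ i, (s i) ^ 2 ≠ 1)
    (hq : ∀ p, p.Prime → p ∣ b.num.natAbs → 2 * b.den ≤ p ^ (padicValNat p b.num.natAbs))
    (hN : 2 * b.den ^ 2 ≤ b.num.natAbs) : False := by
  set N := b.num.natAbs with hNdef
  set D := b.den with hDdef
  have hN0 : N ≠ 0 := by
    rw [hNdef]; simpa using C.hb
  have hD0 : 0 < D := b.den_pos
  set S := N.primeFactors with hSdef
  let β : ℕ → ℕ := fun p => padicValNat p N
  have hβ : ∀ p ∈ S, padicValRat p b = (β p : ℤ) ∧ 0 < β p := by
    intro p hp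
    have hpp := Nat.prime_of_mem_primeFactors hp
    have hd := Nat.dvd_of_mem_primeFactors hp
    have h1 := val_of_dvd hpp hd
    have h2 := val_pos_of_dvd hpp C.hb hd
    refine ⟨h1, ?_⟩
    rw [h1] at h2
    exact_mod_cast h2
  have hpr : ∀ p ∈ S, p.Prime := fun p hp => Nat.prime_of_mem_primeFactors hp
  let g : ℕ → ℕ → ℤ := fun i p => padicValRat p (u i)
  let e : ℕ → ℕ → ℤ := fun i p => padicValRat p (s i)
  let h : ℕ → ℕ → ℕ := fun i p => ((β p : ℤ) + e i p - min (β p : ℤ) (g i p)).toNat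
  let δ : ℕ → ℕ → ℕ := fun i p => if g i p = (β p : ℤ) then β p else 0
  have hnn : ∀ i, ∀ p ∈ S, (h i p : ℤ) = (β p : ℤ) + e i p - min (β p : ℤ) (g i p) := by
    intro i p hp
    haveI : Fact p.Prime := ⟨hpr p hp⟩
    have h3 := C.v3 p i
    rw [(hβ p hp).1] at h3
    simp only [h, e, g]
    omega
  -- the potential inequality summed
  have hsum : ∀ p ∈ S, ∑ i ∈ Finset.range n, (h i p + 2 * δ i p) ≤ 2 * n * β p := by
    intro p hp
    haveI : Fact p.Prime := ⟨hpr p hp⟩
    let φ : ℕ → ℤ := fun i => max ((β p : ℤ) - g i p) (g i p - (β p : ℤ))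
    have h1 : ∀ i, 2 * ((h i p : ℤ) + 2 * (δ i p : ℤ)) ≤ 4 * (β p : ℤ) + (φ (i + 1) - φ i) := by
      intro i
      have hv1 := C.v1 p i
      have hv2 := C.v2 p i
      have hv3 := C.v3 p i
      rw [(hβ p hp).1] at hv2 hv3
      have hpos : (0:ℤ) < (β p : ℤ) := by exact_mod_cast (hβ p hp).2
      have hpot := pot hpos hv1 hv2 hv3
      have h4 := hnn i p hp
      have h5 : (4 * (δ i p : ℤ)) = (if padicValRat p (u i) = (β p : ℤ) then 4 * (β p : ℤ) else 0) := by
        simp only [δ, g]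
        split_ifs <;> simp
      rw [← h5] at hpot
      simp only [φ, g, e] at h4 ⊢
      linarith
    have h2 : ∑ i ∈ Finset.range n, (2 * ((h i p : ℤ) + 2 * (δ i p : ℤ))) ≤
        ∑ i ∈ Finset.range n, (4 * (β p : ℤ) + (φ (i + 1) - φ i)) :=
      Finset.sum_le_sum (fun i _ => h1 i)
    rw [Finset.sum_add_distrib, Finset.sum_range_sub, ← Finset.mul_sum] at h2
    have h3 : φ n = φ 0 := by
      simp only [φ, g]
      have := C.hper 0
      rw [Nat.zero_add] at this
      rw [this]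
    rw [h3, sub_self, add_zero, Finset.sum_const, Finset.card_range, nsmul_eq_mul] at h2
    have h4 : ((∑ i ∈ Finset.range n, (h i p + 2 * δ i p) : ℕ) : ℤ) ≤ ((2 * n * β p : ℕ) : ℤ) := by
      push_cast
      linarith
    exact_mod_cast h4
  let H : ℕ → ℕ := fun i => ∏ p ∈ S, p ^ h i p
  let W : ℕ → ℕ := fun i => ∏ p ∈ S, p ^ δ i p
  have hHW : ∀ i, H i * W i ^ 2 = ∏ p ∈ S, p ^ (h i p + 2 * δ i p) := by
    intro i
    simp only [H, W]
    rw [← Finset.prod_pow, ← Finset.prod_mul_distrib]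
    apply Finset.prod_congr rfl
    intro p _
    rw [pow_add, mul_comm 2, pow_mul]
  have hfac : ∏ p ∈ S, p ^ (β p) = N := prod_fac hN0
  have hprod : ∏ i ∈ Finset.range n, (H i * W i ^ 2) ≤ (N ^ 2) ^ n := by
    calc ∏ i ∈ Finset.range n, (H i * W i ^ 2)
        = ∏ i ∈ Finset.range n, ∏ p ∈ S, p ^ (h i p + 2 * δ i p) :=
          Finset.prod_congr rfl (fun i _ => hHW i)
      _ = ∏ p ∈ S, ∏ i ∈ Finset.range n, p ^ (h i p + 2 * δ i p) := Finset.prod_comm
      _ = ∏ p ∈ S, p ^ (∑ i ∈ Finset.range n, (h i p + 2 * δ i p)) :=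
          Finset.prod_congr rfl (fun p _ => Finset.prod_pow_eq_pow_sum _ _ _)
      _ ≤ ∏ p ∈ S, p ^ (2 * n * β p) := by
          apply Finset.prod_le_prod'
          intro p hp
          exact Nat.pow_le_pow_right (hpr p hp).pos (hsum p hp)
      _ = ∏ p ∈ S, (p ^ β p) ^ (2 * n) := by
          apply Finset.prod_congr rfl
          intro p _
          rw [← pow_mul, mul_comm]
      _ = (N ^ 2) ^ n := by
          rw [Finset.prod_pow, hfac, pow_mul]
  -- lower bound for H
  have hbND : b * D = N := by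
    have h1 : b * b.den = b.num := Rat.mul_den_eq_num b
    have h2 : ((b.num.natAbs : ℕ) : ℚ) = b.num := by
      rw [Nat.cast_natAbs, abs_of_pos (Rat.num_pos.mpr (by linarith))]
    rw [hNdef, h2]; exact h1
  have hDq : (0:ℚ) < D := by exact_mod_cast hD0
  have hH : ∀ i, 125 * (N:ℚ) ^ 2 ≤ 216 * (D:ℚ) ^ 2 * H i := by
    intro i
    obtain ⟨ρ, hρ0, hρ1, hρ2, hρ3⟩ := rho_exists C hb hnt i
    have h1 := num_ge hb hρ0 hρ1 hρ2
    have h2 : ρ.num.natAbs ≤ H i := by
      apply num_le hρ0.ne' S hpr (h i)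
      · intro p hp
        have h3 := (hρ3 p (hpr p hp)).1
        have h4 := hnn i p hp
        rw [(hβ p hp).1] at h3
        simp only [e, g] at h4
        rw [h4]
        exact h3
      · intro p hp hpS
        apply (hρ3 p hp).2
        apply val_of_not_dvd
        intro hd
        apply hpS
        exact Nat.mem_primeFactors.mpr ⟨hp, hd, hN0⟩
    have h3 : (b - 1) ^ 3 ≤ b * (H i : ℚ) := by
      have : (ρ.num.natAbs : ℚ) ≤ (H i : ℚ) := by exact_mod_cast h2
      nlinarith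
    have h4 : 125 * b ^ 3 ≤ 216 * (b - 1) ^ 3 := by
      have h5 : 5 * b ≤ 6 * (b - 1) := by linarith
      have h6 : (5 * b) ^ 3 ≤ (6 * (b - 1)) ^ 3 := pow_le_pow_left₀ (by linarith) h5 3
      nlinarith
    have h7 : b * (125 * b ^ 2) ≤ b * (216 * (H i : ℚ)) := by nlinarith
    have h8 : 125 * b ^ 2 ≤ 216 * (H i : ℚ) := le_of_mul_le_mul_left h7 (by linarith)
    rw [← hbND]
    nlinarith [mul_le_mul_of_nonneg_right h8 (sq_nonneg (D:ℚ))]
  have hNq : 2 * (D:ℚ) ^ 2 ≤ N := by exact_mod_cast hN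
  have hNpos : (0:ℚ) < N := by exact_mod_cast Nat.pos_of_ne_zero hN0
  have hHN : ∀ i, N < H i := by
    intro i
    have h1 := hH i
    have h2 : (N:ℚ) < H i := by
      by_contra hc
      have h3 : (H i : ℚ) ≤ N := not_lt.mp hc
      have h4 : 216 * (D:ℚ) ^ 2 * H i ≤ 216 * (D:ℚ) ^ 2 * N :=
        mul_le_mul_of_nonneg_left h3 (by positivity)
      nlinarith
    exact_mod_cast h2
  have hW : ∀ i, 2 * D ≤ W i := by
    intro i
    by_contra hcon
    apply absurd (hHN i)
    rw [not_lt]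
    rw [← hfac]
    apply Finset.prod_le_prod'
    intro p hp
    apply Nat.pow_le_pow_right (hpr p hp).pos
    by_contra hc2
    apply hcon
    have hgb : g i p = (β p : ℤ) := by
      by_contra hne
      haveI : Fact p.Prime := ⟨hpr p hp⟩
      have h2 := C.v2 p i
      rw [(hβ p hp).1] at h2
      have h3 := h2 hne
      have h4 := hnn i p hp
      simp only [e, g] at h4
      rw [h3] at h4
      omega
    have h5 : p ^ (δ i p) ≤ W i := by
      apply Finset.single_le_prod' (f := fun p => p ^ (δ i p)) _ hp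
      intro q hq'
      exact Nat.one_le_pow _ _ (hpr q hq').pos
    have h6 : δ i p = β p := by simp only [δ]; rw [if_pos hgb]
    rw [h6] at h5
    exact le_trans (hq p (hpr p hp) (Nat.dvd_of_mem_primeFactors hp)) h5
  have hbig : ∀ i, N ^ 2 < H i * W i ^ 2 := by
    intro i
    have h1 := hH i
    have h2 : (2 * (D:ℚ)) ≤ W i := by exact_mod_cast hW i
    have h3 : 4 * (D:ℚ) ^ 2 ≤ (W i : ℚ) ^ 2 := by nlinarith
    have h4 : (0:ℚ) ≤ H i := by positivity
    have h5 : (N:ℚ) ^ 2 < (H i : ℚ) * (W i : ℚ) ^ 2 := by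
      have h6 : 4 * (D:ℚ) ^ 2 * H i ≤ (W i : ℚ) ^ 2 * H i := mul_le_mul_of_nonneg_right h3 h4
      nlinarith [sq_nonneg (N:ℚ), pow_pos hNpos 2]
    exact_mod_cast h5
  have hlt : ∏ i ∈ Finset.range n, (N ^ 2) < ∏ i ∈ Finset.range n, (H i * W i ^ 2) := by
    apply Finset.prod_lt_prod_of_nonempty
    · intro i _
      have := Nat.pos_of_ne_zero hN0
      positivity
    · intro i _
      exact hbig i
    · exact ⟨0, Finset.mem_range.mpr C.hn⟩
  rw [Finset.prod_const, Finset.card_range] at hlt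
  omega

end Pool.Agent.Helper905.Manes
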