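import Mathlib
import Pool.Agent.Helper905.Manes.Val

namespace Pool.Agent.Helper905.Manes

theorem diff_prod {R : Type*} [CommRing R] (U : ℕ → R) (L : ℕ → ℕ → R)
    (h : ∀ i j, U (i + 1) - U (j + 1) = (U i - U j) * L i j) (i j l : ℕ) :
    U (i + l) - U (j + l) = (U i - U j) * ∏ t ∈ Finset.range l, L (i + t) (j + t) := by
  induction l with
  | zero => simp
  | succ l ih =>
    rw [Finset.prod_range_succ, ← mul_assoc, ← ih, ← Nat.add_assoc, ← Nat.add_assoc, h]

theorem min_period {R : Type*} [CommRing R] (U : ℕ → R) {n : ℕ} (hn : 0 < n)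
    (hper : U n = U 0) :
    ∃ m, 0 < m ∧ U m = U 0 ∧ ∀ k, 0 < k → k < m → U k ≠ U 0 := by
  classical
  have hex : ∃ m, 0 < m ∧ U m = U 0 := ⟨n, hn, hper⟩
  refine ⟨Nat.find hex, (Nat.find_spec hex).1, (Nat.find_spec hex).2, ?_⟩
  intro k hk hkm h
  exact Nat.find_min hex hkm ⟨hk, h⟩

theorem sum_form {R : Type*} [CommRing R] (U : ℕ → R) (L : ℕ → ℕ → R)
    (h : ∀ i j, U (i + 1) - U (j + 1) = (U i - U j) * L i j) (m : ℕ) :
    U m - U 0 = (U 1 - U 0) * ∑ i ∈ Finset.range m, ∏ t ∈ Finset.range i, L (1 + t) (0 + t) := by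
  rw [← Finset.sum_range_sub, Finset.mul_sum]
  apply Finset.sum_congr rfl
  intro i _
  rw [← diff_prod U L h 1 0 i, Nat.add_comm 1 i, Nat.zero_add]

theorem tor2 {R : Type*} [CommRing R] [IsDomain R] (φ : R →+* ZMod (2 ^ 2)) (U : ℕ → R)
    (L : ℕ → ℕ → R) (h : ∀ i j, U (i + 1) - U (j + 1) = (U i - U j) * L i j)
    (hL : ∀ i j, φ (L i j) = 1) {n : ℕ} (hn : 0 < n) (hper : U n = U 0) : U 1 = U 0 := by
  obtain ⟨m, hm, hm1, hm2⟩ := min_period U hn hper
  rcases Nat.even_or_odd m with ⟨k, hk⟩ | hodd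
  · exfalso
    have hk0 : 0 < k := by omega
    have h1 := diff_prod U L h k 0 k
    rw [← hk, hm1, Nat.zero_add] at h1
    have h2 : (U k - U 0) * (∏ t ∈ Finset.range k, L (k + t) (0 + t) + 1) = 0 := by
      rw [mul_add, ← h1]; ring
    rcases mul_eq_zero.mp h2 with h3 | h3
    · exact hm2 k hk0 (by omega) (sub_eq_zero.mp h3)
    · have h4 := congrArg φ h3
      rw [map_add, map_prod, map_one, map_zero, Finset.prod_congr rfl (fun t _ => hL _ _),
        Finset.prod_const_one] at h4
      revert h4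
      decide
  · by_contra hne
    have h1 := sum_form U L h m
    rw [hm1, sub_self] at h1
    rcases mul_eq_zero.mp h1.symm with h3 | h3
    · exact hne (sub_eq_zero.mp h3)
    · have h4 := congrArg φ h3
      rw [map_sum, map_zero] at h4
      have h5 : ∀ i ∈ Finset.range m, φ (∏ t ∈ Finset.range i, L (1 + t) (0 + t)) = 1 := by
        intro i _
        rw [map_prod, Finset.prod_congr rfl (fun t _ => hL _ _), Finset.prod_const_one]
      rw [Finset.sum_congr rfl h5, Finset.sum_const, Finset.card_range, nsmul_eq_mul, mul_one,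
        ZMod.natCast_eq_zero_iff] at h4
      obtain ⟨c, hc⟩ := h4
      obtain ⟨d, hd⟩ := hodd
      omega

theorem tor3 {R : Type*} [CommRing R] [IsDomain R] (φ : R →+* ZMod (3 ^ 2)) (U : ℕ → R)
    (L : ℕ → ℕ → R) (h : ∀ i j, U (i + 1) - U (j + 1) = (U i - U j) * L i j)
    (lam : ZMod (3 ^ 2)) (hlam : 3 * lam = 3)
    (hL : ∀ i j, φ (L i j) = lam) {n : ℕ} (hn : 0 < n) (hper : U n = U 0) : U 1 = U 0 := by
  obtain ⟨m, hm, hm1, hm2⟩ := min_period U hn hper
  have hpow : ∀ k : ℕ, 3 * lam ^ k = 3 := by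
    intro k
    induction k with
    | zero => simp
    | succ k ih => rw [pow_succ lam k, ← mul_assoc, ih, hlam]
  by_cases h3 : 3 ∣ m
  · exfalso
    obtain ⟨k, hk⟩ := h3
    have hk0 : 0 < k := by omega
    have h1 := diff_prod U L h k 0 k
    have h2 := diff_prod U L h (k + k) (0 + k) k
    have e1 : k + k + k = m := by omega
    have e2 : (0 + k) + k = k + k := by omega
    rw [e1, e2, hm1] at h2
    rw [h1] at h2
    set A := ∏ t ∈ Finset.range k, L (k + t) (0 + t) with hA
    set A' := ∏ t ∈ Finset.range k, L (k + k + t) (0 + k + t) with hA'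
    rw [Nat.zero_add] at h1
    have h5 : (U k - U 0) * (1 + A + A * A') = 0 := by
      linear_combination - h1 - h2
    rcases mul_eq_zero.mp h5 with h6 | h6
    · exact hm2 k hk0 (by omega) (sub_eq_zero.mp h6)
    · have h7 := congrArg φ h6
      have hφA : φ A = lam ^ k := by
        rw [hA, map_prod, Finset.prod_congr rfl (fun t _ => hL _ _), Finset.prod_const,
          Finset.card_range]
      have hφA' : φ A' = lam ^ k := by
        rw [hA', map_prod, Finset.prod_congr rfl (fun t _ => hL _ _), Finset.prod_const,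
          Finset.card_range]
      rw [map_add, map_add, map_mul, map_one, map_zero, hφA, hφA'] at h7
      have h8 := hpow k
      have hdec : ∀ x : ZMod (3 ^ 2), 3 * x = 3 → 1 + x + x * x ≠ 0 := by decide
      exact hdec _ h8 h7
  · by_contra hne
    have h1 := sum_form U L h m
    rw [hm1, sub_self] at h1
    rcases mul_eq_zero.mp h1.symm with h4 | h4
    · exact hne (sub_eq_zero.mp h4)
    · have h5 := congrArg (fun x => 3 * φ x) h4
      simp only [map_sum, map_zero, mul_zero, Finset.mul_sum] at h5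
      have h6 : ∀ i ∈ Finset.range m, 3 * φ (∏ t ∈ Finset.range i, L (1 + t) (0 + t)) = 3 := by
        intro i _
        rw [map_prod, Finset.prod_congr rfl (fun t _ => hL _ _), Finset.prod_const,
          Finset.card_range, hpow]
      rw [Finset.sum_congr rfl h6, Finset.sum_const, Finset.card_range, nsmul_eq_mul] at h5
      have h7 : ((m * 3 : ℕ) : ZMod (3 ^ 2)) = 0 := by
        push_cast
        exact h5
      rw [ZMod.natCast_eq_zero_iff] at h7
      obtain ⟨c, hc⟩ := h7
      apply h3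
      exact ⟨c, by omega⟩

/-- attracting case -/
theorem attr {R : Type*} [CommRing R] [IsDomain R] {N : ℕ} (φ : R →+* ZMod N) (π : R)
    (hπ : φ π ≠ 0) (D F : ℕ → R) (h : ∀ i, D (i + 1) = D i * F i)
    (hF : ∀ i, φ (π * F i) = 0) {n : ℕ} (hn : 0 < n) (hper : D n = D 0) : D 0 = 0 := by
  have h1 : ∀ m, D m = D 0 * ∏ t ∈ Finset.range m, F t := by
    intro m
    induction m with
    | zero => simp
    | succ m ih => rw [Finset.prod_range_succ, ← mul_assoc, ← ih, h]
  have h2 := h1 n
  rw [hper] at h2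
  have h3 : D 0 * (1 - ∏ t ∈ Finset.range n, F t) = 0 := by
    rw [mul_sub, ← h2]; ring
  rcases mul_eq_zero.mp h3 with h4 | h4
  · exact h4
  · exfalso
    have h5 : ∏ t ∈ Finset.range n, F t = 1 := (sub_eq_zero.mp h4).symm
    obtain ⟨k, rfl⟩ : ∃ k, n = k + 1 := ⟨n - 1, by omega⟩
    rw [Finset.prod_range_succ] at h5
    have h6 : φ (π * 1) = 0 := by
      rw [← h5, mul_comm (∏ t ∈ Finset.range k, F t), ← mul_assoc, map_mul, hF k, zero_mul]
    rw [mul_one] at h6
    exact hπ h6

end Pool.Agent.Helper905.Manes
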