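import Mathlib
import Pool.Agent.Helper905.Manes.Torsion
import Pool.Agent.Helper905.Manes.Num

namespace Pool.Agent.Helper905.Manes

theorem norm_le_of_val {p : ℕ} [hp : Fact p.Prime] {q : ℚ} (h0 : q ≠ 0)
    (h : 0 ≤ padicValRat p q) : ‖(q : ℚ_[p])‖ ≤ 1 := by
  apply Padic.norm_rat_le_one
  intro hd
  have h1 : ¬ p ∣ q.num.natAbs := by
    intro h2
    have h3 : p ∣ 1 := by
      rw [← q.reduced]; exact Nat.dvd_gcd h2 hd
    exact hp.out.one_lt.ne' (Nat.dvd_one.mp h3)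
  have h4 : padicValRat p q = - (padicValNat p q.den : ℤ) := by
    rw [padicValRat, padicValInt, padicValNat.eq_zero_of_not_dvd h1]
    simp
  have h5 : 1 ≤ padicValNat p q.den := one_le_padicValNat_of_dvd q.den_ne_zero hd
  omega

/-- the p-adic integer attached to a p-integral rational -/
noncomputable def toZ (p : ℕ) [Fact p.Prime] (q : ℚ) : ℤ_[p] :=
  open Classical in
  if h : ‖(q : ℚ_[p])‖ ≤ 1 then ⟨(q : ℚ_[p]), h⟩ else 0

theorem coe_toZ {p : ℕ} [Fact p.Prime] {q : ℚ} (h : ‖(q : ℚ_[p])‖ ≤ 1) :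
    ((toZ p q : ℤ_[p]) : ℚ_[p]) = (q : ℚ_[p]) := by
  rw [toZ, dif_pos h]

/-- transfer of a cycle to `ℤ_p` -/
theorem transfer {b : ℚ} {u s : ℕ → ℚ} {n : ℕ} (C : Cyc b u s n) (p : ℕ) [Fact p.Prime]
    (hb : padicValRat p b = 0) :
    ∃ (B B' : ℤ_[p]) (U I : ℕ → ℤ_[p]), B * B' = 1 ∧ (∀ i, (B + U i) * I i = 1) ∧
      (∀ i, U (i + 1) = U i * (I i) ^ 2) ∧ U n = U 0 ∧ (U 1 = U 0 → u 1 = u 0) ∧
      (∀ i, B + U i = 1 → s i = 1) ∧ (∀ i, B + U i = -1 → s i = -1) := by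
  have hun := fun i => C.v_unit p hb.le i
  have hB := norm_le_of_val (p := p) C.hb hb.ge
  have hB' : ‖((b⁻¹ : ℚ) : ℚ_[p])‖ ≤ 1 :=
    norm_le_of_val (inv_ne_zero C.hb) (by rw [padicValRat.inv, hb]; simp)
  have hU : ∀ i, ‖((u i : ℚ) : ℚ_[p])‖ ≤ 1 := fun i =>
    norm_le_of_val (C.u0 i) (by rw [← hb]; exact (hun i).2)
  have hI : ∀ i, ‖(((s i)⁻¹ : ℚ) : ℚ_[p])‖ ≤ 1 := fun i =>
    norm_le_of_val (inv_ne_zero (C.s0 i)) (by rw [padicValRat.inv, (hun i).1]; simp)
  have key : ∀ i, (((toZ p b + toZ p (u i) : ℤ_[p])) : ℚ_[p]) = ((s i : ℚ) : ℚ_[p]) := by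
    intro i
    rw [PadicInt.coe_add, coe_toZ hB, coe_toZ (hU i), C.hs i]
    push_cast
    ring
  refine ⟨toZ p b, toZ p b⁻¹, fun i => toZ p (u i), fun i => toZ p (s i)⁻¹, ?_, ?_, ?_, ?_,
    ?_, ?_, ?_⟩
  · apply Subtype.ext
    rw [PadicInt.coe_mul, coe_toZ hB, coe_toZ hB', ← Rat.cast_mul, mul_inv_cancel₀ C.hb]
    simp
  · intro i
    apply Subtype.ext
    rw [PadicInt.coe_mul, key i, coe_toZ (hI i), ← Rat.cast_mul, mul_inv_cancel₀ (C.s0 i)]
    simp
  · intro i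
    apply Subtype.ext
    rw [PadicInt.coe_mul, PadicInt.coe_pow, coe_toZ (hU (i + 1)), coe_toZ (hU i),
      coe_toZ (hI i), ← Rat.cast_pow, ← Rat.cast_mul, C.hu i]
    congr 1
    rw [inv_pow, div_eq_mul_inv]
  · have := C.hper 0
    rw [Nat.zero_add] at this
    simp only [this]
  · intro h
    have h1 := congrArg (fun x : ℤ_[p] => (x : ℚ_[p])) h
    simp only [coe_toZ (hU 1), coe_toZ (hU 0)] at h1
    exact_mod_cast h1
  · intro i h
    have h1 := congrArg (fun x : ℤ_[p] => (x : ℚ_[p])) h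
    simp only [key i, PadicInt.coe_one] at h1
    exact_mod_cast h1
  · intro i h
    have h1 := congrArg (fun x : ℤ_[p] => (x : ℚ_[p])) h
    simp only [key i, PadicInt.coe_neg, PadicInt.coe_one] at h1
    exact_mod_cast h1

theorem diff_id {R : Type*} [CommRing R] (B : R) (U I : ℕ → R)
    (h1 : ∀ i, (B + U i) * I i = 1) (h2 : ∀ i, U (i + 1) = U i * (I i) ^ 2) (i j : ℕ) :
    U (i + 1) - U (j + 1) = (U i - U j) * ((B ^ 2 - U i * U j) * (I i * I j) ^ 2) := by
  have a := h1 i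
  have c := h1 j
  rw [h2 i, h2 j]
  have e1 : U i * I i ^ 2 = U i * I i ^ 2 * ((B + U j) * I j) ^ 2 := by rw [c]; ring
  have e2 : U j * I j ^ 2 = U j * I j ^ 2 * ((B + U i) * I i) ^ 2 := by rw [a]; ring
  rw [e1, e2]
  ring

theorem case_two {b : ℚ} {u s : ℕ → ℚ} {n : ℕ} (C : Cyc b u s n)
    (hb : padicValRat 2 b = 0) : ∀ i, (s i) ^ 2 = 1 := by
  obtain ⟨B, B', U, I, h1, h2, h3, h4, h5, _, _⟩ := transfer C 2 hb
  apply C.all_of_u 0
  apply h5
  let φ : ℤ_[2] →+* ZMod (2 ^ 2) := PadicInt.toZModPow 2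
  apply tor2 φ U (fun i j => (B ^ 2 - U i * U j) * (I i * I j) ^ 2) (diff_id B U I h2 h3) _ C.hn h4
  intro i j
  have a1 := congrArg φ h1
  have a2 := congrArg φ (h2 i)
  have a3 := congrArg φ (h2 j)
  rw [map_mul, map_one] at a1
  rw [map_mul, map_add, map_one] at a2 a3
  rw [map_mul, map_sub, map_pow, map_mul, map_pow, map_mul]
  have d1 : ∀ x y : ZMod (2 ^ 2), x * y = 1 → 2 * x = 2 := by decide
  have d2 : ∀ x u i : ZMod (2 ^ 2), 2 * x = 2 → (x + u) * i = 1 → 2 * u = 0 ∧ i ^ 2 = 1 := by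
    decide
  have d3 : ∀ x u v : ZMod (2 ^ 2), 2 * x = 2 → 2 * u = 0 → 2 * v = 0 → x ^ 2 - u * v = 1 := by
    decide
  have c1 := d1 _ _ a1
  have c2 := d2 _ _ _ c1 a2
  have c3 := d2 _ _ _ c1 a3
  rw [d3 _ _ _ c1 c2.1 c3.1, mul_pow, c2.2, c3.2]
  ring

theorem case_three {b : ℚ} {u s : ℕ → ℚ} {n : ℕ} (C : Cyc b u s n)
    (hb : padicValRat 3 b = 0) : ∀ i, (s i) ^ 2 = 1 := by
  obtain ⟨B, B', U, I, h1, h2, h3, h4, h5, h6, h7⟩ := transfer C 3 hb
  let φ : ℤ_[3] →+* ZMod (3 ^ 2) := PadicInt.toZModPow 2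
  have a1 := congrArg φ h1
  rw [map_mul, map_one] at a1
  have a2 : ∀ i, (φ B + φ (U i)) * φ (I i) = 1 := by
    intro i
    have := congrArg φ (h2 i)
    rw [map_mul, map_add, map_one] at this
    exact this
  have a3 : ∀ i, φ (U (i + 1)) = φ (U i) * φ (I i) ^ 2 := by
    intro i
    rw [h3 i, map_mul, map_pow]
  have d1 : ∀ x y : ZMod (3 ^ 2), x * y = 1 → 3 * x = 3 ∨ 3 * x = 6 := by decide
  have d2 : ∀ x u : ZMod (3 ^ 2), (3 * x = 3 ∨ 3 * x = 6) →
      (3 * (x + u) = 3 ∨ 3 * (x + u) = 6) → 3 * u = 0 ∨ 3 * u = 3 * x := by decide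
  have c1 := d1 _ _ a1
  have c2 := d2 _ _ c1 (d1 _ _ (a2 0))
  rcases c2 with c3 | c3
  · -- near identity
    apply C.all_of_u 0
    apply h5
    have d3 : ∀ s i u : ZMod (3 ^ 2), s * i = 1 → 3 * u = 0 → u * i ^ 2 = u := by decide
    have e1 : ∀ i, φ (U i) = φ (U 0) := by
      intro i
      induction i with
      | zero => rfl
      | succ i ih =>
        rw [a3 i, d3 _ _ _ (a2 i) (by rw [ih]; exact c3), ih]
    have e2 : ∀ i, φ (I i) = φ (I 0) := by
      intro i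
      have f1 := a2 i
      have f2 := a2 0
      rw [e1 i] at f1
      calc φ (I i) = (φ B + φ (U 0)) * φ (I 0) * φ (I i) := by rw [f2, one_mul]
        _ = ((φ B + φ (U 0)) * φ (I i)) * φ (I 0) := by ring
        _ = φ (I 0) := by rw [f1, one_mul]
    apply tor3 φ U (fun i j => (B ^ 2 - U i * U j) * (I i * I j) ^ 2) (diff_id B U I h2 h3)
      ((φ B ^ 2 - φ (U 0) * φ (U 0)) * (φ (I 0) * φ (I 0)) ^ 2) _ _ C.hn h4
    · have d4 : ∀ x u i : ZMod (3 ^ 2), (x + u) * i = 1 → 3 * u = 0 →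
          3 * ((x ^ 2 - u * u) * (i * i) ^ 2) = 3 := by decide
      exact d4 _ _ _ (a2 0) c3
    · intro i j
      rw [map_mul, map_sub, map_pow, map_mul, map_pow, map_mul, e1 i, e1 j, e2 i, e2 j]
  · -- attracting
    have d3 : ∀ s i u : ZMod (3 ^ 2), s * i = 1 → 3 * (u * i ^ 2) = 3 * u := by decide
    have e1 : ∀ i, 3 * φ (U i) = 3 * φ B := by
      intro i
      induction i with
      | zero => exact c3
      | succ i ih =>
        rw [a3 i, d3 _ _ _ (a2 i), ih]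
    rcases c1 with c4 | c4
    · -- η = -1
      apply C.all_of_one 0
      have e2 := attr φ 3 (by rw [map_ofNat]; decide) (fun i => B + U i + 1)
        (fun i => ((B + 1) * (B + U i) - B) * (I i) ^ 2) (by
          intro i
          have := h2 i
          rw [h3 i]
          linear_combination (- B * ((B + U i) * I i + 1) - ((B + U i) * I i + 1) * 1) * this) (by
          intro i
          have d5 : ∀ x u i : ZMod (3 ^ 2), 3 * x = 3 → (x + u) * i = 1 → 3 * u = 3 * x →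
              3 * (((x + 1) * (x + u) - x) * i ^ 2) = 0 := by decide
          have := d5 _ _ _ c4 (a2 i) (e1 i)
          simp only [map_mul, map_sub, map_add, map_pow, map_one, map_ofNat]
          exact this) C.hn (by simp only [h4])
      rw [h7 0 (by linear_combination e2)]
      norm_num
    · apply C.all_of_one 0
      have e2 := attr φ 3 (by rw [map_ofNat]; decide) (fun i => B + U i - 1)
        (fun i => ((B - 1) * (B + U i) + B) * (I i) ^ 2) (by
          intro i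
          have := h2 i
          rw [h3 i]
          linear_combination (- B * ((B + U i) * I i + 1) + ((B + U i) * I i + 1) * 1) * this) (by
          intro i
          have d5 : ∀ x u i : ZMod (3 ^ 2), 3 * x = 6 → (x + u) * i = 1 → 3 * u = 3 * x →
              3 * (((x - 1) * (x + u) + x) * i ^ 2) = 0 := by decide
          have := d5 _ _ _ c4 (a2 i) (e1 i)
          simp only [map_mul, map_sub, map_add, map_pow, map_one, map_ofNat]
          exact this) C.hn (by simp only [h4])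
      rw [h6 0 (by linear_combination e2)]
      norm_num

end Pool.Agent.Helper905.Manes
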