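import Mathlib
import Pool.Agent.Helper905.Manes.Num

namespace Pool.Agent.Helper905.Manes

theorem one_of_val {q : ℚ} (h0 : q ≠ 0) (h : ∀ p, p.Prime → padicValRat p q = 0) :
    |q| = 1 := by
  have h1 : q.num.natAbs = 1 := by
    rw [Nat.eq_one_iff_not_exists_prime_dvd]
    intro p hp hd
    have := val_pos_of_dvd hp h0 hd
    rw [h p hp] at this
    exact lt_irrefl _ this
  have h2 : q.den = 1 := by
    rw [Nat.eq_one_iff_not_exists_prime_dvd]
    intro p hp hd
    have : Fact p.Prime := ⟨hp⟩
    have h3 : ¬ p ∣ q.num.natAbs := by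
      rw [h1]
      intro h4
      exact hp.one_lt.ne' (Nat.dvd_one.mp h4)
    have h4 := h p hp
    rw [padicValRat, padicValInt, padicValNat.eq_zero_of_not_dvd h3] at h4
    have h5 : 1 ≤ padicValNat p q.den := one_le_padicValNat_of_dvd q.den_ne_zero hd
    omega
  have h3 : q = q.num := by
    conv_lhs => rw [← Rat.num_div_den q, h2]
    simp
  rw [h3]
  rcases Int.natAbs_eq q.num with h4 | h4
  · rw [h4, h1]; norm_num
  · rw [h4, h1]; norm_num

theorem den_one_of_val {q : ℚ} (h : ∀ p, p.Prime → 0 ≤ padicValRat p q) : q.den = 1 := by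
  rw [Nat.eq_one_iff_not_exists_prime_dvd]
  intro p hp hd
  have : Fact p.Prime := ⟨hp⟩
  have h3 : ¬ p ∣ q.num.natAbs := by
    intro h2
    have h4 : p ∣ 1 := by
      rw [← q.reduced]; exact Nat.dvd_gcd h2 hd
    exact hp.one_lt.ne' (Nat.dvd_one.mp h4)
  have h4 := h p hp
  rw [padicValRat, padicValInt, padicValNat.eq_zero_of_not_dvd h3] at h4
  have h5 : 1 ≤ padicValNat p q.den := one_le_padicValNat_of_dvd q.den_ne_zero hd
  omega

theorem of_t {b : ℚ} {u s : ℕ → ℚ} {n : ℕ} (C : Cyc b u s n)
    (h : ∀ i, |s i * s (i + 1)| = 1) :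
    (∀ i, (s i) ^ 2 = 1) ∨ (∀ i, s i * s (i + 1) = -1) := by
  by_cases hex : ∃ k, s k * s (k + 1) = 1
  · left
    obtain ⟨k, hk⟩ := hex
    apply C.all_of_one k
    have := C.t_eq k
    rw [hk, sub_self, mul_zero] at this
    rcases mul_eq_zero.mp this with h1 | h1
    · exact absurd h1 C.hb
    · linarith
  · right
    intro i
    push Not at hex
    have h1 := h i
    rcases abs_eq (zero_le_one' ℚ) |>.mp h1 with h2 | h2
    · exact absurd h2 (hex i)
    · exact h2

section ints

variable {β : ℤ} {g e : ℕ → ℤ} {n : ℕ}

theorem typeA (hn : 0 < n) (hper : ∀ i, g (i + n) = g i)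
    (h1 : ∀ i, g (i + 1) = g i - 2 * e i) (h2 : ∀ i, g i ≠ β → e i = min β (g i))
    (k : ℕ) (hk : -β < g k ∧ g k < β) : ∀ i, -β < g i ∧ g i < β := by
  have h3 : ∀ j, -β < g (k + j) ∧ g (k + j) < β := by
    intro j
    induction j with
    | zero => exact hk
    | succ j ih =>
      have a := h1 (k + j)
      have c := h2 (k + j) (by omega)
      rw [min_eq_right (by omega)] at c
      rw [← Nat.add_assoc]
      omega
  intro i
  have h6 := per_mul g hper k i
  have h7 : k ≤ i + n * k := by nlinarith [Nat.mul_le_mul_right k hn]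
  obtain ⟨j, hj⟩ := Nat.exists_eq_add_of_le h7
  rw [← h6, hj]; exact h3 j

theorem alt_of_le (hβ : 0 < β)
    (h1 : ∀ i, g (i + 1) = g i - 2 * e i) (h2 : ∀ i, g i ≠ β → e i = min β (g i))
    (h3 : ∀ i, min β (g i) ≤ e i) (hle : ∀ i, g i ≤ β) : ∀ i, e i + e (i + 1) = 0 := by
  have hlow : ∀ i, -β ≤ g i := by
    intro i
    by_contra hc
    have a := h1 i
    have c := h2 i (by omega)
    rw [min_eq_right (by omega)] at c
    have := hle (i + 1)
    omega
  have heq : ∀ i, e i = g i := by
    intro i
    by_cases h : g i = β
    · have a := h1 i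
      have c := h3 i
      rw [h, min_self] at c
      have := hlow (i + 1)
      omega
    · have c := h2 i h
      have := hle i
      rw [min_eq_right this] at c
      exact c
  intro i
  have a := h1 i
  have := heq i
  have := heq (i + 1)
  omega

end ints

/-- numerator a prime power, `b > 0` -/
theorem case_pp {b : ℚ} {u s : ℕ → ℚ} {n : ℕ} (C : Cyc b u s n) (hb : 0 < b)
    {p k : ℕ} (hp : p.Prime) (hN : b.num.natAbs = p ^ k) :
    (∀ i, (s i) ^ 2 = 1) ∨ (∀ i, s i * s (i + 1) = -1) := by
  have : Fact p.Prime := ⟨hp⟩
  have hother : ∀ l, l.Prime → l ≠ p → ∀ i, padicValRat l (s i) = 0 := by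
    intro l hl hlp i
    have : Fact l.Prime := ⟨hl⟩
    refine (C.v_unit l (val_of_not_dvd ?_) i).1
    rw [hN]
    intro hd
    exact hlp ((Nat.prime_dvd_prime_iff_eq hl hp).mp (hl.dvd_of_dvd_pow hd))
  rcases Nat.eq_zero_or_pos k with hk | hk
  · left
    intro i
    have : |s i| = 1 := by
      apply one_of_val (C.s0 i)
      intro l hl
      have : Fact l.Prime := ⟨hl⟩
      refine (C.v_unit l (val_of_not_dvd ?_) i).1
      rw [hN, hk, pow_zero]
      intro hd
      exact hl.one_lt.ne' (Nat.dvd_one.mp hd)
    rw [← sq_abs, this, one_pow]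
  · apply of_t C
    have hβ : padicValRat p b = k := by
      rw [val_of_dvd hp (by rw [hN]; exact dvd_pow_self p hk.ne'), hN, padicValNat.prime_pow]
    have hkz : (0:ℤ) < k := by exact_mod_cast hk
    have h1 := C.v1 p
    have h2 := C.v2 p
    have h3 := C.v3 p
    rw [hβ] at h2 h3
    have hper : ∀ i, padicValRat p (u (i + n)) = padicValRat p (u i) := fun i => by rw [C.hper]
    have hle : ∀ i, padicValRat p (u i) ≤ k := by
      intro i
      by_contra hcon
      push Not at hcon
      have he : padicValRat p (s i) = k := by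
        rw [h2 i (by omega), min_eq_left (by omega)]
      have hg := h1 i
      rw [he] at hg
      by_cases hA : padicValRat p (u (i + 1)) < k
      · have := typeA (β := (k:ℤ)) (g := fun i => padicValRat p (u i))
          (e := fun i => padicValRat p (s i)) C.hn hper h1 (fun i => h2 i) (i + 1)
          ⟨by omega, hA⟩ i
        omega
      · have he1 : (k:ℤ) ≤ padicValRat p (s (i + 1)) := by
          have := h3 (i + 1)
          rw [min_eq_left (by omega)] at this
          exact this
        -- sizes
        have hpq : ((p:ℚ)) ≠ 0 := by exact_mod_cast hp.ne_zero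
        have hpow : ∀ l, l.Prime → ∀ m : ℕ, padicValRat l ((p:ℚ) ^ m) =
            if l = p then (m:ℤ) else 0 := by
          intro l hl m
          have : Fact l.Prime := ⟨hl⟩
          rw [padicValRat.pow]
          split_ifs with h
          · subst h
            rw [padicValRat.self hl.one_lt, mul_one]
          · rw [padicValRat.of_nat, padicValNat.eq_zero_of_not_dvd]
            · simp
            · intro hd
              exact h ((Nat.prime_dvd_prime_iff_eq hl hp).mp hd)
        have hs1 : |s i| = (p:ℚ) ^ k := by
          have h5 : |s i / (p:ℚ) ^ k| = 1 := by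
            apply one_of_val (div_ne_zero (C.s0 i) (pow_ne_zero _ hpq))
            intro l hl
            have : Fact l.Prime := ⟨hl⟩
            rw [padicValRat.div (C.s0 i) (pow_ne_zero _ hpq), hpow l hl]
            split_ifs with h
            · subst h; omega
            · rw [hother l hl h i]; norm_num
          rw [abs_div, abs_of_pos (show (0:ℚ) < (p:ℚ) ^ k by
            have := hp.pos; positivity)] at h5
          exact (div_eq_one_iff_eq (pow_ne_zero _ hpq)).mp h5
        obtain ⟨m, hm⟩ : ∃ m : ℕ, padicValRat p (s (i + 1)) = k + m :=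
          ⟨(padicValRat p (s (i + 1)) - k).toNat, by omega⟩
        have hs2 : |s (i + 1)| = (p:ℚ) ^ (k + m) := by
          have h5 : |s (i + 1) / (p:ℚ) ^ (k + m)| = 1 := by
            apply one_of_val (div_ne_zero (C.s0 (i + 1)) (pow_ne_zero _ hpq))
            intro l hl
            have : Fact l.Prime := ⟨hl⟩
            rw [padicValRat.div (C.s0 (i + 1)) (pow_ne_zero _ hpq), hpow l hl]
            split_ifs with h
            · subst h; push_cast; omega
            · rw [hother l hl h (i + 1)]; norm_num
          rw [abs_div, abs_of_pos (show (0:ℚ) < (p:ℚ) ^ (k + m) by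
            have := hp.pos; positivity)] at h5
          exact (div_eq_one_iff_eq (pow_ne_zero _ hpq)).mp h5
        set q : ℚ := (p:ℚ) ^ k with hq
        have hq2 : 2 ≤ q := by
          have : 2 ≤ p ^ k := le_trans hp.two_le (Nat.le_self_pow hk.ne' p)
          rw [hq]
          exact_mod_cast this
        have hD1 : (1:ℚ) ≤ b.den := by exact_mod_cast b.den_pos
        have hbD : b * b.den = q := by
          rw [Rat.mul_den_eq_num b, hq]
          have h5 : ((b.num.natAbs : ℕ) : ℚ) = b.num := by
            rw [Nat.cast_natAbs, abs_of_pos (Rat.num_pos.mpr hb)]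
          rw [← h5, hN]; push_cast; rfl
        set D : ℚ := (b.den : ℚ) with hD
        have hs2' : q ≤ |s (i + 1)| := by
          rw [hs2, pow_add]
          have : (1:ℚ) ≤ (p:ℚ) ^ m := one_le_pow₀ (by exact_mod_cast hp.one_lt.le)
          nlinarith
        have hsq : (s i) ^ 2 = q ^ 2 := by rw [← sq_abs, hs1]
        have hsucc := C.s_succ i
        rw [hsq] at hsucc
        have hDs : D * (q ^ 2 * s (i + 1)) = q * (q ^ 2 - 1) + D * s i := by
          rw [hsucc, ← hbD]; ring
        have hui : u i ≠ 0 := C.u0 i
        rcases abs_eq (by linarith : (0:ℚ) ≤ q) |>.mp hs1 with hs | hs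
        · -- s i = q
          have h6 : D ≠ 1 := by
            intro h
            apply hui
            have := C.hs i
            rw [h, mul_one] at hbD
            rw [hbD, hs] at this
            linarith
          have h7 : 2 ≤ D := by
            have h8 : b.den ≠ 1 := by
              intro h; apply h6; rw [hD, h]; norm_num
            have h9 : 2 ≤ b.den := by
              have := b.den_pos
              omega
            rw [hD]; exact_mod_cast h9
          have h8 : 0 < s (i + 1) := by
            have : 0 < D * (q ^ 2 * s (i + 1)) := by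
              rw [hDs, hs]; nlinarith [mul_pos (by linarith : (0:ℚ) < D) (by linarith : (0:ℚ) < q)]
            by_contra hc
            have h10 : D * (q ^ 2 * s (i + 1)) ≤ 0 :=
              mul_nonpos_of_nonneg_of_nonpos (by linarith)
                (mul_nonpos_of_nonneg_of_nonpos (by positivity) (not_lt.mp hc))
            linarith
          rw [abs_of_pos h8] at hs2'
          rw [hs] at hDs
          have h9 : D * (q ^ 2 * q) ≤ q * (q ^ 2 - 1) + D * q := by
            rw [← hDs]
            apply mul_le_mul_of_nonneg_left _ (by linarith)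
            exact mul_le_mul_of_nonneg_left hs2' (by positivity)
          -- (D-1)(q^2-1) q ≤ 0
          have h10 : 0 < (D - 1) * ((q ^ 2 - 1) * q) := by
            apply mul_pos (by linarith)
            apply mul_pos _ (by linarith)
            nlinarith
          nlinarith
        · have h9 : D * (q ^ 2 * |s (i + 1)|) = |q * (q ^ 2 - 1) + D * s i| := by
            rw [← hDs, abs_mul, abs_mul, abs_of_pos (by linarith : (0:ℚ) < D),
              abs_of_pos (by positivity : (0:ℚ) < q ^ 2)]
          have h10 : D * (q ^ 2 * q) ≤ |q * (q ^ 2 - 1) + D * s i| := by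
            rw [← h9]
            apply mul_le_mul_of_nonneg_left _ (by linarith)
            exact mul_le_mul_of_nonneg_left hs2' (by positivity)
          rw [hs] at h10
          have h11 : |q * (q ^ 2 - 1) + D * -q| < D * (q ^ 2 * q) := by
            have e0 : 0 < D * q := by nlinarith
            have e1 : q * q ^ 2 ≤ D * (q ^ 2 * q) := by
              have : 0 < q ^ 2 * q := by positivity
              nlinarith
            rw [abs_lt]
            constructor
            · have e2 : 4 ≤ q ^ 2 := by nlinarith
              have e3 : D * q * 4 ≤ D * q * q ^ 2 := mul_le_mul_of_nonneg_left e2 e0.le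
              have e4 : 0 < q * (q ^ 2 - 1) := mul_pos (by linarith) (by linarith)
              nlinarith
            · nlinarith
          linarith
    have halt := alt_of_le (β := (k:ℤ)) (g := fun i => padicValRat p (u i))
      (e := fun i => padicValRat p (s i)) hkz h1 (fun i => h2 i) h3 hle
    intro i
    apply one_of_val (mul_ne_zero (C.s0 i) (C.s0 (i + 1)))
    intro l hl
    have : Fact l.Prime := ⟨hl⟩
    rw [padicValRat.mul (C.s0 i) (C.s0 (i + 1))]
    by_cases h : l = p
    · subst h; exact halt i
    · rw [hother l hl h i, hother l hl h (i + 1)]; norm_num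

/-- numerator with at most two prime factors -/
theorem two_primes_core {b : ℚ} {u s : ℕ → ℚ} {n : ℕ} (C : Cyc b u s n)
    (hcard : b.num.natAbs.primeFactors.card ≤ 2)
    (hneg : ∀ i, ∃ p ∈ b.num.natAbs.primeFactors, padicValRat p (s i) < 0) :
    ∀ i, |s i * s (i + 1)| = 1 := by
  have hN0 : b.num.natAbs ≠ 0 := by simpa using C.hb
  set S := b.num.natAbs.primeFactors with hS
  have hpr : ∀ p ∈ S, p.Prime := fun p hp => Nat.prime_of_mem_primeFactors hp
  have hother : ∀ l, l.Prime → l ∉ S → ∀ i, padicValRat l (s i) = 0 := by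
    intro l hl hlS i
    have : Fact l.Prime := ⟨hl⟩
    refine (C.v_unit l (val_of_not_dvd ?_) i).1
    intro hd
    exact hlS (Nat.mem_primeFactors.mpr ⟨hl, hd, hN0⟩)
  have hβpos : ∀ p ∈ S, 0 < padicValRat p b := fun p hp =>
    val_pos_of_dvd (hpr p hp) C.hb (Nat.dvd_of_mem_primeFactors hp)
  have hpos : ∀ p ∈ S, ∀ i, padicValRat p (s i) < 0 → 0 < padicValRat p (s (i + 1)) := by
    intro p hp i hi
    have : Fact p.Prime := ⟨hpr p hp⟩
    have h1 := C.v1 p i
    have h3 := C.v3 p i
    have h3' := C.v3 p (i + 1)
    have hβ := hβpos p hp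
    have h2 := C.v2 p i (by intro h; rw [h, min_self] at h3; omega)
    omega
  have halt : ∀ p ∈ S, ∀ i, 0 ≤ padicValRat p (s i) → padicValRat p (s (i + 1)) < 0 := by
    intro p hp i hi
    obtain ⟨q, hq, hqi⟩ := hneg i
    obtain ⟨r, hr, hri⟩ := hneg (i + 1)
    have hpq : p ≠ q := by
      intro h; subst h; omega
    have hrq : r ≠ q := by
      intro h; subst h
      have := hpos r hr i hqi
      omega
    have : r = p := by
      by_contra hrp
      have hsub : ({p, q, r} : Finset ℕ) ⊆ S := by
        intro x hx
        simp only [Finset.mem_insert, Finset.mem_singleton] at hx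
        rcases hx with rfl | rfl | rfl <;> assumption
      have h3 : ({p, q, r} : Finset ℕ).card = 3 := by
        rw [Finset.card_eq_three]
        exact ⟨p, q, r, hpq, Ne.symm hrp, Ne.symm hrq, rfl⟩
      have := Finset.card_le_card hsub
      omega
    rw [← this]; exact hri
  have hsum : ∀ p ∈ S, ∀ i, padicValRat p (s i) + padicValRat p (s (i + 1)) = 0 := by
    intro p hp
    have : Fact p.Prime := ⟨hpr p hp⟩
    have h1 := C.v1 p
    have h2 := C.v2 p
    have h3 := C.v3 p
    have hβ := hβpos p hp
    have hper : ∀ i, padicValRat p (u (i + n)) = padicValRat p (u i) := fun i => by rw [C.hper]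
    apply alt_of_le (β := padicValRat p b) (g := fun i => padicValRat p (u i)) hβ h1 h2 h3
    intro i
    by_contra hcon
    have he := h2 i (by omega)
    rw [min_eq_left (by omega)] at he
    have hn1 := halt p hp i (by omega)
    have hg := h1 i
    have h3' := h3 (i + 1)
    have := typeA (β := padicValRat p b) (g := fun i => padicValRat p (u i))
      (e := fun i => padicValRat p (s i)) C.hn hper h1 h2 (i + 1)
      ⟨by omega, by
        by_contra hc
        rw [min_eq_left (by omega)] at h3'
        omega⟩ i
    omega
  intro i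
  apply one_of_val (mul_ne_zero (C.s0 i) (C.s0 (i + 1)))
  intro l hl
  have : Fact l.Prime := ⟨hl⟩
  rw [padicValRat.mul (C.s0 i) (C.s0 (i + 1))]
  by_cases h : l ∈ S
  · exact hsum l h i
  · rw [hother l hl h i, hother l hl h (i + 1)]; norm_num

end Pool.Agent.Helper905.Manes
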