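import Mathlib
import Pool.Agent.Helper905.Manes.Torsion
import Pool.Agent.Helper905.Manes.PadicCase
import Pool.Agent.Helper905.Manes.PrimePower

namespace Pool.Agent.Helper905.Manes

theorem psq {p : ℕ} : ((p : ZMod (p ^ 2))) * (p : ZMod (p ^ 2)) = 0 := by
  have h : ((p * p : ℕ) : ZMod (p ^ 2)) = 0 := by
    rw [ZMod.natCast_eq_zero_iff, pow_two]
  exact_mod_cast h

theorem exists_mul_p {p : ℕ} (hp : p.Prime) (x : ZMod (p ^ 2))
    (h : (p : ZMod (p ^ 2)) * x = 0) : ∃ y, x = (p : ZMod (p ^ 2)) * y := by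
  obtain ⟨a, rfl⟩ := ZMod.intCast_surjective x
  have h1 : (((p : ℤ) * a : ℤ) : ZMod (p ^ 2)) = 0 := by
    push_cast
    exact h
  rw [ZMod.intCast_zmod_eq_zero_iff_dvd] at h1
  obtain ⟨c, hc⟩ := h1
  have hp0 : (p : ℤ) ≠ 0 := by exact_mod_cast hp.ne_zero
  have h2 : a = (p : ℤ) * c := by
    have : (p : ℤ) * a = (p : ℤ) * ((p : ℤ) * c) := by rw [hc]; push_cast; ring
    exact mul_left_cancel₀ hp0 this
  refine ⟨(c : ZMod (p ^ 2)), ?_⟩
  rw [h2]; push_cast; rfl

theorem geom_p {p : ℕ} (hp : p.Prime) (hodd : p ≠ 2) (ν : ZMod (p ^ 2))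
    (h : (p : ZMod (p ^ 2)) * ν = (p : ZMod (p ^ 2))) : ∑ i ∈ Finset.range p, ν ^ i = (p : ZMod (p ^ 2)) := by
  obtain ⟨y, hy⟩ := exists_mul_p hp (ν - 1) (by rw [mul_sub, h]; ring)
  have hν : ν = 1 + (p : ZMod (p ^ 2)) * y := by rw [← hy]; ring
  have hpow : ∀ i : ℕ, ν ^ i = 1 + (i : ZMod (p ^ 2)) * ((p : ZMod (p ^ 2)) * y) := by
    intro i
    induction i with
    | zero => simp
    | succ i ih =>
      rw [pow_succ ν i, ih, hν]
      have := psq (p := p)
      push_cast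
      linear_combination ((i : ZMod (p ^ 2)) * y * y) * this
  rw [Finset.sum_congr rfl (fun i _ => hpow i), Finset.sum_add_distrib, Finset.sum_const,
    Finset.card_range, nsmul_eq_mul, mul_one, ← Finset.sum_mul]
  obtain ⟨k, hk⟩ := hp.odd_of_ne_two hodd
  have h1 : ∑ i ∈ Finset.range p, i = p * k := by
    have h2 := Finset.sum_range_id_mul_two p
    have h3 : p - 1 = 2 * k := by omega
    rw [h3] at h2
    nlinarith
  have h4 : ∑ i ∈ Finset.range p, (i : ZMod (p ^ 2)) = (p : ZMod (p ^ 2)) * k := by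
    have := congrArg (fun x : ℕ => (x : ZMod (p ^ 2))) h1
    simp only [Nat.cast_sum, Nat.cast_mul] at this
    exact this
  rw [h4]
  have := psq (p := p)
  linear_combination ((k : ZMod (p ^ 2)) * y) * this

theorem torp {R : Type*} [CommRing R] [IsDomain R] {p : ℕ} (hp : p.Prime) (hodd : p ≠ 2)
    (φ : R →+* ZMod (p ^ 2)) (U : ℕ → R)
    (L : ℕ → ℕ → R) (h : ∀ i j, U (i + 1) - U (j + 1) = (U i - U j) * L i j)
    (lam : ZMod (p ^ 2)) (hlam : (p : ZMod (p ^ 2)) * lam = (p : ZMod (p ^ 2)))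
    (hL : ∀ i j, φ (L i j) = lam) {n : ℕ} (hn : 0 < n) (hper : U n = U 0) : U 1 = U 0 := by
  obtain ⟨m, hm, hm1, hm2⟩ := min_period U hn hper
  have hpow : ∀ k : ℕ, (p : ZMod (p ^ 2)) * lam ^ k = (p : ZMod (p ^ 2)) := by
    intro k
    induction k with
    | zero => simp
    | succ k ih => rw [pow_succ lam k, ← mul_assoc, ih, hlam]
  by_cases h3 : p ∣ m
  · exfalso
    obtain ⟨k, hk⟩ := h3
    have hk0 : 0 < k := by
      rcases Nat.eq_zero_or_pos k with h0 | h0
      · subst h0; omega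
      · exact h0
    have hkm : k < m := by
      rw [hk]
      have := hp.two_le
      nlinarith
    have hV : ∀ i j, U ((i + 1) * k) - U ((j + 1) * k) =
        (U (i * k) - U (j * k)) * ∏ t ∈ Finset.range k, L (i * k + t) (j * k + t) := by
      intro i j
      have := diff_prod U L h (i * k) (j * k) k
      rw [Nat.add_mul, Nat.add_mul, Nat.one_mul]
      exact this
    have h1 := sum_form (fun j => U (j * k))
      (fun i j => ∏ t ∈ Finset.range k, L (i * k + t) (j * k + t)) hV p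
    rw [← hk, hm1, Nat.zero_mul, sub_self, Nat.one_mul] at h1
    rcases mul_eq_zero.mp h1.symm with h4 | h4
    · exact hm2 k hk0 hkm (sub_eq_zero.mp h4)
    · have h5 := congrArg φ h4
      rw [map_sum, map_zero] at h5
      have h6 : ∀ i ∈ Finset.range p, φ (∏ t ∈ Finset.range i,
          ∏ t_1 ∈ Finset.range k, L ((1 + t) * k + t_1) ((0 + t) * k + t_1)) =
          (lam ^ k) ^ i := by
        intro i _
        rw [map_prod]
        have h7 : ∀ t ∈ Finset.range i, φ (∏ t_1 ∈ Finset.range k,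
            L ((1 + t) * k + t_1) ((0 + t) * k + t_1)) = lam ^ k := by
          intro t _
          rw [map_prod, Finset.prod_congr rfl (fun t _ => hL _ _), Finset.prod_const,
            Finset.card_range]
        rw [Finset.prod_congr rfl h7, Finset.prod_const, Finset.card_range]
      rw [Finset.sum_congr rfl h6, geom_p hp hodd _ (hpow k), ZMod.natCast_eq_zero_iff] at h5
      have h8 := Nat.le_of_dvd hp.pos h5
      have := hp.two_le
      nlinarith
  · by_contra hne
    have h1 := sum_form U L h m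
    rw [hm1, sub_self] at h1
    rcases mul_eq_zero.mp h1.symm with h4 | h4
    · exact hne (sub_eq_zero.mp h4)
    · have h5 := congrArg (fun x => (p : ZMod (p ^ 2)) * φ x) h4
      simp only [map_sum, map_zero, mul_zero, Finset.mul_sum] at h5
      have h6 : ∀ i ∈ Finset.range m,
          (p : ZMod (p ^ 2)) * φ (∏ t ∈ Finset.range i, L (1 + t) (0 + t)) = (p : ZMod (p ^ 2)) := by
        intro i _
        rw [map_prod, Finset.prod_congr rfl (fun t _ => hL _ _), Finset.prod_const,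
          Finset.card_range, hpow]
      rw [Finset.sum_congr rfl h6, Finset.sum_const, Finset.card_range, nsmul_eq_mul] at h5
      have h7 : ((m * p : ℕ) : ZMod (p ^ 2)) = 0 := by
        push_cast
        exact h5
      rw [ZMod.natCast_eq_zero_iff] at h7
      obtain ⟨c, hc⟩ := h7
      apply h3
      refine ⟨c, ?_⟩
      have : m * p = (p * c) * p := by rw [hc]; ring
      exact Nat.eq_of_mul_eq_mul_right hp.pos this

/-- abstract form of the alternating case -/
theorem torAC {R : Type*} [CommRing R] [IsDomain R] {p : ℕ} (hp : p.Prime)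
    (φ : R →+* ZMod (p ^ 2)) (Z I w y : ℕ → R)
    (hS : ∀ i, (Z i + w i) * I i = 1) (hZ : ∀ i, Z (i + 1) = Z i * I i ^ 2)
    (hw : ∀ i, w (i + 2) = w i) (hy : ∀ i, w i = (p : R) * y i)
    {n : ℕ} (hn : 0 < n) (hper : Z (2 * n) = Z 0) : Z 2 = Z 0 := by
  have hw0 : ∀ k, w (2 * k) = w 0 := by
    intro k
    induction k with
    | zero => rfl
    | succ k ih => rw [Nat.mul_succ, hw, ih]
  have hw1 : ∀ k, w (2 * k + 1) = w 1 := by
    intro k
    induction k with
    | zero => rfl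
    | succ k ih => rw [Nat.mul_succ, Nat.add_right_comm, hw, ih]
  have hstep : ∀ i j, w i = w j →
      Z (i + 1) - Z (j + 1) = (Z i - Z j) * ((w i ^ 2 - Z i * Z j) * (I i * I j) ^ 2) := by
    intro i j hij
    have a := hS i
    have c := hS j
    rw [hZ i, hZ j]
    have e1 : Z i * I i ^ 2 = Z i * I i ^ 2 * ((Z j + w j) * I j) ^ 2 := by rw [c]; ring
    have e2 : Z j * I j ^ 2 = Z j * I j ^ 2 * ((Z i + w i) * I i) ^ 2 := by rw [a]; ring
    rw [e1, e2, hij]
    ring
  let L : ℕ → ℕ → R := fun k l =>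
    ((w 0 ^ 2 - Z (2 * k) * Z (2 * l)) * (I (2 * k) * I (2 * l)) ^ 2) *
      ((w 1 ^ 2 - Z (2 * k + 1) * Z (2 * l + 1)) * (I (2 * k + 1) * I (2 * l + 1)) ^ 2)
  have hdiff : ∀ k l, Z (2 * (k + 1)) - Z (2 * (l + 1)) = (Z (2 * k) - Z (2 * l)) * L k l := by
    intro k l
    have a1 := hstep (2 * k) (2 * l) (by rw [hw0, hw0])
    have a2 := hstep (2 * k + 1) (2 * l + 1) (by rw [hw1, hw1])
    rw [hw0] at a1
    rw [hw1] at a2
    rw [Nat.mul_succ, Nat.mul_succ]
    simp only [L]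
    rw [← mul_assoc, ← a1]
    exact a2
  -- images
  have hpw : ∀ i, (p : ZMod (p ^ 2)) * φ (w i) = 0 := by
    intro i
    rw [hy i, map_mul, map_natCast, ← mul_assoc, psq, zero_mul]
  have hww : ∀ i, φ (w i) ^ 2 = 0 := by
    intro i
    rw [hy i, map_mul, map_natCast]
    have := psq (p := p)
    linear_combination (φ (y i)) ^ 2 * this
  have hS' : ∀ i, (φ (Z i) + φ (w i)) * φ (I i) = 1 := by
    intro i
    have := congrArg φ (hS i)
    rw [map_mul, map_add, map_one] at this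
    exact this
  have hZ' : ∀ i, φ (Z (i + 1)) = φ (Z i) * φ (I i) ^ 2 := by
    intro i
    rw [hZ i, map_mul, map_pow]
  have hμ : ∀ i, (p : ZMod (p ^ 2)) * (φ (Z i) * φ (I i)) = (p : ZMod (p ^ 2)) := by
    intro i
    have a := hS' i
    have c := hpw i
    linear_combination (p : ZMod (p ^ 2)) * a - φ (I i) * c
  have hzz : ∀ i, (p : ZMod (p ^ 2)) * (φ (Z (i + 1)) * φ (Z i)) = (p : ZMod (p ^ 2)) := by
    intro i
    have a := hμ i
    rw [hZ' i]
    linear_combination (φ (Z i) * φ (I i)) * a + a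
  have hz2 : ∀ i, (p : ZMod (p ^ 2)) * φ (Z (i + 2)) = (p : ZMod (p ^ 2)) * φ (Z i) := by
    intro i
    have a := hzz i
    have c := hzz (i + 1)
    linear_combination (- φ (Z (i + 2))) * a + φ (Z i) * c
  have hz1 : ∀ k, (p : ZMod (p ^ 2)) * φ (Z (2 * k + 1)) = (p : ZMod (p ^ 2)) * φ (Z 1) := by
    intro k
    induction k with
    | zero => rfl
    | succ k ih => rw [Nat.mul_succ, Nat.add_right_comm, hz2, ih]
  have hμ1 : ∀ k, φ (Z (2 * k + 1)) * φ (I (2 * k + 1)) = φ (Z 1) * φ (I 1) := by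
    intro k
    have a := hS' (2 * k + 1)
    have c := hS' 1
    have d := hz1 k
    rw [hw1] at a
    have e : φ (w 1) * (φ (Z (2 * k + 1)) - φ (Z 1)) = 0 := by
      rw [hy 1, map_mul, map_natCast]
      linear_combination φ (y 1) * d
    linear_combination (- (φ (Z (2 * k + 1)) * φ (I (2 * k + 1)))) * c
      + (φ (Z 1) * φ (I 1)) * a + (φ (I (2 * k + 1)) * φ (I 1)) * e
  set μ := φ (Z 1) * φ (I 1) with hμdef
  have hLφ : ∀ k l, φ (L k l) = μ ^ 2 * μ ^ 2 := by
    intro k l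
    simp only [L]
    have c0 := hww 0
    have c1 := hww 1
    simp only [map_mul, map_sub, map_pow, c0, c1]
    have a1 := hZ' (2 * k)
    have a2 := hZ' (2 * l)
    have b1 := hμ1 k
    have b2 := hμ1 l
    calc (0 - φ (Z (2 * k)) * φ (Z (2 * l))) * (φ (I (2 * k)) * φ (I (2 * l))) ^ 2 *
        ((0 - φ (Z (2 * k + 1)) * φ (Z (2 * l + 1))) *
          (φ (I (2 * k + 1)) * φ (I (2 * l + 1))) ^ 2)
        = (φ (Z (2 * k)) * φ (I (2 * k)) ^ 2) * (φ (Z (2 * l)) * φ (I (2 * l)) ^ 2) *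
          (φ (Z (2 * k + 1)) * φ (Z (2 * l + 1)) *
          (φ (I (2 * k + 1)) * φ (I (2 * l + 1))) ^ 2) := by ring
      _ = (φ (Z (2 * k + 1)) * φ (I (2 * k + 1))) ^ 2 *
          (φ (Z (2 * l + 1)) * φ (I (2 * l + 1))) ^ 2 := by rw [← a1, ← a2]; ring
      _ = μ ^ 2 * μ ^ 2 := by rw [b1, b2]
  have hpμ : (p : ZMod (p ^ 2)) * μ = (p : ZMod (p ^ 2)) := hμ 1
  have hfin : (fun k => Z (2 * k)) 1 = (fun k => Z (2 * k)) 0 := by
    by_cases h2 : p = 2
    · subst h2
      apply tor2 φ (fun k => Z (2 * k)) L hdiff _ hn (by simpa using hper)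
      intro i j
      rw [hLφ]
      have hdec : ∀ x : ZMod (2 ^ 2), ((2 : ℕ) : ZMod (2 ^ 2)) * x = ((2 : ℕ) : ZMod (2 ^ 2)) →
          x ^ 2 * x ^ 2 = 1 := by decide
      exact hdec _ hpμ
    · apply torp hp h2 φ (fun k => Z (2 * k)) L hdiff (μ ^ 2 * μ ^ 2) _ hLφ hn
        (by simpa using hper)
      linear_combination (μ ^ 3 + μ ^ 2 + μ + 1) * hpμ
  simpa using hfin

end Pool.Agent.Helper905.Manes
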