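import Mathlib
import Pool.Agent.Helper905.Manes.TorsionP

namespace Pool.Agent.Helper905.Manes

theorem of_two {b : ℚ} {u s : ℕ → ℚ} {n : ℕ} (C : Cyc b u s n) (k : ℕ)
    (h : u (k + 2) = u k) : ∀ i, |s i * s (i + 1)| = 1 := by
  have hdet : ∀ i j, u i = u j → u (i + 1) = u (j + 1) := by
    intro i j hij
    rw [C.hu, C.hu, C.hs i, C.hs j, hij]
  have h1 : ∀ j, u (k + j + 2) = u (k + j) := by
    intro j
    induction j with
    | zero => exact h
    | succ j ih =>
      have := hdet _ _ ih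
      rw [← Nat.add_assoc]
      rw [show k + j + 1 + 2 = k + j + 2 + 1 by ring]
      exact this
  intro i
  have h6 := per_mul u C.hper k i
  have h6' := per_mul u C.hper k (i + 2)
  have hn := C.hn
  have h7 : k ≤ i + n * k := by nlinarith [Nat.mul_le_mul_right k hn]
  obtain ⟨j, hj⟩ := Nat.exists_eq_add_of_le h7
  have h8 : u (i + 2) = u i := by
    rw [← h6, ← h6', hj, show i + 2 + n * k = k + j + 2 by omega]
    exact h1 j
  have h9 := C.hu i
  have h10 := C.hu (i + 1)
  rw [show i + 1 + 1 = i + 2 by ring, h8, h9] at h10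
  have a := C.s0 i
  have c := C.s0 (i + 1)
  have d := C.u0 i
  have h11 : (s i * s (i + 1)) ^ 2 = 1 := by
    field_simp at h10
    linear_combination h10
  have h12 : |s i * s (i + 1)| ^ 2 = 1 := by rw [sq_abs, h11]
  have h13 : (0:ℚ) ≤ |s i * s (i + 1)| := abs_nonneg _
  nlinarith

theorem caseAC {b : ℚ} {u s : ℕ → ℚ} {n : ℕ} (C : Cyc b u s n) (p : ℕ) [hpf : Fact p.Prime]
    (hβ : 0 < padicValRat p b) (k : ℕ)
    (hk : - padicValRat p b < padicValRat p (u k) ∧ padicValRat p (u k) < padicValRat p b) :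
    ∀ i, |s i * s (i + 1)| = 1 := by
  have hper' : ∀ i, padicValRat p (u (i + n)) = padicValRat p (u i) := fun i => by rw [C.hper]
  have hall := typeA (β := padicValRat p b) (g := fun i => padicValRat p (u i))
    (e := fun i => padicValRat p (s i)) C.hn hper' (C.v1 p) (C.v2 p) k hk
  have he : ∀ i, padicValRat p (s i) = padicValRat p (u i) := by
    intro i
    have a := hall i
    rw [C.v2 p i (by omega), min_eq_right (by omega)]
  have hg : ∀ i, padicValRat p (u (i + 1)) = - padicValRat p (u i) := by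
    intro i
    rw [C.v1 p i, he i]; ring
  obtain ⟨j0, hj0⟩ : ∃ j0, 0 ≤ padicValRat p (u j0) := by
    by_cases h : 0 ≤ padicValRat p (u 0)
    · exact ⟨0, h⟩
    · refine ⟨1, ?_⟩
      have := hg 0
      rw [Nat.zero_add] at this
      omega
  have hpq : (p : ℚ) ≠ 0 := by exact_mod_cast hpf.out.ne_zero
  let q : ℕ → ℚ := fun i => (p : ℚ) ^ (- padicValRat p (u (j0 + i)))
  have hq0 : ∀ i, q i ≠ 0 := fun i => zpow_ne_zero _ hpq
  have hqv : ∀ i, padicValRat p (q i) = - padicValRat p (u (j0 + i)) := by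
    intro i
    simp only [q]
    rw [padicValRat.zpow, padicValRat.self hpf.out.one_lt, mul_one]
  have hq2 : ∀ i, q (i + 2) = q i := by
    intro i
    simp only [q]
    have a := hg (j0 + i)
    have c := hg (j0 + i + 1)
    rw [show j0 + (i + 2) = j0 + i + 1 + 1 by ring, c, a]
    ring_nf
  have hq1 : ∀ i, q (i + 1) * q i = 1 := by
    intro i
    simp only [q]
    rw [← zpow_add₀ hpq]
    have a := hg (j0 + i)
    rw [show j0 + (i + 1) = j0 + i + 1 by ring, a]
    have : - - padicValRat p (u (j0 + i)) + - padicValRat p (u (j0 + i)) = 0 := by ring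
    rw [this, zpow_zero]
  let Zq : ℕ → ℚ := fun i => u (j0 + i) * q i
  let Sq : ℕ → ℚ := fun i => s (j0 + i) * q i
  let wq : ℕ → ℚ := fun i => b * q i
  have hZ0 : ∀ i, Zq i ≠ 0 := fun i => mul_ne_zero (C.u0 _) (hq0 i)
  have hS0 : ∀ i, Sq i ≠ 0 := fun i => mul_ne_zero (C.s0 _) (hq0 i)
  have hw0 : ∀ i, wq i ≠ 0 := fun i => mul_ne_zero C.hb (hq0 i)
  have vZ : ∀ i, padicValRat p (Zq i) = 0 := by
    intro i
    simp only [Zq]
    rw [padicValRat.mul (C.u0 _) (hq0 i), hqv]; ring
  have vS : ∀ i, padicValRat p (Sq i) = 0 := by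
    intro i
    simp only [Sq]
    rw [padicValRat.mul (C.s0 _) (hq0 i), hqv, he]; ring
  have vw : ∀ i, 1 ≤ padicValRat p (wq i) := by
    intro i
    simp only [wq]
    rw [padicValRat.mul C.hb (hq0 i), hqv]
    have := hall (j0 + i)
    omega
  have nZ : ∀ i, ‖((Zq i : ℚ) : ℚ_[p])‖ ≤ 1 := fun i => norm_le_of_val (hZ0 i) (vZ i).ge
  have nS : ∀ i, ‖(((Sq i)⁻¹ : ℚ) : ℚ_[p])‖ ≤ 1 := fun i =>
    norm_le_of_val (inv_ne_zero (hS0 i)) (by rw [padicValRat.inv, vS i]; simp)
  have nw : ∀ i, ‖((wq i : ℚ) : ℚ_[p])‖ ≤ 1 := fun i =>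
    norm_le_of_val (hw0 i) (by have := vw i; omega)
  have ny : ∀ i, ‖((wq i / p : ℚ) : ℚ_[p])‖ ≤ 1 := fun i =>
    norm_le_of_val (div_ne_zero (hw0 i) hpq) (by
      rw [padicValRat.div (hw0 i) hpq, padicValRat.self hpf.out.one_lt]
      have := vw i; omega)
  have hfin := torAC hpf.out (PadicInt.toZModPow 2) (fun i => toZ p (Zq i))
    (fun i => toZ p (Sq i)⁻¹) (fun i => toZ p (wq i)) (fun i => toZ p (wq i / p))
    (by
      intro i
      apply Subtype.ext
      rw [PadicInt.coe_mul, PadicInt.coe_add, coe_toZ (nZ i), coe_toZ (nw i), coe_toZ (nS i),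
        ← Rat.cast_add, ← Rat.cast_mul]
      have : Zq i + wq i = Sq i := by
        simp only [Zq, wq, Sq]
        rw [C.hs (j0 + i)]; ring
      rw [this, mul_inv_cancel₀ (hS0 i)]
      simp)
    (by
      intro i
      apply Subtype.ext
      rw [PadicInt.coe_mul, PadicInt.coe_pow, coe_toZ (nZ (i + 1)), coe_toZ (nZ i),
        coe_toZ (nS i), ← Rat.cast_pow, ← Rat.cast_mul]
      congr 1
      simp only [Zq, Sq]
      rw [← Nat.add_assoc, C.hu (j0 + i)]
      have a := C.s0 (j0 + i)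
      have c := hq0 i
      have d := hq1 i
      have e : q (i + 1) = (q i)⁻¹ := eq_inv_of_mul_eq_one_left d
      rw [e]
      field_simp)
    (by
      intro i
      simp only [wq]
      rw [hq2 i])
    (by
      intro i
      apply Subtype.ext
      rw [PadicInt.coe_mul, coe_toZ (nw i), coe_toZ (ny i), PadicInt.coe_natCast,
        ← Rat.cast_natCast, ← Rat.cast_mul]
      congr 1
      field_simp)
    C.hn
    (by
      have : Zq (2 * n) = Zq 0 := by
        simp only [Zq, q]
        have := per_mul u C.hper 2 j0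
        rw [Nat.add_zero, Nat.mul_comm 2 n, this]
      simp only [this])
  have h1 := congrArg (fun x : ℤ_[p] => (x : ℚ_[p])) hfin
  simp only [coe_toZ (nZ 2), coe_toZ (nZ 0)] at h1
  have h2 : Zq 2 = Zq 0 := by exact_mod_cast h1
  apply of_two C j0
  simp only [Zq] at h2
  have h3 := hq2 0
  rw [Nat.zero_add] at h3
  rw [h3, Nat.add_zero] at h2
  exact mul_right_cancel₀ (hq0 0) h2

end Pool.Agent.Helper905.Manes
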