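import Mathlib
import Pool.Agent.Helper905.Manes.TypeAC
import Pool.Agent.Helper905.Manes.Size

namespace Pool.Agent.Helper905.Manes

/-- integer facts in the expanding case -/
theorem typeB_neg {β g g' e : ℤ} (hβ : 0 < β) (h1 : g' = g - 2 * e)
    (h2 : g ≠ β → e = min β g) (h3 : min β g ≤ e)
    (hB : ¬ (-β < g ∧ g < β)) (hB' : ¬ (-β < g' ∧ g' < β)) :
    (g = β → g' ≤ -β) ∧ (g ≠ β → β ≤ g') := by
  constructor
  · intro h
    subst h
    rw [min_self] at h3
    omega
  · intro h
    have := h2 h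
    omega

/-- bundle of data attached to a cycle all of whose numerator primes are expanding -/
structure Data (b : ℚ) (u s : ℕ → ℚ) (n : ℕ) (E W : ℕ → ℕ) : Prop where
  cyc : Cyc b u s n
  hnt : ∀ i, (s i) ^ 2 ≠ 1
  E1 : ∀ i, 1 ≤ E i
  W1 : ∀ i, 1 ≤ W i
  WN : ∀ i, W i ≤ b.num.natAbs
  perE : ∀ i, E (i + n) = E i
  perW : ∀ i, W (i + n) = W i
  rel : ∀ i, |s (i + 1)| * ((E i : ℚ) * (W i : ℚ)) ^ 2 = (b.num.natAbs : ℚ) * (E (i + 1) : ℚ)
  num : ∀ i, ∀ ρ : ℚ, ρ ≠ 0 → (∀ p : ℕ, p.Prime →
      (padicValRat p ρ ≤ padicValRat p b + padicValRat p (s i)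
        - min (padicValRat p b) (padicValRat p (u i))) ∧
        (padicValRat p b ≤ 0 → padicValRat p ρ ≤ 0)) → ρ.num.natAbs ≤ b.num.natAbs * E i
  den : ∀ i, (s (i + 1)).den ≤ W i * E i ^ 2
  prod : (∏ i ∈ Finset.range n, E i) * (∏ i ∈ Finset.range n, W i) ^ 2 ≤ b.num.natAbs ^ n
  EW : ∀ i, W i = 1 → E i = 1
  hit : ∀ p, p.Prime → p ∣ b.num.natAbs → ∃ i, p ^ (padicValNat p b.num.natAbs) ≤ W i
  minW : ∀ i m, (∀ x, x.Prime → x ∣ b.num.natAbs → m ≤ x ^ (padicValNat x b.num.natAbs)) →
    W i ≠ 1 → m ≤ W i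
  big : ∀ i, (b.num.natAbs : ℚ) ^ 4 ≤ |u (i + 1) / b| *
    (((E i : ℚ) * (W i : ℚ)) ^ 2 * ((W (i + 1) : ℚ) ^ 4 * (W i : ℚ) ^ 4 * (W (i + 2) : ℚ) ^ 2))
  supp : ∀ i, ∀ p : ℕ, p.Prime → p ∣ E i * W i → p ∣ b.num.natAbs

theorem exists_data {b : ℚ} {u s : ℕ → ℚ} {n : ℕ} (C : Cyc b u s n)
    (hnt : ¬ ∀ i, |s i * s (i + 1)| = 1) : ∃ E W : ℕ → ℕ, Data b u s n E W := by
  have hnt1 : ∀ i, (s i) ^ 2 ≠ 1 := by
    intro i hi
    apply hnt
    intro j
    have h1 := C.all_of_one i hi j
    have h2 := C.all_of_one i hi (j + 1)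
    have h3 : |s j * s (j + 1)| ^ 2 = 1 := by rw [sq_abs, mul_pow, h1, h2]; norm_num
    have h4 : (0:ℚ) ≤ |s j * s (j + 1)| := abs_nonneg _
    nlinarith
  set N := b.num.natAbs with hNdef
  have hN0 : N ≠ 0 := by
    rw [hNdef]; simpa using C.hb
  set S := N.primeFactors with hSdef
  let β : ℕ → ℕ := fun p => padicValNat p N
  have hβ : ∀ p ∈ S, padicValRat p b = (β p : ℤ) ∧ 0 < β p := by
    intro p hp
    have hpp := Nat.prime_of_mem_primeFactors hp
    have hd := Nat.dvd_of_mem_primeFactors hp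
    have h1 := val_of_dvd hpp hd
    have h2 := val_pos_of_dvd hpp C.hb hd
    refine ⟨h1, ?_⟩
    rw [h1] at h2
    exact_mod_cast h2
  have hpr : ∀ p ∈ S, p.Prime := fun p hp => Nat.prime_of_mem_primeFactors hp
  have hoS : ∀ l, l.Prime → l ∉ S → padicValRat l b ≤ 0 := by
    intro l hl hlS
    apply val_of_not_dvd
    intro hd
    exact hlS (Nat.mem_primeFactors.mpr ⟨hl, hd, hN0⟩)
  have hB : ∀ p ∈ S, ∀ i, ¬ (-(β p : ℤ) < padicValRat p (u i) ∧
      padicValRat p (u i) < (β p : ℤ)) := by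
    intro p hp i hk
    have : Fact p.Prime := ⟨hpr p hp⟩
    rw [← (hβ p hp).1] at hk
    apply hnt
    apply caseAC C p _ i hk
    rw [(hβ p hp).1]
    exact_mod_cast (hβ p hp).2
  let g : ℕ → ℕ → ℤ := fun i p => padicValRat p (u i)
  let e : ℕ → ℕ → ℤ := fun i p => padicValRat p (s i)
  let η : ℕ → ℕ → ℕ := fun i p => (e i p - min (β p : ℤ) (g i p)).toNat
  let δ : ℕ → ℕ → ℕ := fun i p => if g i p = (β p : ℤ) then β p else 0
  have hη : ∀ i, ∀ p ∈ S, (η i p : ℤ) = e i p - min (β p : ℤ) (g i p) := by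
    intro i p hp
    have : Fact p.Prime := ⟨hpr p hp⟩
    have h3 := C.v3 p i
    rw [(hβ p hp).1] at h3
    simp only [η, e, g]
    omega
  have hη0 : ∀ i, ∀ p ∈ S, g i p ≠ (β p : ℤ) → η i p = 0 := by
    intro i p hp hne
    have : Fact p.Prime := ⟨hpr p hp⟩
    have h2 := C.v2 p i
    rw [(hβ p hp).1] at h2
    have h3 := h2 hne
    have h4 := hη i p hp
    simp only [e, g] at h4
    rw [h3, sub_self] at h4
    exact_mod_cast h4
  -- e (i+1) in terms of η, δ
  have hrel : ∀ i, ∀ p ∈ S, e (i + 1) p = (β p : ℤ) + η (i + 1) p - 2 * η i p - 2 * δ i p := by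
    intro i p hp
    have : Fact p.Prime := ⟨hpr p hp⟩
    have hv1 := C.v1 p i
    have hv2 := C.v2 p i
    have hv3 := C.v3 p i
    rw [(hβ p hp).1] at hv2 hv3
    have hpos : (0:ℤ) < (β p : ℤ) := by exact_mod_cast (hβ p hp).2
    obtain ⟨c1, c2⟩ := typeB_neg hpos hv1 hv2 hv3 (hB p hp i) (hB p hp (i + 1))
    have h4 := hη i p hp
    have h4' := hη (i + 1) p hp
    by_cases hg : g i p = (β p : ℤ)
    · have h5 : δ i p = β p := by simp only [δ]; rw [if_pos hg]
      have h6 := c1 hg
      have h7 := hη0 (i + 1) p hp (by simp only [g]; omega)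
      rw [h5]
      simp only [e, g] at h4 h4' hg ⊢
      rw [min_eq_right (by omega)] at h4'
      rw [hg, min_self] at h4
      rw [h7] at h4' ⊢
      push_cast at h4' ⊢
      omega
    · have h5 : δ i p = 0 := by simp only [δ]; rw [if_neg hg]
      have h6 := c2 hg
      have h7 := hη0 i p hp hg
      rw [h5, h7]
      simp only [e, g] at h4' ⊢
      rw [min_eq_left h6] at h4'
      push_cast
      omega
  -- the potential inequality summed
  have hsum : ∀ p ∈ S, ∑ i ∈ Finset.range n, (η i p + 2 * δ i p) ≤ n * β p := by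
    intro p hp
    have : Fact p.Prime := ⟨hpr p hp⟩
    let φ : ℕ → ℤ := fun i => max ((β p : ℤ) - g i p) (g i p - (β p : ℤ))
    have h1 : ∀ i, 2 * ((η i p : ℤ) + 2 * (δ i p : ℤ)) ≤ 2 * (β p : ℤ) + (φ (i + 1) - φ i) := by
      intro i
      have hv1 := C.v1 p i
      have hv2 := C.v2 p i
      have hv3 := C.v3 p i
      rw [(hβ p hp).1] at hv2 hv3
      have hpos : (0:ℤ) < (β p : ℤ) := by exact_mod_cast (hβ p hp).2
      have hpot := pot hpos hv1 hv2 hv3
      have h4 := hη i p hp
      have h5 : (4 * (δ i p : ℤ)) = (if padicValRat p (u i) = (β p : ℤ) then 4 * (β p : ℤ) else 0) := by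
        simp only [δ, g]
        split_ifs <;> simp
      rw [← h5] at hpot
      simp only [φ, g, e] at h4 ⊢
      linarith
    have h2 : ∑ i ∈ Finset.range n, (2 * ((η i p : ℤ) + 2 * (δ i p : ℤ))) ≤
        ∑ i ∈ Finset.range n, (2 * (β p : ℤ) + (φ (i + 1) - φ i)) :=
      Finset.sum_le_sum (fun i _ => h1 i)
    rw [Finset.sum_add_distrib, Finset.sum_range_sub, ← Finset.mul_sum] at h2
    have h3 : φ n = φ 0 := by
      simp only [φ, g]
      have := C.hper 0
      rw [Nat.zero_add] at this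
      rw [this]
    rw [h3, sub_self, add_zero, Finset.sum_const, Finset.card_range, nsmul_eq_mul] at h2
    have h4 : ((∑ i ∈ Finset.range n, (η i p + 2 * δ i p) : ℕ) : ℤ) ≤ ((n * β p : ℕ) : ℤ) := by
      push_cast
      linarith
    exact_mod_cast h4
  have hfac : ∏ p ∈ S, p ^ (β p) = N := prod_fac hN0
  let E : ℕ → ℕ := fun i => ∏ p ∈ S, p ^ η i p
  let W : ℕ → ℕ := fun i => ∏ p ∈ S, p ^ δ i p
  have hE1 : ∀ i, 1 ≤ E i := fun i => Nat.one_le_iff_ne_zero.mpr
    (Finset.prod_ne_zero_iff.mpr (fun p hp => pow_ne_zero _ (hpr p hp).ne_zero))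
  have hW1 : ∀ i, 1 ≤ W i := fun i => Nat.one_le_iff_ne_zero.mpr
    (Finset.prod_ne_zero_iff.mpr (fun p hp => pow_ne_zero _ (hpr p hp).ne_zero))
  -- valuations of such products
  have hvprod : ∀ (f : ℕ → ℕ) (l : ℕ), l.Prime →
      padicValRat l ((∏ p ∈ S, p ^ f p : ℕ) : ℚ) = if l ∈ S then (f l : ℤ) else 0 := by
    intro f l hl
    have : Fact l.Prime := ⟨hl⟩
    rw [padicValRat.of_nat]
    have hne : (∏ p ∈ S, p ^ f p) ≠ 0 :=
      Finset.prod_ne_zero_iff.mpr (fun p hp => pow_ne_zero _ (hpr p hp).ne_zero)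
    rw [← Nat.factorization_def _ hl, Nat.factorization_prod (fun p hp =>
      pow_ne_zero _ (hpr p hp).ne_zero), Finsupp.finset_sum_apply]
    have h1 : ∀ p ∈ S, (p ^ f p).factorization l = if p = l then f p else 0 := by
      intro p hp
      rw [Nat.Prime.factorization_pow (hpr p hp), Finsupp.single_apply]
    rw [Finset.sum_congr rfl h1, Finset.sum_ite_eq']
    split_ifs <;> simp
  refine ⟨E, W, C, hnt1, hE1, hW1, ?_, ?_, ?_, ?_, ?_, ?_, ?_, ?_, ?_, ?_, ?_, ?_⟩
  · -- WN
    intro i
    change W i ≤ N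
    rw [← hfac]
    apply Finset.prod_le_prod'
    intro p hp
    apply Nat.pow_le_pow_right (hpr p hp).pos
    simp only [δ]
    split_ifs <;> omega
  · intro i
    simp only [E, η, e, g]
    rw [C.hper, C.sper]
  · intro i
    have h1 : ∀ p, g (i + n) p = g i p := by
      intro p
      simp only [g]
      rw [C.hper]
    have h2 : ∀ p, δ (i + n) p = δ i p := by
      intro p
      simp only [δ, h1]
    simp only [W, h2]
  · -- rel
    intro i
    have hEq : (E i : ℚ) ≠ 0 := by have := hE1 i; positivity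
    have hWq : (W i : ℚ) ≠ 0 := by have := hW1 i; positivity
    have hEq' : (E (i + 1) : ℚ) ≠ 0 := by have := hE1 (i + 1); positivity
    have hNq : (N : ℚ) ≠ 0 := by exact_mod_cast hN0
    have hsa : |s (i + 1)| ≠ 0 := abs_ne_zero.mpr (C.s0 _)
    have key : |(|s (i + 1)| * ((E i : ℚ) * (W i : ℚ)) ^ 2) / ((N : ℚ) * (E (i + 1) : ℚ))| = 1 := by
      apply one_of_val (div_ne_zero (mul_ne_zero hsa (pow_ne_zero _ (mul_ne_zero hEq hWq)))
        (mul_ne_zero hNq hEq'))
      intro l hl
      have : Fact l.Prime := ⟨hl⟩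
      rw [padicValRat.div (mul_ne_zero hsa (pow_ne_zero _ (mul_ne_zero hEq hWq)))
        (mul_ne_zero hNq hEq'), padicValRat.mul hsa (pow_ne_zero _ (mul_ne_zero hEq hWq)),
        padicValRat.pow, padicValRat.mul hEq hWq, padicValRat.mul hNq hEq', val_abs]
      have w1 := hvprod (η i) l hl
      have w2 := hvprod (δ i) l hl
      have w3 := hvprod (η (i + 1)) l hl
      have w4 := hvprod β l hl
      rw [hfac] at w4
      simp only [E, W]
      rw [w1, w2, w3, w4]
      by_cases hlS : l ∈ S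
      · simp only [if_pos hlS]
        have := hrel i l hlS
        simp only [e] at this
        rw [this]
        push_cast
        ring
      · simp only [if_neg hlS]
        rw [(C.v_unit l (hoS l hl hlS) (i + 1)).1]
        norm_num
    rw [abs_of_nonneg (by positivity)] at key
    exact (div_eq_one_iff_eq (mul_ne_zero hNq hEq')).mp key
  · -- num
    intro i ρ hρ hh
    have h1 : N * E i = ∏ p ∈ S, p ^ (β p + η i p) := by
      rw [← hfac]
      simp only [E]
      rw [← Finset.prod_mul_distrib]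
      apply Finset.prod_congr rfl
      intro p _
      rw [pow_add]
    rw [h1]
    apply num_le hρ S hpr
    · intro p hp
      have h3 := (hh p (hpr p hp)).1
      have h4 := hη i p hp
      rw [(hβ p hp).1] at h3
      simp only [e, g] at h4
      push_cast
      rw [h4]
      linarith
    · intro p hp hpS
      exact (hh p hp).2 (hoS p hp hpS)
  · -- den
    intro i
    have hs0 := C.s0 (i + 1)
    have h1 : W i * E i ^ 2 = ∏ p ∈ S, p ^ (δ i p + 2 * η i p) := by
      simp only [E, W]
      rw [← Finset.prod_pow, ← Finset.prod_mul_distrib]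
      apply Finset.prod_congr rfl
      intro p _
      rw [pow_add, mul_comm 2, pow_mul]
    have h2 : (s (i + 1)).den = ((s (i + 1))⁻¹).num.natAbs := by
      rw [Rat.num_inv]
      rw [Int.natAbs_mul, Int.natAbs_sign_of_ne_zero (by simpa using hs0), one_mul]
      simp
    rw [h2, h1]
    apply num_le (inv_ne_zero hs0) S hpr
    · intro p hp
      have : Fact p.Prime := ⟨hpr p hp⟩
      rw [padicValRat.inv]
      have h5 := hrel i p hp
      simp only [e] at h5
      rw [h5]
      push_cast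
      by_cases hg : g i p = (β p : ℤ)
      · have h6 : δ i p = β p := by simp only [δ]; rw [if_pos hg]
        rw [h6]
        have : (0:ℤ) ≤ η (i + 1) p := by positivity
        linarith
      · have h7 := hη0 i p hp hg
        have h6 : δ i p = 0 := by simp only [δ]; rw [if_neg hg]
        rw [h6, h7]
        have : (0:ℤ) ≤ η (i + 1) p := by positivity
        have : (0:ℤ) ≤ β p := by positivity
        push_cast
        linarith
    · intro p hp hpS
      have : Fact p.Prime := ⟨hp⟩
      rw [padicValRat.inv, (C.v_unit p (hoS p hp hpS) (i + 1)).1]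
      simp
  · -- prod
    calc (∏ i ∈ Finset.range n, E i) * (∏ i ∈ Finset.range n, W i) ^ 2
        = ∏ i ∈ Finset.range n, ∏ p ∈ S, p ^ (η i p + 2 * δ i p) := by
          rw [← Finset.prod_pow, ← Finset.prod_mul_distrib]
          apply Finset.prod_congr rfl
          intro i _
          simp only [E, W]
          rw [← Finset.prod_pow, ← Finset.prod_mul_distrib]
          apply Finset.prod_congr rfl
          intro p _
          rw [pow_add, mul_comm 2, pow_mul]
      _ = ∏ p ∈ S, ∏ i ∈ Finset.range n, p ^ (η i p + 2 * δ i p) := Finset.prod_comm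
      _ = ∏ p ∈ S, p ^ (∑ i ∈ Finset.range n, (η i p + 2 * δ i p)) :=
          Finset.prod_congr rfl (fun p _ => Finset.prod_pow_eq_pow_sum _ _ _)
      _ ≤ ∏ p ∈ S, p ^ (n * β p) := by
          apply Finset.prod_le_prod'
          intro p hp
          exact Nat.pow_le_pow_right (hpr p hp).pos (hsum p hp)
      _ = ∏ p ∈ S, (p ^ β p) ^ n := by
          apply Finset.prod_congr rfl
          intro p _
          rw [← pow_mul, mul_comm]
      _ = N ^ n := by
          rw [Finset.prod_pow, hfac]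
  · -- EW
    intro i hW
    apply Finset.prod_eq_one
    intro p hp
    have h1 : p ^ δ i p = 1 := by
      have h2 : p ^ (δ i p) ≤ W i := by
        apply Finset.single_le_prod' (f := fun p => p ^ (δ i p)) _ hp
        intro q hq'
        exact Nat.one_le_pow _ _ (hpr q hq').pos
      rw [hW] at h2
      have := Nat.one_le_pow (δ i p) p (hpr p hp).pos
      omega
    have h3 : g i p ≠ (β p : ℤ) := by
      intro hg
      have h6 : δ i p = β p := by simp only [δ]; rw [if_pos hg]
      rw [h6] at h1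
      have h7 : 2 ≤ p ^ β p := le_trans (hpr p hp).two_le (Nat.le_self_pow (hβ p hp).2.ne' p)
      omega
    rw [hη0 i p hp h3, pow_zero]
  · -- hit
    intro p hp hd
    have hpS : p ∈ S := Nat.mem_primeFactors.mpr ⟨hp, hd, hN0⟩
    have : Fact p.Prime := ⟨hp⟩
    by_contra hcon
    push Not at hcon
    have hne : ∀ i, g i p ≠ (β p : ℤ) := by
      intro i hg
      have h6 : δ i p = β p := by simp only [δ]; rw [if_pos hg]
      have h2 : p ^ (δ i p) ≤ W i := by
        apply Finset.single_le_prod' (f := fun p => p ^ (δ i p)) _ hpS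
        intro q hq'
        exact Nat.one_le_pow _ _ (hpr q hq').pos
      rw [h6] at h2
      have h3 : W i < p ^ padicValNat p N := hcon i
      simp only [β] at h2
      omega
    have hpos : (0:ℤ) < (β p : ℤ) := by exact_mod_cast (hβ p hpS).2
    have hge : ∀ i, (β p : ℤ) ≤ g (i + 1) p := by
      intro i
      have hv1 := C.v1 p i
      have hv2 := C.v2 p i
      have hv3 := C.v3 p i
      rw [(hβ p hpS).1] at hv2 hv3
      exact (typeB_neg hpos hv1 hv2 hv3 (hB p hpS i) (hB p hpS (i + 1))).2 (hne i)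
    apply per_lt (fun i => - g i p) C.hn (fun i => by simp only [g]; rw [C.hper]) 1
    intro i hi
    obtain ⟨j, rfl⟩ : ∃ j, i = j + 1 := ⟨i - 1, by omega⟩
    have h1 := hge j
    have h2 := hne (j + 1)
    have hv1 := C.v1 p (j + 1)
    have hv2 := C.v2 p (j + 1)
    rw [(hβ p hpS).1] at hv2
    simp only [g] at h1 h2 ⊢
    have h3 := hv2 h2
    rw [min_eq_left h1] at h3
    omega
  · -- minW
    intro i m hm hWne
    have hex : ∃ p ∈ S, g i p = (β p : ℤ) := by
      by_contra hc
      push Not at hc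
      apply hWne
      apply Finset.prod_eq_one
      intro p hp
      have h5 : δ i p = 0 := by simp only [δ]; rw [if_neg (hc p hp)]
      rw [h5, pow_zero]
    obtain ⟨p, hp, hg⟩ := hex
    have h6 : δ i p = β p := by simp only [δ]; rw [if_pos hg]
    have h2 : p ^ (δ i p) ≤ W i := by
      apply Finset.single_le_prod' (f := fun p => p ^ (δ i p)) _ hp
      intro q hq'
      exact Nat.one_le_pow _ _ (hpr q hq').pos
    rw [h6] at h2
    exact le_trans (hm p (hpr p hp) (Nat.dvd_of_mem_primeFactors hp)) h2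
  · -- big
    intro i
    have hEq : (E i : ℚ) ≠ 0 := by have := hE1 i; positivity
    have hWq : ∀ j, (W j : ℚ) ≠ 0 := by intro j; have := hW1 j; positivity
    have hNq : (N : ℚ) ≠ 0 := by exact_mod_cast hN0
    have hub : u (i + 1) / b ≠ 0 := div_ne_zero (C.u0 _) C.hb
    have hub' : |u (i + 1) / b| ≠ 0 := abs_ne_zero.mpr hub
    set ρ : ℚ := |u (i + 1) / b| * (((E i : ℚ) * (W i : ℚ)) ^ 2 *
      ((W (i + 1) : ℚ) ^ 4 * (W i : ℚ) ^ 4 * (W (i + 2) : ℚ) ^ 2)) / (N : ℚ) ^ 4 with hρ
    have hM0 : (((E i : ℚ) * (W i : ℚ)) ^ 2 *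
      ((W (i + 1) : ℚ) ^ 4 * (W i : ℚ) ^ 4 * (W (i + 2) : ℚ) ^ 2)) ≠ 0 := by
      have := hWq i
      have := hWq (i + 1)
      have := hWq (i + 2)
      positivity
    have hval : ∀ l, l.Prime → 0 ≤ padicValRat l ρ := by
      intro l hl
      have : Fact l.Prime := ⟨hl⟩
      rw [hρ, padicValRat.div (mul_ne_zero hub' hM0) (pow_ne_zero _ hNq),
        padicValRat.mul hub' hM0, val_abs, padicValRat.div (C.u0 _) C.hb,
        padicValRat.mul (pow_ne_zero _ (mul_ne_zero hEq (hWq i)))
          (mul_ne_zero (mul_ne_zero (pow_ne_zero _ (hWq _)) (pow_ne_zero _ (hWq _)))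
            (pow_ne_zero _ (hWq _))),
        padicValRat.pow, padicValRat.mul hEq (hWq i),
        padicValRat.mul (mul_ne_zero (pow_ne_zero _ (hWq _)) (pow_ne_zero _ (hWq _)))
            (pow_ne_zero _ (hWq _)),
        padicValRat.mul (pow_ne_zero _ (hWq _)) (pow_ne_zero _ (hWq _)),
        padicValRat.pow, padicValRat.pow, padicValRat.pow, padicValRat.pow]
      have w1 := hvprod (η i) l hl
      have w2 := hvprod (δ i) l hl
      have w3 := hvprod (δ (i + 1)) l hl
      have w4 := hvprod (δ (i + 2)) l hl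
      have w5 := hvprod β l hl
      rw [hfac] at w5
      simp only [E, W]
      rw [w1, w2, w3, w4, w5]
      by_cases hlS : l ∈ S
      · simp only [if_pos hlS]
        rw [(hβ l hlS).1]
        have hpos : (0:ℤ) < (β l : ℤ) := by exact_mod_cast (hβ l hlS).2
        have hT : ∀ j, (g j l = (β l : ℤ) → g (j + 1) l = - (β l : ℤ) - 2 * η j l) ∧
            (g j l ≠ (β l : ℤ) → (β l : ℤ) ≤ g (j + 1) l) ∧
            ((β l : ℤ) < g j l → g (j + 1) l = g j l - 2 * β l) := by
          intro j
          have hv1 := C.v1 l j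
          have hv2 := C.v2 l j
          have hv3 := C.v3 l j
          rw [(hβ l hlS).1] at hv2 hv3
          obtain ⟨c1, c2⟩ := typeB_neg hpos hv1 hv2 hv3 (hB l hlS j) (hB l hlS (j + 1))
          have h4 := hη j l hlS
          simp only [e, g] at h4 ⊢
          refine ⟨?_, c2, ?_⟩
          · intro hg
            rw [hg, min_self] at h4
            omega
          · intro hg
            have h5 := hv2 (by omega)
            rw [min_eq_left hg.le] at h5
            omega
        have hd0 : (δ i l : ℤ) = if g i l = (β l : ℤ) then (β l : ℤ) else 0 := by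
          simp only [δ]; split_ifs <;> simp
        have hd1 : (δ (i + 1) l : ℤ) = if g (i + 1) l = (β l : ℤ) then (β l : ℤ) else 0 := by
          simp only [δ]; split_ifs <;> simp
        have hd2 : (δ (i + 2) l : ℤ) = if g (i + 2) l = (β l : ℤ) then (β l : ℤ) else 0 := by
          simp only [δ]; split_ifs <;> simp
        have t0 := hT i
        have t1 := hT (i + 1)
        have t2 := hT (i + 2)
        rw [show i + 1 + 1 = i + 2 by ring] at t1
        rw [show i + 2 + 1 = i + 3 by ring] at t2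
        have hη' : (0:ℤ) ≤ η i l := by positivity
        rw [hd0, hd1, hd2]
        simp only [g] at t0 t1 t2 ⊢
        obtain ⟨t01, t02, t03⟩ := t0
        obtain ⟨t11, t12, t13⟩ := t1
        obtain ⟨t21, t22, t23⟩ := t2
        push_cast
        split_ifs with k0 k1 k2 k2 k1 k2 k2 <;> omega
      · simp only [if_neg hlS]
        have := (C.v_unit l (hoS l hl hlS) (i + 1)).2
        push_cast
        omega
    have hden := den_one_of_val hval
    have hρpos : 0 < ρ := by
      rw [hρ]
      have h1 := hWq i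
      have h2 := hWq (i + 1)
      have h3 := hWq (i + 2)
      positivity
    have hρ1 : 1 ≤ ρ := by
      have h1 : ρ = ρ.num := by
        conv_lhs => rw [← Rat.num_div_den ρ, hden]
        simp
      have h2 : 0 < ρ.num := Rat.num_pos.mpr hρpos
      rw [h1]
      exact_mod_cast h2
    have hN4 : (0:ℚ) < (N : ℚ) ^ 4 := by positivity
    rw [hρ, le_div_iff₀ hN4, one_mul] at hρ1
    exact hρ1
  · -- supp
    intro i l hl hd
    have hone : ∀ f : ℕ → ℕ, l ∣ ∏ p ∈ S, p ^ f p → l ∣ N := by
      intro f hf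
      obtain ⟨p, hp, hlp⟩ := (Prime.dvd_finset_prod_iff hl.prime _).mp hf
      have h1 : l ∣ p := hl.dvd_of_dvd_pow hlp
      exact dvd_trans h1 (Nat.dvd_of_mem_primeFactors hp)
    rcases (Nat.Prime.dvd_mul hl).mp hd with h1 | h1
    · exact hone _ h1
    · exact hone _ h1

end Pool.Agent.Helper905.Manes
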