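import Mathlib
import Pool.Agent.Helper905.Manes.Size2

namespace Pool.Agent.Helper905.Manes

theorem bD_eq {b : ℚ} (hb : 0 < b) : b * (b.den : ℚ) = (b.num.natAbs : ℚ) := by
  have h1 : b * b.den = b.num := Rat.mul_den_eq_num b
  have h2 : ((b.num.natAbs : ℕ) : ℚ) = b.num := by
    rw [Nat.cast_natAbs, abs_of_pos (Rat.num_pos.mpr hb)]
  rw [h2]; exact h1

theorem upper_abs {b : ℚ} {u s : ℕ → ℚ} {n : ℕ} (C : Cyc b u s n) (hb : 1 < b)
    (hnt : ∀ i, (s i) ^ 2 ≠ 1) (i : ℕ) : (b - 1) * |s i| < b := by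
  have hu := C.u_neg hb.le
  have h1 := C.s_lt_one hu hnt i
  have h2 := C.s_gt hu hnt i
  rcases abs_cases (s i) with ⟨h, _⟩ | ⟨h, _⟩
  · rw [h]; nlinarith
  · rw [h]; nlinarith

theorem W_ne_one {b : ℚ} {u s : ℕ → ℚ} {n : ℕ} {E W : ℕ → ℕ} (h : Data b u s n E W)
    (hb : 1 < b) (i : ℕ) : W i ≠ 1 := by
  intro hW
  have hE := h.EW i hW
  have hr := h.rel i
  rw [hW, hE] at hr
  have hup := upper_abs h.cyc hb h.hnt (i + 1)
  have hE1 : (1:ℚ) ≤ E (i + 1) := by exact_mod_cast h.E1 (i + 1)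
  have hbD := bD_eq (show 0 < b by linarith)
  have hD1 : (1:ℚ) ≤ b.den := by exact_mod_cast b.den_pos
  have hND : b.den < b.num.natAbs := by
    have : (b.den : ℚ) < (b.num.natAbs : ℚ) := by rw [← hbD]; nlinarith
    exact_mod_cast this
  have hND' : (b.den : ℚ) + 1 ≤ (b.num.natAbs : ℚ) := by exact_mod_cast hND
  set N : ℚ := (b.num.natAbs : ℚ) with hN
  set D : ℚ := (b.den : ℚ) with hD
  have hs : N ≤ |s (i + 1)| := by
    have e : |s (i + 1)| = N * (E (i + 1) : ℚ) := by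
      rw [← hr]; norm_num
    rw [e]; nlinarith
  have h1 : (b - 1) * N < b := lt_of_le_of_lt (mul_le_mul_of_nonneg_left hs (by linarith)) hup
  -- multiply by D
  have h2 : (b * D - D) * N < b * D := by nlinarith
  rw [hbD] at h2
  nlinarith

theorem exists_max {n : ℕ} (hn : 0 < n) (E : ℕ → ℕ) (hper : ∀ i, E (i + n) = E i) :
    ∃ k, ∀ j, E j ≤ E k := by
  obtain ⟨k, hk, hmax⟩ := Finset.exists_max_image (Finset.range n) E
    ⟨0, Finset.mem_range.mpr hn⟩
  refine ⟨k, fun j => ?_⟩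
  have h1 := per_mul E hper (j / n) (j % n)
  rw [Nat.mod_add_div] at h1
  rw [h1]
  exact hmax _ (Finset.mem_range.mpr (Nat.mod_lt _ hn))

/-- one large prime power in the numerator -/
theorem crit_large {b : ℚ} {u s : ℕ → ℚ} {n : ℕ} {E W : ℕ → ℕ} (h : Data b u s n E W)
    (hb : 6 ≤ b) {m q : ℕ} (hm : ∀ i, m ≤ W i) (hm0 : 0 < m) (hq : ∃ i, q ≤ W i)
    (hmq : (b.den : ℚ) ^ 2 * b ^ 4 ≤ (m : ℚ) * q * (b - 1) ^ 4) : False := by
  have C := h.cyc
  have hbD := bD_eq (show 0 < b by linarith)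
  have hD1 : (1:ℚ) ≤ b.den := by exact_mod_cast b.den_pos
  have hlow : ∀ i, (b - 1) ^ 3 ≤ b * ((b.num.natAbs : ℚ) * (E i : ℚ)) := by
    intro i
    obtain ⟨ρ, hρ0, hρ1, hρ2, hρ3⟩ := rho_exists C hb h.hnt i
    have h1 := num_ge hb hρ0 hρ1 hρ2
    have h2 := h.num i ρ hρ0.ne' hρ3
    have h3 : (ρ.num.natAbs : ℚ) ≤ (b.num.natAbs : ℚ) * (E i : ℚ) := by exact_mod_cast h2
    nlinarith
  obtain ⟨k, hk⟩ := exists_max C.hn E h.perE
  have hab := fun i => abs_bounds C hb h.hnt i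
  set N : ℚ := (b.num.natAbs : ℚ) with hN
  set D : ℚ := (b.den : ℚ) with hD
  have hNpos : 0 < N := by
    rw [← hbD]; nlinarith
  have hmq' : (0:ℚ) < m := by exact_mod_cast hm0
  have hEk : (1:ℚ) ≤ E k := by exact_mod_cast h.E1 k
  -- (4)
  have h4 : (b - 1) * m ^ 2 * E k ≤ b * N := by
    have hr := h.rel k
    have h1 := (hab (k + 1)).1
    have h2 : (E (k + 1) : ℚ) ≤ E k := by exact_mod_cast hk (k + 1)
    have h3 : (m : ℚ) ≤ W k := by exact_mod_cast hm k
    have h5 : (m:ℚ) ^ 2 ≤ (W k : ℚ) ^ 2 := by nlinarith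
    have h6 : (b - 1) * ((E k : ℚ) * (W k : ℚ)) ^ 2 ≤ b * (N * E k) := by
      have : (b - 1) * ((E k : ℚ) * (W k : ℚ)) ^ 2 ≤
          b * |s (k + 1)| * ((E k : ℚ) * (W k : ℚ)) ^ 2 :=
        mul_le_mul_of_nonneg_right h1.le (sq_nonneg _)
      have e : b * |s (k + 1)| * ((E k : ℚ) * (W k : ℚ)) ^ 2 = b * (N * E (k + 1)) := by
        rw [← hr]; ring
      rw [e] at this
      have : b * (N * (E (k + 1) : ℚ)) ≤ b * (N * E k) := by
        apply mul_le_mul_of_nonneg_left _ (by linarith)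
        exact mul_le_mul_of_nonneg_left h2 hNpos.le
      linarith
    have h7 : (b - 1) * m ^ 2 * E k * E k ≤ b * N * E k := by
      have : (b - 1) * (m:ℚ) ^ 2 * E k * E k ≤ (b - 1) * ((E k : ℚ) * (W k : ℚ)) ^ 2 := by
        have e : (b - 1) * ((E k : ℚ) * (W k : ℚ)) ^ 2 = (b - 1) * (W k : ℚ) ^ 2 * E k * E k := by
          ring
        rw [e]
        have hb1 : 0 ≤ b - 1 := by linarith
        have := mul_le_mul_of_nonneg_left h5 hb1
        have := mul_le_mul_of_nonneg_right this (by linarith : (0:ℚ) ≤ E k)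
        exact mul_le_mul_of_nonneg_right this (by linarith : (0:ℚ) ≤ E k)
      linarith
    exact le_of_mul_le_mul_right h7 (by linarith)
  obtain ⟨i, hi⟩ := hq
  have hWi : (q : ℚ) ≤ W i := by exact_mod_cast hi
  have hEi : (1:ℚ) ≤ E i := by exact_mod_cast h.E1 i
  have hWi1 : (1:ℚ) ≤ W i := by exact_mod_cast h.W1 i
  -- (5)
  have h5 : (b - 1) * ((E i : ℚ) * (W i : ℚ)) ^ 2 < b * (N * E k) := by
    have hr := h.rel i
    have h1 := (hab (i + 1)).1
    have h2 : (E (i + 1) : ℚ) ≤ E k := by exact_mod_cast hk (i + 1)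
    have h3 : (b - 1) * ((E i : ℚ) * (W i : ℚ)) ^ 2 <
        b * |s (i + 1)| * ((E i : ℚ) * (W i : ℚ)) ^ 2 :=
      mul_lt_mul_of_pos_right h1 (by positivity)
    have e : b * |s (i + 1)| * ((E i : ℚ) * (W i : ℚ)) ^ 2 = b * (N * E (i + 1)) := by
      rw [← hr]; ring
    rw [e] at h3
    have : b * (N * (E (i + 1) : ℚ)) ≤ b * (N * E k) := by
      apply mul_le_mul_of_nonneg_left _ (by linarith)
      exact mul_le_mul_of_nonneg_left h2 hNpos.le
    linarith
  set x : ℚ := (b - 1) * m * (E i * W i) with hx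
  have hxpos : 0 < x := by
    rw [hx]
    have : 0 < b - 1 := by linarith
    positivity
  have h6 : x ^ 2 < (b * N) ^ 2 := by
    have e1 : x ^ 2 = ((b - 1) * m ^ 2) * ((b - 1) * ((E i : ℚ) * (W i : ℚ)) ^ 2) := by
      rw [hx]; ring
    rw [e1]
    have hpos : 0 < (b - 1) * (m:ℚ) ^ 2 := by
      have : 0 < b - 1 := by linarith
      positivity
    have h7 := mul_lt_mul_of_pos_left h5 hpos
    have h8 : ((b - 1) * (m:ℚ) ^ 2) * (b * (N * E k)) = (b * N) * ((b - 1) * m ^ 2 * E k) := by ring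
    rw [h8] at h7
    have h9 : (b * N) * ((b - 1) * m ^ 2 * E k) ≤ (b * N) * (b * N) :=
      mul_le_mul_of_nonneg_left h4 (by positivity)
    nlinarith
  have h7 : x < b * N := by
    have : 0 < b * N := by positivity
    exact lt_of_pow_lt_pow_left₀ 2 this.le h6
  -- (6)
  have h8 := hlow i
  have hb1 : 0 < b - 1 := by linarith
  have h9 : (b - 1) ^ 3 * ((b - 1) * m * W i) ≤ b * (N * E i) * ((b - 1) * m * W i) :=
    mul_le_mul_of_nonneg_right h8 (by positivity)
  have h10 : b * (N * E i) * ((b - 1) * m * W i) = (b * N) * x := by rw [hx]; ring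
  rw [h10] at h9
  have h11 : (b * N) * x < (b * N) * (b * N) := mul_lt_mul_of_pos_left h7 (by positivity)
  have h12 : (b * N) * (b * N) = D ^ 2 * b ^ 4 := by rw [← hbD]; ring
  have h13 : (m : ℚ) * q * (b - 1) ^ 4 ≤ (b - 1) ^ 3 * ((b - 1) * m * W i) := by
    have e : (b - 1) ^ 3 * ((b - 1) * m * W i) = (m : ℚ) * W i * (b - 1) ^ 4 := by ring
    rw [e]
    apply mul_le_mul_of_nonneg_right _ (by positivity)
    exact mul_le_mul_of_nonneg_left hWi hmq'.le
  linarith

theorem val_neg_of_dvd_den {q : ℚ} {p : ℕ} (hp : p.Prime) (hd : p ∣ q.den) :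
    padicValRat p q < 0 := by
  have : Fact p.Prime := ⟨hp⟩
  have h3 : ¬ p ∣ q.num.natAbs := by
    intro h2
    have h4 : p ∣ 1 := by
      rw [← q.reduced]; exact Nat.dvd_gcd h2 hd
    exact hp.one_lt.ne' (Nat.dvd_one.mp h4)
  rw [padicValRat, padicValInt, padicValNat.eq_zero_of_not_dvd h3]
  have h5 : 1 ≤ padicValNat p q.den := one_le_padicValNat_of_dvd q.den_ne_zero hd
  omega

theorem den_dvd {b : ℚ} {u s : ℕ → ℚ} {n : ℕ} (C : Cyc b u s n) (i : ℕ) :
    (b.den : ℤ) ∣ (s i).num ^ 2 - ((s i).den : ℤ) ^ 2 := by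
  have ht := C.t_eq i
  set x := (s i).num with hx
  set y := (s i).den with hy
  set x' := (s (i + 1)).num with hx'
  set y' := (s (i + 1)).den with hy'
  have hyq : (y : ℚ) ≠ 0 := by exact_mod_cast (s i).den_ne_zero
  have hyq' : (y' : ℚ) ≠ 0 := by exact_mod_cast (s (i + 1)).den_ne_zero
  have hDq : (b.den : ℚ) ≠ 0 := by exact_mod_cast b.den_ne_zero
  have e1 : s i * y = x := Rat.mul_den_eq_num (s i)
  have e2 : s (i + 1) * y' = x' := Rat.mul_den_eq_num (s (i + 1))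
  have e3 : b * b.den = b.num := Rat.mul_den_eq_num b
  have key : (b.num : ℚ) * (((x : ℚ) ^ 2 - (y : ℚ) ^ 2) * y') =
      (b.den : ℚ) * (x * (x * x' - y * y')) := by
    rw [← e1, ← e2, ← e3]
    linear_combination (b.den : ℚ) * (y : ℚ) ^ 2 * y' * ht
  have keyZ : b.num * ((x ^ 2 - (y : ℤ) ^ 2) * (y' : ℤ)) = (b.den : ℤ) * (x * (x * x' - y * y')) := by
    exact_mod_cast key
  have c1 : IsCoprime (b.den : ℤ) b.num := by
    rw [Int.isCoprime_iff_gcd_eq_one]
    have := b.reduced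
    rw [Nat.Coprime, Nat.gcd_comm] at this
    rw [Int.gcd]
    simpa using this
  have c2 : IsCoprime (b.den : ℤ) (y' : ℤ) := by
    rw [Nat.isCoprime_iff_coprime]
    apply Nat.coprime_of_dvd
    intro l hl hd1 hd2
    have : Fact l.Prime := ⟨hl⟩
    have h1 : padicValRat l b ≤ 0 := (val_neg_of_dvd_den hl hd1).le
    have h2 := (C.v_unit l h1 (i + 1)).1
    have h3 := val_neg_of_dvd_den hl hd2
    omega
  have d1 : (b.den : ℤ) ∣ b.num * ((x ^ 2 - (y : ℤ) ^ 2) * (y' : ℤ)) := ⟨_, keyZ⟩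
  have d2 := c1.dvd_of_dvd_mul_left d1
  exact c2.dvd_of_dvd_mul_right d2

/-- large denominator -/
theorem crit_den {b : ℚ} {u s : ℕ → ℚ} {n : ℕ} {E W : ℕ → ℕ} (h : Data b u s n E W)
    (hD : b.num.natAbs ^ 6 ≤ b.den) : False := by
  have C := h.cyc
  set N := b.num.natAbs with hN
  have hN0 : N ≠ 0 := by rw [hN]; simpa using C.hb
  have hN1 : 1 ≤ N := Nat.pos_of_ne_zero hN0
  have hor : ∀ i, N ^ 2 < E (i + 1) ∨ N < E i := by
    intro i
    have hdvd := den_dvd C (i + 1)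
    have hne : (s (i + 1)).num ^ 2 - ((s (i + 1)).den : ℤ) ^ 2 ≠ 0 := by
      intro h0
      apply h.hnt (i + 1)
      have h1 : (s (i + 1)).num ^ 2 = ((s (i + 1)).den : ℤ) ^ 2 := by linarith
      have h2 : ((s (i + 1)).num : ℚ) ^ 2 = ((s (i + 1)).den : ℚ) ^ 2 := by exact_mod_cast h1
      have h3 : ((s (i + 1)).den : ℚ) ≠ 0 := by exact_mod_cast (s (i + 1)).den_ne_zero
      have h4 : s (i + 1) = (s (i + 1)).num / (s (i + 1)).den := (Rat.num_div_den _).symm
      rw [h4, div_pow, h2, div_self (pow_ne_zero _ h3)]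
    have hle := Int.le_of_dvd (abs_pos.mpr hne) ((dvd_abs _ _).mpr hdvd)
    have hx : (s (i + 1)).num.natAbs ≤ N * E (i + 1) := by
      apply h.num (i + 1) (s (i + 1)) (C.s0 _)
      intro p hp
      have : Fact p.Prime := ⟨hp⟩
      constructor
      · have := min_le_left (padicValRat p b) (padicValRat p (u (i + 1)))
        linarith
      · intro hβ
        rw [(C.v_unit p hβ (i + 1)).1]
    have hy : (s (i + 1)).den ≤ W i * E i ^ 2 := h.den i
    have hnum0 : (s (i + 1)).num ≠ 0 := by simpa using C.s0 (i + 1)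
    have hden0 : 0 < (s (i + 1)).den := (s (i + 1)).den_pos
    have hsq : (s (i + 1)).num ^ 2 = (((s (i + 1)).num.natAbs : ℕ) : ℤ) ^ 2 := by
      rw [Int.natCast_natAbs, sq_abs]
    rw [hsq] at hle
    have hn1 : 0 < (s (i + 1)).num.natAbs := Int.natAbs_pos.mpr hnum0
    set X := (s (i + 1)).num.natAbs with hX
    set Y := (s (i + 1)).den with hY
    have hcase : b.den < X ^ 2 ∨ b.den < Y ^ 2 := by
      rcases abs_cases (((X : ℕ) : ℤ) ^ 2 - ((Y : ℕ) : ℤ) ^ 2) with ⟨h1, _⟩ | ⟨h1, _⟩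
      · left
        rw [h1] at hle
        have : (0:ℤ) < ((Y : ℕ) : ℤ) ^ 2 := by positivity
        have : (b.den : ℤ) < ((X : ℕ) : ℤ) ^ 2 := by linarith
        exact_mod_cast this
      · right
        rw [h1] at hle
        have : (0:ℤ) < ((X : ℕ) : ℤ) ^ 2 := by positivity
        have : (b.den : ℤ) < ((Y : ℕ) : ℤ) ^ 2 := by linarith
        exact_mod_cast this
    rcases hcase with hc | hc
    · left
      have h1 : (N ^ 3) ^ 2 < (N * E (i + 1)) ^ 2 := by
        calc (N ^ 3) ^ 2 = N ^ 6 := by ring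
          _ ≤ b.den := hD
          _ < X ^ 2 := hc
          _ ≤ (N * E (i + 1)) ^ 2 := Nat.pow_le_pow_left hx 2
      have h2 : N ^ 3 < N * E (i + 1) := lt_of_pow_lt_pow_left₀ 2 (Nat.zero_le _) h1
      have h3 : N * N ^ 2 < N * E (i + 1) := by
        calc N * N ^ 2 = N ^ 3 := by ring
          _ < _ := h2
      exact lt_of_mul_lt_mul_left h3 (Nat.zero_le _)
    · right
      have h1 : (N ^ 3) ^ 2 < (N * E i ^ 2) ^ 2 := by
        calc (N ^ 3) ^ 2 = N ^ 6 := by ring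
          _ ≤ b.den := hD
          _ < Y ^ 2 := hc
          _ ≤ (N * E i ^ 2) ^ 2 := Nat.pow_le_pow_left
              (le_trans hy (Nat.mul_le_mul_right _ (h.WN i))) 2
      have h2 : N ^ 3 < N * E i ^ 2 := lt_of_pow_lt_pow_left₀ 2 (Nat.zero_le _) h1
      have h3 : N * N ^ 2 < N * E i ^ 2 := by
        calc N * N ^ 2 = N ^ 3 := by ring
          _ < _ := h2
      have h4 : N ^ 2 < E i ^ 2 := lt_of_mul_lt_mul_left h3 (Nat.zero_le _)
      exact lt_of_pow_lt_pow_left₀ 2 (Nat.zero_le _) h4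
  let f : ℕ → ℕ := fun i => if N ^ 2 < E i then 1 else 0
  let g : ℕ → ℕ := fun i => if N < E i then 1 else 0
  have hNN : N ≤ N ^ 2 := by nlinarith
  have hfg : ∀ i, N ^ (f i + g i) ≤ E i := by
    intro i
    simp only [f, g]
    by_cases h1 : N ^ 2 < E i
    · rw [if_pos h1, if_pos (lt_of_le_of_lt hNN h1)]
      exact h1.le
    · rw [if_neg h1]
      by_cases h2 : N < E i
      · rw [if_pos h2]; simp; exact h2.le
      · rw [if_neg h2]; simpa using h.E1 i
  have hshift : ∑ i ∈ Finset.range n, f (i + 1) = ∑ i ∈ Finset.range n, f i := by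
    have h1 := Finset.sum_range_succ f n
    have h2 := Finset.sum_range_succ' f n
    have h3 : f n = f 0 := by
      simp only [f]
      have := h.perE 0
      rw [Nat.zero_add] at this
      rw [this]
    omega
  have hcount : n ≤ ∑ i ∈ Finset.range n, (f i + g i) := by
    rw [Finset.sum_add_distrib, ← hshift, ← Finset.sum_add_distrib]
    calc n = ∑ i ∈ Finset.range n, 1 := by simp
      _ ≤ ∑ i ∈ Finset.range n, (f (i + 1) + g i) := by
          apply Finset.sum_le_sum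
          intro i _
          simp only [f, g]
          rcases hor i with h1 | h1
          · rw [if_pos h1]; omega
          · rw [if_pos h1]; omega
  have hE : N ^ n ≤ ∏ i ∈ Finset.range n, E i := by
    calc N ^ n ≤ N ^ (∑ i ∈ Finset.range n, (f i + g i)) := Nat.pow_le_pow_right hN1 hcount
      _ = ∏ i ∈ Finset.range n, N ^ (f i + g i) := (Finset.prod_pow_eq_pow_sum _ _ _).symm
      _ ≤ ∏ i ∈ Finset.range n, E i := Finset.prod_le_prod' (fun i _ => hfg i)
  have hprod : (∏ i ∈ Finset.range n, E i) * (∏ i ∈ Finset.range n, W i) ^ 2 ≤ N ^ n := h.prod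
  have hW1 : ∏ i ∈ Finset.range n, W i = 1 := by
    have h1 : 1 ≤ ∏ i ∈ Finset.range n, W i := Finset.one_le_prod' (fun i _ => h.W1 i)
    by_contra hne
    have h2 : 2 ≤ ∏ i ∈ Finset.range n, W i := by omega
    have h3 : 4 ≤ (∏ i ∈ Finset.range n, W i) ^ 2 := by nlinarith
    have h4 : 0 < N ^ n := Nat.pow_pos hN1
    have h5 := Nat.mul_le_mul hE h3
    omega
  have hWi : ∀ i ∈ Finset.range n, W i = 1 := by
    intro i hi
    have h1 : W i ≤ ∏ i ∈ Finset.range n, W i :=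
      Finset.single_le_prod' (f := W) (fun j _ => h.W1 j) hi
    have := h.W1 i
    omega
  have hEi : ∀ i, E i = 1 := by
    intro i
    have h1 := per_mul E h.perE (i / n) (i % n)
    rw [Nat.mod_add_div] at h1
    rw [h1]
    exact h.EW _ (hWi _ (Finset.mem_range.mpr (Nat.mod_lt _ C.hn)))
  rcases hor 0 with h1 | h1
  · rw [hEi] at h1; nlinarith
  · rw [hEi] at h1; omega

end Pool.Agent.Helper905.Manes
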