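import Mathlib
import Pool.Agent.Helper905.Manes.TypeAC

namespace Pool.Agent.Helper905.Manes

/-- transfer of a cycle to `ℤ_p`, second form -/
theorem transfer' {b : ℚ} {u s : ℕ → ℚ} {n : ℕ} (C : Cyc b u s n) (p : ℕ) [Fact p.Prime]
    (hb : padicValRat p b = 0) :
    ∃ (B B' : ℤ_[p]) (U I : ℕ → ℤ_[p]), B * B' = 1 ∧ (∀ i, (B + U i) * I i = 1) ∧
      (∀ i, U (i + 1) = U i * (I i) ^ 2) ∧ (∀ i, U (i + n) = U i) ∧
      (∀ i, ((U i : ℤ_[p]) : ℚ_[p]) = ((u i : ℚ) : ℚ_[p])) ∧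
      (∀ i, ((B + U i : ℤ_[p]) : ℚ_[p]) = ((s i : ℚ) : ℚ_[p])) := by
  have hun := fun i => C.v_unit p hb.le i
  have hB := norm_le_of_val (p := p) C.hb hb.ge
  have hB' : ‖((b⁻¹ : ℚ) : ℚ_[p])‖ ≤ 1 :=
    norm_le_of_val (inv_ne_zero C.hb) (by rw [padicValRat.inv, hb]; simp)
  have hU : ∀ i, ‖((u i : ℚ) : ℚ_[p])‖ ≤ 1 := fun i =>
    norm_le_of_val (C.u0 i) (by rw [← hb]; exact (hun i).2)
  have hI : ∀ i, ‖(((s i)⁻¹ : ℚ) : ℚ_[p])‖ ≤ 1 := fun i =>
    norm_le_of_val (inv_ne_zero (C.s0 i)) (by rw [padicValRat.inv, (hun i).1]; simp)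
  have key : ∀ i, (((toZ p b + toZ p (u i) : ℤ_[p])) : ℚ_[p]) = ((s i : ℚ) : ℚ_[p]) := by
    intro i
    rw [PadicInt.coe_add, coe_toZ hB, coe_toZ (hU i), C.hs i]
    push_cast
    ring
  refine ⟨toZ p b, toZ p b⁻¹, fun i => toZ p (u i), fun i => toZ p (s i)⁻¹, ?_, ?_, ?_, ?_,
    ?_, ?_⟩
  · apply Subtype.ext
    rw [PadicInt.coe_mul, coe_toZ hB, coe_toZ hB', ← Rat.cast_mul, mul_inv_cancel₀ C.hb]
    simp
  · intro i
    apply Subtype.ext
    rw [PadicInt.coe_mul, key i, coe_toZ (hI i), ← Rat.cast_mul, mul_inv_cancel₀ (C.s0 i)]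
    simp
  · intro i
    apply Subtype.ext
    rw [PadicInt.coe_mul, PadicInt.coe_pow, coe_toZ (hU (i + 1)), coe_toZ (hU i),
      coe_toZ (hI i), ← Rat.cast_pow, ← Rat.cast_mul, C.hu i]
    congr 1
    rw [inv_pow, div_eq_mul_inv]
  · intro i
    simp only [C.hper i]
  · intro i
    exact coe_toZ (hU i)
  · exact key

/-- stepping by `m` -/
theorem tor_step {R : Type*} [CommRing R] [IsDomain R] {p : ℕ} (hp : p.Prime) (hodd : p ≠ 2)
    (φ : R →+* ZMod (p ^ 2)) (B : R) (U I : ℕ → R)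
    (hS : ∀ i, (B + U i) * I i = 1) (hU : ∀ i, U (i + 1) = U i * I i ^ 2)
    {m : ℕ} (hmod : ∀ i, φ (U (i + m)) = φ (U i))
    (hlam : (p : ZMod (p ^ 2)) * ∏ t ∈ Finset.range m,
      ((φ B ^ 2 - φ (U t) * φ (U t)) * (φ (I t) * φ (I t)) ^ 2) = (p : ZMod (p ^ 2)))
    {n : ℕ} (hn : 0 < n) (hper : U (n * m) = U 0) : U m = U 0 := by
  have hS' : ∀ i, (φ B + φ (U i)) * φ (I i) = 1 := by
    intro i
    have := congrArg φ (hS i)
    rw [map_mul, map_add, map_one] at this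
    exact this
  have hImod : ∀ i, φ (I (i + m)) = φ (I i) := by
    intro i
    have a := hS' i
    have c := hS' (i + m)
    rw [hmod i] at c
    linear_combination (- φ (I (i + m))) * a + φ (I i) * c
  have hUm : ∀ k t, φ (U (k * m + t)) = φ (U t) := by
    intro k t
    induction k with
    | zero => simp
    | succ k ih =>
      rw [Nat.succ_mul, Nat.add_right_comm, hmod, ih]
  have hIm : ∀ k t, φ (I (k * m + t)) = φ (I t) := by
    intro k t
    induction k with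
    | zero => simp
    | succ k ih =>
      rw [Nat.succ_mul, Nat.add_right_comm, hImod, ih]
  have hd := diff_prod U (fun i j => (B ^ 2 - U i * U j) * (I i * I j) ^ 2) (diff_id B U I hS hU)
  have hV : ∀ i j, U ((i + 1) * m) - U ((j + 1) * m) =
      (U (i * m) - U (j * m)) * ∏ t ∈ Finset.range m,
        ((B ^ 2 - U (i * m + t) * U (j * m + t)) * (I (i * m + t) * I (j * m + t)) ^ 2) := by
    intro i j
    have := hd (i * m) (j * m) m
    rw [Nat.add_mul, Nat.add_mul, Nat.one_mul]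
    exact this
  have := torp hp hodd φ (fun k => U (k * m)) _ hV
    (∏ t ∈ Finset.range m,
      ((φ B ^ 2 - φ (U t) * φ (U t)) * (φ (I t) * φ (I t)) ^ 2)) hlam (by
      intro i j
      rw [map_prod]
      apply Finset.prod_congr rfl
      intro t _
      rw [map_mul, map_sub, map_pow, map_mul, map_pow, map_mul, hUm, hUm, hIm, hIm]) hn
      (by simpa using hper)
  simpa using this

theorem u_const {b : ℚ} {u s : ℕ → ℚ} {n : ℕ} (C : Cyc b u s n) {k m : ℕ}
    (h : u (k + m) = u k) : ∀ i, u (i + m) = u i := by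
  have hdet : ∀ i j, u i = u j → u (i + 1) = u (j + 1) := by
    intro i j hij
    rw [C.hu, C.hu, C.hs i, C.hs j, hij]
  have h1 : ∀ j, u (k + j + m) = u (k + j) := by
    intro j
    induction j with
    | zero => exact h
    | succ j ih =>
      have := hdet _ _ ih
      rw [← Nat.add_assoc]
      rw [show k + j + 1 + m = k + j + m + 1 by ring]
      exact this
  intro i
  have h6 := per_mul u C.hper k i
  have h6' := per_mul u C.hper k (i + m)
  have hn := C.hn
  have h7 : k ≤ i + n * k := by nlinarith [Nat.mul_le_mul_right k hn]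
  obtain ⟨j, hj⟩ := Nat.exists_eq_add_of_le h7
  rw [← h6, ← h6', hj, show i + m + n * k = k + j + m by omega]
  exact h1 j

theorem sq_prod_four {b : ℚ} {u s : ℕ → ℚ} {n : ℕ} (C : Cyc b u s n)
    (h : ∀ i, u (i + 4) = u i) (i : ℕ) :
    (s i * s (i + 1) * (s (i + 2) * s (i + 3))) ^ 2 = 1 := by
  have h0 := C.hu i
  have h1 := C.hu (i + 1)
  have h2 := C.hu (i + 2)
  have h3 := C.hu (i + 3)
  have h4 := h i
  rw [show i + 1 + 1 = i + 2 by ring] at h1
  rw [show i + 2 + 1 = i + 3 by ring] at h2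
  rw [show i + 3 + 1 = i + 4 by ring] at h3
  rw [h3, h2, h1, h0] at h4
  have a0 := C.s0 i
  have a1 := C.s0 (i + 1)
  have a2 := C.s0 (i + 2)
  have a3 := C.s0 (i + 3)
  have d := C.u0 i
  field_simp at h4
  linear_combination - h4

theorem four_of_abs {b : ℚ} {u s : ℕ → ℚ} {n : ℕ} (C : Cyc b u s n)
    (h : ∀ i, |s i * s (i + 1)| = 1) (i : ℕ) :
    s i * s (i + 1) * (s (i + 2) * s (i + 3)) = 1 := by
  rcases of_t C h with h1 | h1
  · have hu : ∀ i, u (i + 1) = u i := by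
      intro i
      rw [C.hu, h1 i, div_one]
    have hs : ∀ i, s (i + 1) = s i := by
      intro i
      rw [C.hs, C.hs, hu]
    rw [hs (i + 2), hs (i + 1), hs i]
    have := h1 i
    linear_combination (s i ^ 2 + 1) * this
  · rw [h1 i, h1 (i + 2)]; norm_num

end Pool.Agent.Helper905.Manes
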