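import Mathlib
import Pool.Agent.Helper905.Manes.Five

namespace Pool.Agent.Helper905.Manes

theorem dvd_of_toZMod {p : ℕ} [Fact p.Prime] {x : ℤ_[p]} (h : PadicInt.toZMod x = 0) :
    (p : ℤ_[p]) ∣ x := by
  have h1 : x ∈ RingHom.ker (PadicInt.toZMod : ℤ_[p] →+* ZMod p) := h
  rw [PadicInt.ker_toZMod, PadicInt.maximalIdeal_eq_span_p, Ideal.mem_span_singleton] at h1
  exact h1

theorem p_mul_of_toZMod {p : ℕ} [Fact p.Prime] {x : ℤ_[p]} (h : PadicInt.toZMod x = 1) :
    (p : ZMod (p ^ 2)) * (PadicInt.toZModPow 2 : ℤ_[p] →+* ZMod (p ^ 2)) x = (p : ZMod (p ^ 2)) := by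
  have h1 : (p : ℤ_[p]) ∣ x - 1 := dvd_of_toZMod (by rw [map_sub, h, map_one, sub_self])
  obtain ⟨y, hy⟩ := h1
  have h2 : x = 1 + p * y := by rw [← hy]; ring
  rw [h2, map_add, map_mul, map_natCast, map_one]
  have := psq (p := p)
  linear_combination ((PadicInt.toZModPow 2 : ℤ_[p] →+* ZMod (p ^ 2)) y) * this

theorem toZModPow_eq_of_dvd {p : ℕ} [Fact p.Prime] {x y a c : ℤ_[p]}
    (ha : (p : ℤ_[p]) ∣ a) (hc : (p : ℤ_[p]) ∣ c) (h : x - y = a * c) :
    (PadicInt.toZModPow 2 : ℤ_[p] →+* ZMod (p ^ 2)) x =
      (PadicInt.toZModPow 2 : ℤ_[p] →+* ZMod (p ^ 2)) y := by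
  obtain ⟨a', rfl⟩ := ha
  obtain ⟨c', rfl⟩ := hc
  rw [← sub_eq_zero, ← map_sub, h, map_mul, map_mul, map_mul, map_natCast]
  have := psq (p := p)
  linear_combination ((PadicInt.toZModPow 2 : ℤ_[p] →+* ZMod (p ^ 2)) a') *
    ((PadicInt.toZModPow 2 : ℤ_[p] →+* ZMod (p ^ 2)) c') * this

instance fact_prime_five : Fact (Nat.Prime 5) := ⟨by norm_num⟩

theorem five_one {b : ℚ} {u s : ℕ → ℚ} {n : ℕ} (C : Cyc b u s n)
    (B : ℤ_[5]) (U I : ℕ → ℤ_[5]) (h2 : ∀ i, (B + U i) * I i = 1)
    (h3 : ∀ i, U (i + 1) = U i * (I i) ^ 2) (h4 : ∀ i, U (i + n) = U i)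
    (h5 : ∀ i, ((U i : ℤ_[5]) : ℚ_[5]) = ((u i : ℚ) : ℚ_[5]))
    (h6 : ∀ i, ((B + U i : ℤ_[5]) : ℚ_[5]) = ((s i : ℚ) : ℚ_[5]))
    (hη : ∀ i, PadicInt.toZMod (B + U i) = 1) :
    ∀ i, s i * s (i + 1) * (s (i + 2) * s (i + 3)) = 1 := by
  have hI : ∀ i, PadicInt.toZMod (I i) = 1 := by
    intro i
    have := congrArg (PadicInt.toZMod : ℤ_[5] →+* ZMod 5) (h2 i)
    rw [map_mul, hη i, one_mul, map_one] at this
    exact this
  by_cases hB : PadicInt.toZMod (2 * B - 1) = 0
  · -- attracting
    have hfix : B + U 0 - 1 = 0 := by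
      apply attr (PadicInt.toZMod : ℤ_[5] →+* ZMod 5) 1 (by rw [map_one]; exact one_ne_zero)
        (fun i => B + U i - 1)
        (fun i => ((B - 1) * (B + U i) + B) * (I i) ^ 2) _ _ C.hn
        (by
          have := h4 0
          rw [Nat.zero_add] at this
          simp only [this])
      · intro i
        have := h2 i
        rw [h3 i]
        linear_combination (- B * ((B + U i) * I i + 1) + ((B + U i) * I i + 1) * 1) * this
      · intro i
        rw [one_mul, map_mul, map_pow, hI i, map_add, map_mul, hη i, one_pow, mul_one, mul_one,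
          ← map_add]
        rw [← hB]
        congr 1
        ring
    have h7 := h6 0
    have h8 : B + U 0 = 1 := by linear_combination hfix
    rw [h8, PadicInt.coe_one] at h7
    have h9 : s 0 = 1 := by exact_mod_cast h7.symm
    have h10 := C.all_of_one 0 (by rw [h9]; norm_num)
    apply four_of_abs C
    intro i
    have a1 := h10 i
    have a2 := h10 (i + 1)
    have h3 : |s i * s (i + 1)| ^ 2 = 1 := by rw [sq_abs, mul_pow, a1, a2]; norm_num
    have h4 : (0:ℚ) ≤ |s i * s (i + 1)| := abs_nonneg _
    nlinarith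
  · -- torsion
    have hF : ∀ i, PadicInt.toZMod (((B - 1) * (B + U i) + B) * (I i) ^ 2) =
        PadicInt.toZMod (2 * B - 1) := by
      intro i
      rw [map_mul, map_pow, hI i, map_add, map_mul, hη i, one_pow, mul_one, mul_one, ← map_add]
      congr 1
      ring
    have hY : ∀ i, B + U (i + 1) - 1 = (B + U i - 1) * (((B - 1) * (B + U i) + B) * (I i) ^ 2) := by
      intro i
      have := h2 i
      rw [h3 i]
      linear_combination (- B * ((B + U i) * I i + 1) + ((B + U i) * I i + 1) * 1) * this
    have hmod : ∀ i, (PadicInt.toZModPow 2 : ℤ_[5] →+* ZMod (5 ^ 2)) (U (i + 4)) =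
        (PadicInt.toZModPow 2 : ℤ_[5] →+* ZMod (5 ^ 2)) (U i) := by
      intro i
      set F : ℕ → ℤ_[5] := fun i => ((B - 1) * (B + U i) + B) * (I i) ^ 2 with hFdef
      have e1 := hY i
      have e2 := hY (i + 1)
      have e3 := hY (i + 2)
      have e4 := hY (i + 3)
      rw [show i + 1 + 1 = i + 2 by ring] at e2
      rw [show i + 2 + 1 = i + 3 by ring] at e3
      rw [show i + 3 + 1 = i + 4 by ring] at e4
      apply toZModPow_eq_of_dvd (a := B + U i - 1)
        (c := F i * F (i + 1) * F (i + 2) * F (i + 3) - 1)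
      · exact dvd_of_toZMod (by rw [map_sub, hη i, map_one, sub_self])
      · apply dvd_of_toZMod
        rw [map_sub, map_mul, map_mul, map_mul, map_one]
        simp only [hFdef]
        rw [hF, hF, hF, hF]
        have hdec : ∀ x : ZMod 5, x ≠ 0 → x * x * x * x - 1 = 0 := by decide
        exact hdec _ hB
      · have f1 : U (i + 4) - U i = (B + U (i + 4) - 1) - (B + U i - 1) := by ring
        rw [f1, e4, e3, e2, e1]
        simp only [hFdef]
        rw [show i + 1 + 0 = i + 1 by ring]
        ring
    have hper4 : U (n * 4) = U 0 := by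
      have := per_mul U h4 4 0
      rw [Nat.zero_add] at this
      exact this
    have key := tor_step (p := 5) (by norm_num) (by norm_num)
      (PadicInt.toZModPow 2 : ℤ_[5] →+* ZMod (5 ^ 2)) B U I h2 h3 hmod (by
        have h7 : PadicInt.toZMod (∏ t ∈ Finset.range 4,
            ((B ^ 2 - U t * U t) * (I t * I t) ^ 2)) = 1 := by
          rw [map_prod]
          have h8 : ∀ t ∈ Finset.range 4, PadicInt.toZMod ((B ^ 2 - U t * U t) * (I t * I t) ^ 2) =
              PadicInt.toZMod (2 * B - 1) := by
            intro t _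
            rw [map_mul, map_pow, map_mul, hI t, map_sub, map_pow, map_mul]
            have h9 := hη t
            rw [map_add] at h9
            rw [map_sub, map_mul, map_one]
            have h10 : (PadicInt.toZMod (2 : ℤ_[5])) = 2 := map_ofNat _ 2
            rw [h10]
            linear_combination (PadicInt.toZMod B - PadicInt.toZMod (U t) - 1) * h9
          rw [Finset.prod_congr rfl h8, Finset.prod_const, Finset.card_range]
          have hdec : ∀ x : ZMod 5, x ≠ 0 → x ^ 4 = 1 := by decide
          exact hdec _ hB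
        have h8 := p_mul_of_toZMod h7
        rw [map_prod] at h8
        simp only [map_mul, map_sub, map_pow] at h8
        exact h8) C.hn hper4
    have h7 : u 4 = u 0 := by
      have a := h5 4
      have c := h5 0
      rw [key, c] at a
      exact_mod_cast a.symm
    have h8 := u_const C (k := 0) (m := 4) (by rw [Nat.zero_add]; exact h7)
    intro i
    have h9 := sq_prod_four C h8 i
    have h9' : (s i * s (i + 1) * (s (i + 2) * s (i + 3)) - 1) *
        (s i * s (i + 1) * (s (i + 2) * s (i + 3)) + 1) = 0 := by linear_combination h9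
    rcases mul_eq_zero.mp h9' with h10 | h10
    · linarith
    · exfalso
      have h10 : s i * s (i + 1) * (s (i + 2) * s (i + 3)) = -1 := by linarith
      have h11 : ((B + U i) * (B + U (i + 1)) * ((B + U (i + 2)) * (B + U (i + 3))) : ℤ_[5]) = -1 := by
        apply Subtype.ext
        rw [PadicInt.coe_mul, PadicInt.coe_mul, PadicInt.coe_mul, h6, h6, h6, h6,
          PadicInt.coe_neg, PadicInt.coe_one]
        exact_mod_cast h10
      have h12 := congrArg (PadicInt.toZMod : ℤ_[5] →+* ZMod 5) h11
      rw [map_mul, map_mul, map_mul, hη, hη, hη, hη, map_neg, map_one] at h12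
      revert h12
      decide

theorem case_five {b : ℚ} {u s : ℕ → ℚ} {n : ℕ} (C : Cyc b u s n)
    (hb : padicValRat 5 b = 0) :
    ∀ i, s i * s (i + 1) * (s (i + 2) * s (i + 3)) = 1 := by
  obtain ⟨B, B', U, I, h1, h2, h3, h4, h5, h6⟩ := transfer' C 5 hb
  have a1 := congrArg (PadicInt.toZMod : ℤ_[5] →+* ZMod 5) h1
  rw [map_mul, map_one] at a1
  have a2 : ∀ i, (PadicInt.toZMod B + PadicInt.toZMod (U i)) * PadicInt.toZMod (I i) = 1 := by
    intro i
    have := congrArg (PadicInt.toZMod : ℤ_[5] →+* ZMod 5) (h2 i)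
    rw [map_mul, map_add, map_one] at this
    exact this
  have a3 : ∀ i, PadicInt.toZMod (U (i + 1)) =
      PadicInt.toZMod (U i) * PadicInt.toZMod (I i) ^ 2 := by
    intro i
    rw [h3 i, map_mul, map_pow]
  by_cases h0 : PadicInt.toZMod (U 0) = 0
  · -- near identity, step two
    have hz : ∀ i, PadicInt.toZMod (U i) = 0 := by
      intro i
      induction i with
      | zero => exact h0
      | succ i ih => rw [a3 i, ih, zero_mul]
    have hII : ∀ i, PadicInt.toZMod (I i) ^ 4 = 1 := by
      intro i
      have c := a2 i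
      rw [hz i, add_zero] at c
      have hdec : ∀ x y : ZMod 5, x * y = 1 → y ^ 4 = 1 := by decide
      exact hdec _ _ c
    have hmod : ∀ i, (PadicInt.toZModPow 2 : ℤ_[5] →+* ZMod (5 ^ 2)) (U (i + 2)) =
        (PadicInt.toZModPow 2 : ℤ_[5] →+* ZMod (5 ^ 2)) (U i) := by
      intro i
      apply toZModPow_eq_of_dvd (a := U i) (c := (I i * I (i + 1)) ^ 2 - 1)
      · exact dvd_of_toZMod (hz i)
      · apply dvd_of_toZMod
        rw [map_sub, map_pow, map_mul, map_one]
        have c := a2 i
        have d := a2 (i + 1)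
        rw [hz i, add_zero] at c
        rw [hz (i + 1), add_zero] at d
        have hdec : ∀ x y z : ZMod 5, x * y = 1 → x * z = 1 → (y * z) ^ 2 - 1 = 0 := by decide
        exact hdec _ _ _ c d
      · rw [show i + 2 = i + 1 + 1 by ring, h3 (i + 1), h3 i]; ring
    have hper2 : U (n * 2) = U 0 := by
      have := per_mul U h4 2 0
      rw [Nat.zero_add] at this
      exact this
    have key := tor_step (p := 5) (by norm_num) (by norm_num)
      (PadicInt.toZModPow 2 : ℤ_[5] →+* ZMod (5 ^ 2)) B U I h2 h3 hmod (by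
        have h7 : PadicInt.toZMod (∏ t ∈ Finset.range 2,
            ((B ^ 2 - U t * U t) * (I t * I t) ^ 2)) = 1 := by
          rw [map_prod]
          have h8 : ∀ t ∈ Finset.range 2, PadicInt.toZMod ((B ^ 2 - U t * U t) * (I t * I t) ^ 2) =
              PadicInt.toZMod B ^ 2 := by
            intro t _
            rw [map_mul, map_pow, map_mul, map_sub, map_pow, map_mul, hz t]
            have := hII t
            linear_combination (PadicInt.toZMod B) ^ 2 * this
          rw [Finset.prod_congr rfl h8, Finset.prod_const, Finset.card_range]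
          have hdec : ∀ x y : ZMod 5, x * y = 1 → (x ^ 2) ^ 2 = 1 := by decide
          exact hdec _ _ a1
        have h8 := p_mul_of_toZMod h7
        rw [map_prod] at h8
        simp only [map_mul, map_sub, map_pow] at h8
        exact h8) C.hn hper2
    have h7 : u 2 = u 0 := by
      have a := h5 2
      have c := h5 0
      rw [key, c] at a
      exact_mod_cast a.symm
    exact four_of_abs C (of_two C 0 (by rw [Nat.zero_add]; exact h7))
  · -- unit class
    have hne : ∀ i, PadicInt.toZMod (U i) ≠ 0 := by
      intro i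
      induction i with
      | zero => exact h0
      | succ i ih =>
        rw [a3 i]
        have c := a2 i
        have hdec : ∀ x u i : ZMod 5, (x + u) * i = 1 → u ≠ 0 → u * i ^ 2 ≠ 0 := by decide
        exact hdec _ _ _ c ih
    have hstep : ∀ i, PadicInt.toZMod B + PadicInt.toZMod (U (i + 1)) = 1 ∨
        PadicInt.toZMod B + PadicInt.toZMod (U (i + 1)) = -1 := by
      intro i
      have c := a2 i
      have d := a2 (i + 1)
      rw [a3 i] at d ⊢
      have hdec : ∀ x y u i j : ZMod 5, x * y = 1 → (x + u) * i = 1 →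
          (x + u * i ^ 2) * j = 1 → u ≠ 0 → x + u * i ^ 2 = 1 ∨ x + u * i ^ 2 = -1 := by decide
      exact hdec _ _ _ _ _ a1 c d (hne i)
    have hconst : ∀ i, PadicInt.toZMod (U (i + 2)) = PadicInt.toZMod (U (i + 1)) := by
      intro i
      rw [show i + 2 = i + 1 + 1 by ring, a3 (i + 1)]
      have d := a2 (i + 1)
      rcases hstep i with h | h
      · rw [h, one_mul] at d
        rw [d]; ring
      · rw [h] at d
        have : PadicInt.toZMod (I (i + 1)) ^ 2 = 1 := by
          linear_combination (- PadicInt.toZMod (I (i + 1)) + 1) * d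
        rw [this, mul_one]
    have hc1 : ∀ i, PadicInt.toZMod (U (i + 1)) = PadicInt.toZMod (U 1) := by
      intro i
      induction i with
      | zero => rfl
      | succ i ih => rw [hconst i, ih]
    have hc : ∀ i, PadicInt.toZMod (U i) = PadicInt.toZMod (U 1) := by
      intro i
      rcases Nat.eq_zero_or_pos i with h | h
      · subst h
        have e := h4 0
        rw [Nat.zero_add] at e
        rw [← e]
        obtain ⟨k, hk⟩ : ∃ k, n = k + 1 := ⟨n - 1, by have := C.hn; omega⟩
        rw [hk]; exact hc1 k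
      · obtain ⟨k, rfl⟩ : ∃ k, i = k + 1 := ⟨i - 1, by omega⟩
        exact hc1 k
    rcases hstep 0 with h | h
    · apply five_one C B U I h2 h3 h4 h5 h6
      intro i
      rw [map_add, hc i]
      exact h
    · have hN := five_one C.neg (-B) (fun i => - U i) (fun i => - I i)
        (by intro i; have := h2 i; linear_combination this)
        (by intro i; simp only [h3 i]; ring)
        (by intro i; simp only [h4 i])
        (by intro i; rw [PadicInt.coe_neg, h5 i]; push_cast; ring)
        (by
          intro i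
          have : -B + -U i = -(B + U i) := by ring
          rw [this, PadicInt.coe_neg, h6 i]; push_cast; ring)
        (by
          intro i
          have : -B + -U i = -(B + U i) := by ring
          rw [this, map_neg, map_add, hc i]
          rw [Nat.zero_add] at h
          rw [h, neg_neg])
      intro i
      have := hN i
      linear_combination this

end Pool.Agent.Helper905.Manes
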