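import Mathlib
import Pool.Agent.Helper905.Manes.Num

namespace Pool.Agent.Helper905.Manes

theorem odd_of_val {x : ℚ} (h0 : x ≠ 0) (h : padicValRat 2 x = 0) :
    ¬ (2:ℤ) ∣ x.num ∧ ¬ (2:ℤ) ∣ (x.den : ℤ) := by
  have h1 : ¬ 2 ∣ x.num.natAbs := by
    intro hd
    have := val_pos_of_dvd Nat.prime_two h0 hd
    omega
  constructor
  · intro hd
    exact h1 (Int.natAbs_dvd_natAbs.mpr hd)
  · intro hd
    have hd' : 2 ∣ x.den := by exact_mod_cast hd
    have h4 : padicValRat 2 x = - (padicValNat 2 x.den : ℤ) := by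
      rw [padicValRat, padicValInt, padicValNat.eq_zero_of_not_dvd h1]
      simp
    have h5 : 1 ≤ padicValNat 2 x.den := one_le_padicValNat_of_dvd x.den_ne_zero hd'
    omega

theorem odd_sub {x y : ℚ} (hx0 : x ≠ 0) (hy0 : y ≠ 0) (hx : padicValRat 2 x = 0)
    (hy : padicValRat 2 y = 0) (hne : x ≠ y) : 1 ≤ padicValRat 2 (x - y) := by
  obtain ⟨a1, a2⟩ := odd_of_val hx0 hx
  obtain ⟨a3, a4⟩ := odd_of_val hy0 hy
  set z : ℤ := x.num * y.den - y.num * x.den with hz
  have hxd : (x.den : ℚ) ≠ 0 := by exact_mod_cast x.den_ne_zero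
  have hyd : (y.den : ℚ) ≠ 0 := by exact_mod_cast y.den_ne_zero
  have e0 : (x - y) * ((x.den : ℚ) * (y.den : ℚ)) = (z : ℚ) := by
    have e1 : x * x.den = x.num := Rat.mul_den_eq_num x
    have e2 : y * y.den = y.num := Rat.mul_den_eq_num y
    rw [hz]
    push_cast
    rw [← e1, ← e2]
    ring
  have hz0 : z ≠ 0 := by
    intro h
    rw [h, Int.cast_zero] at e0
    rcases mul_eq_zero.mp e0 with h1 | h1
    · exact hne (sub_eq_zero.mp h1)
    · exact (mul_ne_zero hxd hyd) h1
  have hze : (2:ℤ) ∣ z := by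
    have b1 : x.num % 2 = 1 := by omega
    have b2 : (x.den : ℤ) % 2 = 1 := by omega
    have b3 : y.num % 2 = 1 := by omega
    have b4 : (y.den : ℤ) % 2 = 1 := by omega
    rw [hz]
    apply Int.dvd_of_emod_eq_zero
    rw [Int.sub_emod, Int.mul_emod x.num, b1, b4, Int.mul_emod y.num, b3, b2]
    norm_num
  have h1 : padicValRat 2 ((x - y) * ((x.den : ℚ) * (y.den : ℚ))) =
      padicValRat 2 (x - y) := by
    rw [padicValRat.mul (sub_ne_zero.mpr hne) (mul_ne_zero hxd hyd), padicValRat.mul hxd hyd]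
    have c1 : padicValRat 2 (x.den : ℚ) = 0 := by
      rw [padicValRat.of_nat, padicValNat.eq_zero_of_not_dvd]
      · rfl
      · intro h; exact a2 (by exact_mod_cast h)
    have c2 : padicValRat 2 (y.den : ℚ) = 0 := by
      rw [padicValRat.of_nat, padicValNat.eq_zero_of_not_dvd]
      · rfl
      · intro h; exact a4 (by exact_mod_cast h)
    rw [c1, c2]; ring
  rw [← h1, e0, padicValRat.of_int, padicValInt]
  have : 1 ≤ padicValNat 2 z.natAbs :=
    one_le_padicValNat_of_dvd (Int.natAbs_ne_zero.mpr hz0)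
      (by have := Int.natAbs_dvd_natAbs.mpr hze; simpa using this)
  exact_mod_cast this

theorem val_two : padicValRat 2 (2:ℚ) = 1 := by
  have := padicValRat.self (p := 2) (by norm_num)
  exact_mod_cast this

theorem half_aux {b : ℚ} {u s : ℕ → ℚ} {n : ℕ} (C : Cyc b u s n)
    (hb : padicValRat 2 b = -1) (hnt : ∀ i, (s i) ^ 2 ≠ 1)
    (h : 2 ≤ padicValRat 2 (s 0 - 1)) : False := by
  have hne1 : ∀ i, s i ≠ 1 := fun i h => hnt i (by rw [h]; norm_num)
  have hne2 : ∀ i, s i ≠ -1 := fun i h => hnt i (by rw [h]; norm_num)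
  have hstep : ∀ i, 2 ≤ padicValRat 2 (s i - 1) →
      padicValRat 2 (s i - 1) + 1 ≤ padicValRat 2 (s (i + 1) - 1) := by
    intro i hi
    have hun := (C.v_unit 2 (by omega) i).1
    have h0 := C.s0 i
    have e1 : s i - 1 ≠ 0 := sub_ne_zero.mpr (hne1 i)
    have e1' : s (i + 1) - 1 ≠ 0 := sub_ne_zero.mpr (hne1 (i + 1))
    have e2 : s i + 1 ≠ 0 := fun h => hne2 i (by linarith)
    have e3 : padicValRat 2 (s i + 1) = 1 := by
      have : s i + 1 = (s i - 1) + 2 := by ring
      rw [this]
      rw [padicValRat.add_eq_min (by rw [← this]; exact e2) e1 (by norm_num)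
        (by rw [val_two]; omega), val_two]
      omega
    have e4 : padicValRat 2 (b * (s i + 1)) = 0 := by
      rw [padicValRat.mul C.hb e2, e3, hb]; norm_num
    have hsub := C.sub_one i
    have e5 : (b - 1) * s i + b = b * (s i + 1) - s i := by ring
    rw [e5] at hsub
    have e6 : b * (s i + 1) - s i ≠ 0 := by
      intro h
      rw [h, mul_zero] at hsub
      rcases mul_eq_zero.mp hsub with h1 | h1
      · exact e1' h1
      · exact h0 (pow_eq_zero_iff (two_ne_zero) |>.mp h1)
    have e7 : 1 ≤ padicValRat 2 (b * (s i + 1) - s i) :=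
      odd_sub (mul_ne_zero C.hb e2) h0 e4 hun (sub_ne_zero.mp e6)
    have e8 := congrArg (padicValRat 2) hsub
    rw [padicValRat.mul e1' (pow_ne_zero _ h0), padicValRat.mul e1 e6, padicValRat.pow,
      hun, mul_zero, add_zero] at e8
    omega
  have hall : ∀ i, 2 ≤ padicValRat 2 (s i - 1) := by
    intro i
    induction i with
    | zero => exact h
    | succ i ih => have := hstep i ih; omega
  apply per_lt (fun i => padicValRat 2 (s i - 1)) C.hn (fun i => by simp only [C.sper i]) 0
  intro i _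
  have := hstep i (hall i)
  omega

theorem case_half {b : ℚ} {u s : ℕ → ℚ} {n : ℕ} (C : Cyc b u s n)
    (hb : padicValRat 2 b = -1) : ∀ i, (s i) ^ 2 = 1 := by
  by_contra hcon
  push Not at hcon
  obtain ⟨k, hk⟩ := hcon
  have hnt : ∀ i, (s i) ^ 2 ≠ 1 := by
    intro i hi
    exact hk (C.all_of_one i hi k)
  have h0 := C.s0 0
  have hun := (C.v_unit 2 (by omega) 0).1
  have hne1 : s 0 ≠ 1 := fun h => hnt 0 (by rw [h]; norm_num)
  have hne2 : s 0 ≠ -1 := fun h => hnt 0 (by rw [h]; norm_num)
  have h1 : 1 ≤ padicValRat 2 (s 0 - 1) :=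
    odd_sub h0 one_ne_zero hun (by simp) hne1
  rcases lt_or_ge 1 (padicValRat 2 (s 0 - 1)) with h2 | h2
  · exact half_aux C hb hnt (by omega)
  · have h3 : padicValRat 2 (s 0 - 1) = 1 := by omega
    apply half_aux C.neg (by rw [padicValRat.neg]; exact hb) (fun i => by
      rw [neg_sq]; exact hnt i)
    have e1 : s 0 - 1 ≠ 0 := sub_ne_zero.mpr hne1
    set y := (s 0 - 1) / 2 with hy
    have hy0 : y ≠ 0 := div_ne_zero e1 two_ne_zero
    have hyv : padicValRat 2 y = 0 := by
      rw [hy, padicValRat.div e1 two_ne_zero, h3, val_two]; norm_num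
    have hyne : y ≠ -1 := by
      intro h
      apply hne2
      rw [hy] at h
      linarith
    have h4 : 1 ≤ padicValRat 2 (y - (-1)) :=
      odd_sub hy0 (by norm_num) hyv (by rw [padicValRat.neg]; simp) hyne
    have e2 : - s 0 - 1 = - (2 * (y - (-1))) := by rw [hy]; ring
    rw [e2, padicValRat.neg, padicValRat.mul two_ne_zero (sub_ne_zero.mpr hyne), val_two]
    omega

/-- the case of positive `b` and positive `u` -/
theorem case_pos {b : ℚ} {u s : ℕ → ℚ} {n : ℕ} (C : Cyc b u s n)
    (hb : 0 < b) (hu0 : 0 < u 0) : ∀ i, (s i) ^ 2 = 1 := by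
  have hu : ∀ i, 0 < u i := by
    intro i
    induction i with
    | zero => exact hu0
    | succ i ih =>
      rw [C.hu]
      have := C.s0 i
      positivity
  have hs : ∀ i, 0 < s i := fun i => by rw [C.hs]; have := hu i; linarith
  have hb1 : b < 1 := by
    by_contra hc
    apply per_lt (fun j => - u j) C.hn (fun j => by simp only [C.hper j]) 0
    intro j _
    have h1 := hu j
    have h2 := C.hs j
    have h3 : 1 < s j := by linarith
    have h4 : 1 < (s j) ^ 2 := by nlinarith
    rw [C.hu j, neg_lt_neg_iff, div_lt_iff₀ (by linarith)]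
    nlinarith
  set k := 1 - b with hk
  have hk0 : 0 < k := by rw [hk]; linarith
  by_contra hcon
  push Not at hcon
  obtain ⟨j, hj⟩ := hcon
  have hnt : ∀ i, (s i) ^ 2 ≠ 1 := fun i hi => hj (C.all_of_one i hi j)
  apply per_lt (fun i => - max (u i / k) (k / u i)) C.hn (fun i => by simp only [C.hper i]) 0
  intro i _
  have h1 := hu i
  have h2 := hs i
  have h3 := hu (i + 1)
  have hsi := C.hs i
  have hne : u i ≠ k := by
    intro h
    apply hnt i
    rw [C.hs i, h, hk]; ring
  have h4 : u (i + 1) * (s i) ^ 2 = u i := by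
    rw [C.hu i]
    have := C.s0 i
    field_simp
  have hs2 : 0 < (s i) ^ 2 := by positivity
  rw [neg_lt_neg_iff]
  rcases lt_or_gt_of_ne hne with hlt | hgt
  · -- u < k : s < 1, u < u' < k^2/u
    have a1 : s i < 1 := by rw [hsi]; rw [hk] at hlt; linarith
    have a2 : u i < u (i + 1) := by nlinarith [mul_pos h1 h2, mul_pos h3 h2]
    have a3 : u i * u (i + 1) < k ^ 2 := by
      have b1 : u i < k * s i := by
        rw [hsi]
        have : u i * b < k * b := mul_lt_mul_of_pos_right hlt hb
        have e : k * (b + u i) = k * b + (1 - b) * u i := by rw [hk]; ring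
        rw [e]; linarith
      have b2 : u i * u i < (k * s i) * (k * s i) := mul_self_lt_mul_self h1.le b1
      have b3 : (u i * u (i + 1)) * (s i) ^ 2 < k ^ 2 * (s i) ^ 2 := by nlinarith
      exact lt_of_mul_lt_mul_right b3 hs2.le
    have a4 : k / u (i + 1) < k / u i := div_lt_div_of_pos_left hk0 h1 a2
    have a5 : u (i + 1) / k < k / u i := by
      rw [div_lt_div_iff₀ hk0 h1]; nlinarith
    exact lt_of_lt_of_le (max_lt a5 a4) (le_max_right _ _)
  · have a1 : 1 < s i := by rw [hsi]; rw [hk] at hgt; linarith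
    have a2 : u (i + 1) < u i := by nlinarith [mul_pos h1 h2, mul_pos h3 h2]
    have a3 : k ^ 2 < u i * u (i + 1) := by
      have b1 : k * s i < u i := by
        rw [hsi]
        have : k * b < u i * b := mul_lt_mul_of_pos_right hgt hb
        have e : k * (b + u i) = k * b + (1 - b) * u i := by rw [hk]; ring
        rw [e]; linarith
      have b2 : (k * s i) * (k * s i) < u i * u i := mul_self_lt_mul_self (by positivity) b1
      have b3 : k ^ 2 * (s i) ^ 2 < (u i * u (i + 1)) * (s i) ^ 2 := by nlinarith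
      exact lt_of_mul_lt_mul_right b3 hs2.le
    have a4 : u (i + 1) / k < u i / k := div_lt_div_of_pos_right a2 hk0
    have a5 : k / u (i + 1) < u i / k := by
      rw [div_lt_div_iff₀ h3 hk0]; nlinarith
    exact lt_of_lt_of_le (max_lt a4 a5) (le_max_left _ _)

end Pool.Agent.Helper905.Manes
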