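import Mathlib
import Pool.Agent.Helper905.Manes.Crit
import Pool.Agent.Helper905.Manes.Five2
import Pool.Agent.Helper905.Manes.HalfCase

namespace Pool.Agent.Helper905.Manes

/-- the chain of inequalities -/
theorem chain {N K c e0 e1 e2 e3 w0 w1 w2 a : ℚ} (hN : 0 < N) (hK : 0 < K) (hc : 0 < c)
    (he0 : 0 < e0) (he1 : 0 < e1) (he2 : 0 < e2) (he3 : 0 < e3)
    (hw0 : 0 < w0) (hw1 : 0 < w1) (hw2 : 0 < w2) (ha : a ≤ c)
    (k0 : N ≤ K * e0) (k1 : N ≤ K * e1)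
    (A0 : (e0 * w0) ^ 2 ≤ c * (N * e1)) (A1 : (e1 * w1) ^ 2 ≤ c * (N * e2))
    (A2 : (e2 * w2) ^ 2 ≤ c * (N * e3)) (A3 : 4 * e3 ≤ c * N)
    (big : N ^ 4 ≤ a * ((e0 * w0) ^ 2 * (w1 ^ 4 * w0 ^ 4 * w2 ^ 2))) :
    4 * N ^ 2 ≤ K ^ 5 * c ^ 8 := by
  have b1 : N ^ 4 ≤ c * ((e0 * w0) ^ 2 * (w1 ^ 4 * w0 ^ 4 * w2 ^ 2)) :=
    le_trans big (mul_le_mul_of_nonneg_right ha (by positivity))
  -- multiply by e0^4
  have b2 : N ^ 4 * e0 ^ 4 ≤ c * ((e0 * w0) ^ 2) ^ 3 * (w1 ^ 4 * w2 ^ 2) := by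
    have := mul_le_mul_of_nonneg_right b1 (by positivity : 0 ≤ e0 ^ 4)
    have e : c * ((e0 * w0) ^ 2 * (w1 ^ 4 * w0 ^ 4 * w2 ^ 2)) * e0 ^ 4 =
        c * ((e0 * w0) ^ 2) ^ 3 * (w1 ^ 4 * w2 ^ 2) := by ring
    rw [e] at this
    exact this
  have b3 : ((e0 * w0) ^ 2) ^ 3 ≤ (c * (N * e1)) ^ 3 := pow_le_pow_left₀ (by positivity) A0 3
  have b4 : N ^ 4 * e0 ^ 4 ≤ c * (c * (N * e1)) ^ 3 * (w1 ^ 4 * w2 ^ 2) := by
    refine le_trans b2 ?_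
    apply mul_le_mul_of_nonneg_right _ (by positivity)
    exact mul_le_mul_of_nonneg_left b3 hc.le
  have b5 : N ^ 4 ≤ (K * e0) ^ 4 := pow_le_pow_left₀ hN.le k0 4
  have b6 : N ^ 4 * N ^ 4 ≤ K ^ 4 * (c * (c * (N * e1)) ^ 3 * (w1 ^ 4 * w2 ^ 2)) := by
    calc N ^ 4 * N ^ 4 ≤ N ^ 4 * (K * e0) ^ 4 := mul_le_mul_of_nonneg_left b5 (by positivity)
      _ = K ^ 4 * (N ^ 4 * e0 ^ 4) := by ring
      _ ≤ _ := mul_le_mul_of_nonneg_left b4 (by positivity)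
  have b7 : N ^ 3 * N ^ 5 ≤ N ^ 3 * (K ^ 4 * c ^ 4 * (e1 ^ 3 * w1 ^ 4 * w2 ^ 2)) := by
    calc N ^ 3 * N ^ 5 = N ^ 4 * N ^ 4 := by ring
      _ ≤ _ := b6
      _ = N ^ 3 * (K ^ 4 * c ^ 4 * (e1 ^ 3 * w1 ^ 4 * w2 ^ 2)) := by ring
  have b8 : N ^ 5 ≤ K ^ 4 * c ^ 4 * (e1 ^ 3 * w1 ^ 4 * w2 ^ 2) :=
    le_of_mul_le_mul_left b7 (by positivity)
  have b9 : N ^ 5 * e1 ≤ K ^ 4 * c ^ 4 * ((e1 * w1) ^ 2) ^ 2 * w2 ^ 2 := by
    have := mul_le_mul_of_nonneg_right b8 he1.le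
    have e : K ^ 4 * c ^ 4 * (e1 ^ 3 * w1 ^ 4 * w2 ^ 2) * e1 =
        K ^ 4 * c ^ 4 * ((e1 * w1) ^ 2) ^ 2 * w2 ^ 2 := by ring
    rw [e] at this
    exact this
  have b10 : ((e1 * w1) ^ 2) ^ 2 ≤ (c * (N * e2)) ^ 2 := pow_le_pow_left₀ (by positivity) A1 2
  have b11 : N ^ 5 * e1 ≤ K ^ 4 * c ^ 4 * (c * (N * e2)) ^ 2 * w2 ^ 2 := by
    refine le_trans b9 ?_
    apply mul_le_mul_of_nonneg_right _ (by positivity)
    exact mul_le_mul_of_nonneg_left b10 (by positivity)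
  have b12 : N ^ 5 * e1 ≤ K ^ 4 * c ^ 6 * N ^ 2 * (c * (N * e3)) := by
    calc N ^ 5 * e1 ≤ K ^ 4 * c ^ 4 * (c * (N * e2)) ^ 2 * w2 ^ 2 := b11
      _ = K ^ 4 * c ^ 6 * N ^ 2 * (e2 * w2) ^ 2 := by ring
      _ ≤ _ := mul_le_mul_of_nonneg_left A2 (by positivity)
  have b13 : N ^ 5 * N ≤ K * (K ^ 4 * c ^ 6 * N ^ 2 * (c * (N * e3))) := by
    calc N ^ 5 * N ≤ N ^ 5 * (K * e1) := mul_le_mul_of_nonneg_left k1 (by positivity)
      _ = K * (N ^ 5 * e1) := by ring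
      _ ≤ _ := mul_le_mul_of_nonneg_left b12 hK.le
  have b14 : N ^ 4 * (4 * N ^ 2) ≤ N ^ 4 * (K ^ 5 * c ^ 8) := by
    calc N ^ 4 * (4 * N ^ 2) = 4 * (N ^ 5 * N) := by ring
      _ ≤ 4 * (K * (K ^ 4 * c ^ 6 * N ^ 2 * (c * (N * e3)))) := by linarith
      _ = K ^ 5 * c ^ 7 * N ^ 3 * (4 * e3) := by ring
      _ ≤ K ^ 5 * c ^ 7 * N ^ 3 * (c * N) := mul_le_mul_of_nonneg_left A3 (by positivity)
      _ = N ^ 4 * (K ^ 5 * c ^ 8) := by ring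
  exact le_of_mul_le_mul_left b14 (by positivity)

/-- large numerator -/
theorem crit_num {b : ℚ} {u s : ℕ → ℚ} {n : ℕ} {E W : ℕ → ℕ} (h : Data b u s n E W)
    (hb : 81 ≤ b) (hN : b.den ^ 5 ≤ b.num.natAbs) : False := by
  have C := h.cyc
  have hbD := bD_eq (show 0 < b by linarith)
  have hD1 : (1:ℚ) ≤ b.den := by exact_mod_cast b.den_pos
  have hlow : ∀ i, (b - 1) ^ 3 ≤ b * ((b.num.natAbs : ℚ) * (E i : ℚ)) := by
    intro i
    obtain ⟨ρ, hρ0, hρ1, hρ2, hρ3⟩ := rho_exists C (by linarith) h.hnt i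
    have h1 := num_ge (by linarith) hρ0 hρ1 hρ2
    have h2 := h.num i ρ hρ0.ne' hρ3
    have h3 : (ρ.num.natAbs : ℚ) ≤ (b.num.natAbs : ℚ) * (E i : ℚ) := by exact_mod_cast h2
    nlinarith
  obtain ⟨k, hk⟩ := exists_max C.hn E h.perE
  have hab := fun i => abs_bounds C (by linarith) h.hnt i
  have hNr : ((b.den : ℚ)) ^ 5 ≤ (b.num.natAbs : ℚ) := by exact_mod_cast hN
  set N : ℚ := (b.num.natAbs : ℚ) with hNdef
  set D : ℚ := (b.den : ℚ) with hD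
  have hNpos : 0 < N := by
    rw [← hbD]; nlinarith
  have hb1 : 0 < b - 1 := by linarith
  set c : ℚ := b / (b - 1) with hc
  have hcpos : 0 < c := by rw [hc]; positivity
  have hcb : c * (b - 1) = b := by rw [hc]; field_simp
  have hc81 : c ≤ 81 / 80 := by
    rw [hc, div_le_div_iff₀ hb1 (by norm_num)]; linarith
  have hEpos : ∀ i, (0:ℚ) < E i := by
    intro i
    have : (1:ℚ) ≤ E i := by exact_mod_cast h.E1 i
    linarith
  have hWpos : ∀ i, (0:ℚ) < W i := by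
    intro i
    have : (1:ℚ) ≤ W i := by exact_mod_cast h.W1 i
    linarith
  have hW2 : ∀ i, (2:ℚ) ≤ W i := by
    intro i
    have h1 := h.W1 i
    have h2 := W_ne_one h (by linarith) i
    have : 2 ≤ W i := by omega
    exact_mod_cast this
  -- A
  have hA : ∀ i, ((E i : ℚ) * (W i : ℚ)) ^ 2 ≤ c * (N * E (i + 1)) := by
    intro i
    have hr := h.rel i
    have h1 := (hab (i + 1)).1
    have h2 : (b - 1) * ((E i : ℚ) * (W i : ℚ)) ^ 2 ≤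
        b * |s (i + 1)| * ((E i : ℚ) * (W i : ℚ)) ^ 2 :=
      mul_le_mul_of_nonneg_right h1.le (sq_nonneg _)
    have e : b * |s (i + 1)| * ((E i : ℚ) * (W i : ℚ)) ^ 2 = b * (N * E (i + 1)) := by
      rw [← hr]; ring
    rw [e] at h2
    have h3 : (b - 1) * ((E i : ℚ) * (W i : ℚ)) ^ 2 ≤ (b - 1) * (c * (N * E (i + 1))) := by
      calc (b - 1) * ((E i : ℚ) * (W i : ℚ)) ^ 2 ≤ b * (N * E (i + 1)) := h2
        _ = (b - 1) * (c * (N * E (i + 1))) := by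
            linear_combination (- (N * (E (i + 1) : ℚ))) * hcb
    exact le_of_mul_le_mul_left h3 hb1
  -- K
  set K : ℚ := c ^ 3 * D ^ 2 with hK
  have hKpos : 0 < K := by rw [hK]; positivity
  have hk' : ∀ i, N ≤ K * E i := by
    intro i
    have h1 := hlow i
    have e1 : N * (b * (b - 1) ^ 3) ≤ (K * E i) * (b * (b - 1) ^ 3) := by
      have e2 : (K * E i) * (b * (b - 1) ^ 3) = D ^ 2 * E i * b * (c * (b - 1)) ^ 3 := by
        rw [hK]; ring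
      rw [e2, hcb]
      calc N * (b * (b - 1) ^ 3) ≤ N * (b * (b * (N * E i))) := by
            apply mul_le_mul_of_nonneg_left _ hNpos.le
            exact mul_le_mul_of_nonneg_left h1 (by linarith)
        _ = D ^ 2 * E i * b * b ^ 3 := by rw [← hbD]; ring
    exact le_of_mul_le_mul_right e1 (by positivity)
  -- A3
  have hA3 : ∀ i, 4 * (E i : ℚ) ≤ c * N := by
    intro i
    have h1 := hA k
    have h2 : (E (k + 1) : ℚ) ≤ E k := by exact_mod_cast hk (k + 1)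
    have h3 : (E i : ℚ) ≤ E k := by exact_mod_cast hk i
    have h4 : c * (N * (E (k + 1) : ℚ)) ≤ c * (N * E k) := by
      apply mul_le_mul_of_nonneg_left _ hcpos.le
      exact mul_le_mul_of_nonneg_left h2 hNpos.le
    have h5 : (E k : ℚ) * (4 * E k) ≤ (E k : ℚ) * (c * N) := by
      have h6 : (4:ℚ) ≤ (W k : ℚ) ^ 2 := by have := hW2 k; nlinarith
      have h7 : (E k : ℚ) ^ 2 * 4 ≤ (E k : ℚ) ^ 2 * (W k : ℚ) ^ 2 :=
        mul_le_mul_of_nonneg_left h6 (sq_nonneg _)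
      nlinarith
    have h8 := le_of_mul_le_mul_left h5 (hEpos k)
    linarith
  have ha : |u (0 + 1) / b| ≤ c := by
    have h1 := (hab 1).2
    have h2 := C.hs 1
    have h3 : u 1 / b = s 1 / b - 1 := by rw [h2]; field_simp; ring
    have h4 : |s 1| ≤ c := by
      have : |s 1| * (b - 1) ≤ c * (b - 1) := by rw [hcb]; linarith
      exact le_of_mul_le_mul_right this hb1
    have hu := C.u_neg (by linarith) 1
    rw [Nat.zero_add, abs_div, abs_of_neg hu, abs_of_pos (by linarith : (0:ℚ) < b)]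
    rw [div_le_iff₀ (by linarith)]
    have h5 : - u 1 = b - s 1 := by rw [h2]; ring
    rw [h5]
    have h6 := neg_abs_le (s 1)
    have h7 : c * b = c + b := by
      have : c * b = c * (b - 1) + c := by ring
      rw [this, hcb]; ring
    rw [h7]; linarith
  have hchain := chain hNpos hKpos hcpos (hEpos 0) (hEpos 1) (hEpos 2) (hEpos 3)
    (hWpos 0) (hWpos 1) (hWpos 2) ha (hk' 0) (hk' 1) (hA 0) (hA 1) (hA 2) (hA3 3) (h.big 0)
  have hc23 : c ^ 23 ≤ (81 / 80) ^ 23 := pow_le_pow_left₀ hcpos.le hc81 23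
  have hnum : ((81:ℚ) / 80) ^ 23 < 4 := by norm_num
  have hD10 : (D ^ 5) ^ 2 ≤ N ^ 2 := pow_le_pow_left₀ (by positivity) hNr 2
  have e : K ^ 5 * c ^ 8 = c ^ 23 * (D ^ 5) ^ 2 := by rw [hK]; ring
  rw [e] at hchain
  have h10 : c ^ 23 * (D ^ 5) ^ 2 ≤ c ^ 23 * N ^ 2 := mul_le_mul_of_nonneg_left hD10 (by positivity)
  have h11 : c ^ 23 * N ^ 2 < 4 * N ^ 2 := mul_lt_mul_of_pos_right (by linarith) (by positivity)
  linarith

end Pool.Agent.Helper905.Manes
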