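import Mathlib

namespace Pool.Agent.Helper905.Manes

/-- Rankin's bound for integers composed of given primes -/
theorem rankin {ε : ℝ} (hε : 0 < ε) (S : Finset ℕ) (hS : ∀ p ∈ S, p.Prime) {X : ℝ} (hX : 0 < X)
    (T : Finset ℕ) (hT : ∀ m ∈ T, m ≠ 0 ∧ (m : ℝ) ≤ X ∧ ∀ p, p.Prime → p ∣ m → p ∈ S) :
    (T.card : ℝ) ≤ X ^ ε * ∏ p ∈ S, (1 - (p : ℝ) ^ (-ε))⁻¹ := by
  let g : ℕ →* ℝ :=
    { toFun := fun m => (m : ℝ) ^ (-ε)
      map_one' := by simp
      map_mul' := fun a c => by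
        push_cast
        exact Real.mul_rpow (by positivity) (by positivity) }
  have hg : ∀ m : ℕ, g m = (m : ℝ) ^ (-ε) := fun m => rfl
  have hg0 : ∀ m : ℕ, 0 ≤ g m := fun m => by rw [hg]; positivity
  have hlt : ∀ {p : ℕ}, p.Prime → ‖g p‖ < 1 := by
    intro p hp
    rw [Real.norm_of_nonneg (hg0 p), hg]
    exact Real.rpow_lt_one_of_one_lt_of_neg (by exact_mod_cast hp.one_lt) (by linarith)
  obtain ⟨h1, h2⟩ :=
    EulerProduct.summable_and_hasSum_factoredNumbers_prod_filter_prime_geometric (f := g) hlt S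
  have hfil : S.filter Nat.Prime = S := Finset.filter_true_of_mem hS
  rw [hfil] at h2
  have hmem : ∀ m ∈ T, m ∈ Nat.factoredNumbers S := by
    intro m hm
    obtain ⟨a1, _, a3⟩ := hT m hm
    exact Nat.mem_factoredNumbers'.mpr a3
  have hsum : ∑ m ∈ T, g m ≤ ∏ p ∈ S, (1 - g p)⁻¹ := by
    let T' : Finset (Nat.factoredNumbers S) := T.attach.map
      ⟨fun x => ⟨x.1, hmem x.1 x.2⟩, fun x y hxy => by
        apply Subtype.ext
        exact congrArg (fun z : Nat.factoredNumbers S => (z : ℕ)) hxy⟩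
    have h3 : ∑ m ∈ T, g m = ∑ m ∈ T', g m := by
      simp only [T', Finset.sum_map, Function.Embedding.coeFn_mk]
      rw [← Finset.sum_attach]
    rw [h3]
    exact sum_le_hasSum T' (fun m _ => hg0 m) h2
  have hcard : (T.card : ℝ) ≤ ∑ m ∈ T, X ^ ε * g m := by
    have h4 : (T.card : ℝ) = ∑ m ∈ T, (1 : ℝ) := by simp
    rw [h4]
    apply Finset.sum_le_sum
    intro m hm
    obtain ⟨a1, a2, _⟩ := hT m hm
    have hmpos : (0:ℝ) < m := by positivity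
    rw [hg, Real.rpow_neg hmpos.le, ← div_eq_mul_inv, le_div_iff₀ (by positivity), one_mul]
    exact Real.rpow_le_rpow hmpos.le a2 hε.le
  calc (T.card : ℝ) ≤ ∑ m ∈ T, X ^ ε * g m := hcard
    _ = X ^ ε * ∑ m ∈ T, g m := by rw [Finset.mul_sum]
    _ ≤ X ^ ε * ∏ p ∈ S, (1 - g p)⁻¹ := mul_le_mul_of_nonneg_left hsum (by positivity)
    _ = _ := by simp only [hg]

/-- the Euler factors are small -/
theorem euler_le {ε : ℝ} (hε : 0 < ε) : ∃ C : ℝ, 1 ≤ C ∧ ∀ S : Finset ℕ, (∀ p ∈ S, p.Prime) →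
    ∏ p ∈ S, (1 - (p : ℝ) ^ (-ε))⁻¹ ≤ C * ∏ p ∈ S, (p : ℝ) ^ ε := by
  set K : ℝ := (1 - (2 : ℝ) ^ (-ε))⁻¹ with hK
  set P : ℕ := ⌈(2 : ℝ) ^ (1 / ε)⌉₊ with hP
  have h2 : (0:ℝ) < (2 : ℝ) ^ (-ε) := by positivity
  have h2' : (2 : ℝ) ^ (-ε) < 1 := Real.rpow_lt_one_of_one_lt_of_neg (by norm_num) (by linarith)
  have hK1 : 1 ≤ K := by
    rw [hK]
    exact (one_le_inv₀ (by linarith)).mpr (by linarith)
  refine ⟨K ^ P, one_le_pow₀ hK1, ?_⟩
  intro S hS
  have hpt : ∀ p ∈ S, (1 - (p : ℝ) ^ (-ε))⁻¹ ≤ (if p < P then K else 1) * (p : ℝ) ^ ε := by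
    intro p hp
    have hp2 : (2:ℝ) ≤ p := by exact_mod_cast (hS p hp).two_le
    have hppos : (0:ℝ) < p := by linarith
    have hpe : 1 ≤ (p : ℝ) ^ ε := Real.one_le_rpow (by linarith) hε.le
    split_ifs with h
    · have h3 : (p : ℝ) ^ (-ε) ≤ (2 : ℝ) ^ (-ε) :=
        Real.rpow_le_rpow_of_nonpos (by norm_num) hp2 (by linarith)
      calc (1 - (p : ℝ) ^ (-ε))⁻¹ ≤ K := by
            rw [hK]
            exact inv_anti₀ (by linarith) (by linarith)
        _ = K * 1 := (mul_one K).symm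
        _ ≤ K * (p : ℝ) ^ ε := mul_le_mul_of_nonneg_left hpe (by linarith)
    · rw [one_mul]
      have h3 : (2 : ℝ) ^ (1 / ε) ≤ p := by
        push Not at h
        exact le_trans (Nat.le_ceil _) (by exact_mod_cast h)
      have h4 : (2 : ℝ) ≤ (p : ℝ) ^ ε := by
        have := Real.rpow_le_rpow (by positivity) h3 hε.le
        rw [← Real.rpow_mul (by norm_num), one_div, inv_mul_cancel₀ hε.ne', Real.rpow_one] at this
        exact this
      rw [Real.rpow_neg hppos.le]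
      have h5 : ((p : ℝ) ^ ε)⁻¹ ≤ 2⁻¹ := inv_anti₀ (by norm_num) h4
      calc (1 - ((p : ℝ) ^ ε)⁻¹)⁻¹ ≤ (2⁻¹ : ℝ)⁻¹ := inv_anti₀ (by norm_num) (by
            have : (2⁻¹ : ℝ) = 1 - 2⁻¹ := by norm_num
            linarith)
        _ = 2 := by norm_num
        _ ≤ _ := h4
  have hnn : ∀ p ∈ S, 0 ≤ (1 - (p : ℝ) ^ (-ε))⁻¹ := by
    intro p hp
    apply inv_nonneg.mpr
    have : (p : ℝ) ^ (-ε) < 1 :=
      Real.rpow_lt_one_of_one_lt_of_neg (by exact_mod_cast (hS p hp).one_lt) (by linarith)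
    linarith
  calc ∏ p ∈ S, (1 - (p : ℝ) ^ (-ε))⁻¹
      ≤ ∏ p ∈ S, ((if p < P then K else 1) * (p : ℝ) ^ ε) := Finset.prod_le_prod hnn hpt
    _ = (∏ p ∈ S, (if p < P then K else 1)) * ∏ p ∈ S, (p : ℝ) ^ ε := Finset.prod_mul_distrib
    _ ≤ K ^ P * ∏ p ∈ S, (p : ℝ) ^ ε := by
        apply mul_le_mul_of_nonneg_right _ (Finset.prod_nonneg (fun p _ => by positivity))
        rw [Finset.prod_ite, Finset.prod_const, Finset.prod_const_one, mul_one]
        apply pow_le_pow_right₀ hK1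
        calc (S.filter (fun p => p < P)).card ≤ (Finset.range P).card := by
              apply Finset.card_le_card
              intro p hp
              exact Finset.mem_range.mpr (Finset.mem_filter.mp hp).2
          _ = P := Finset.card_range P

/-- the integers up to `N ^ 3` all of whose primes divide `N` -/
def sup3 (N : ℕ) : Finset ℕ :=
  (Finset.Icc 1 (N ^ 3)).filter (fun m => ∀ p ∈ m.primeFactors, p ∣ N)

theorem sup3_card {ε : ℝ} (hε : 0 < ε) : ∃ C : ℝ, 1 ≤ C ∧ ∀ N : ℕ, 1 ≤ N →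
    ((sup3 N).card : ℝ) ≤ C * (N : ℝ) ^ ε := by
  obtain ⟨C, hC, h⟩ := euler_le (ε := ε / 4) (by linarith)
  refine ⟨C, hC, ?_⟩
  intro N hN
  have hNpos : (0:ℝ) < N := by exact_mod_cast hN
  have hN0 : N ≠ 0 := by omega
  have hpr : ∀ p ∈ N.primeFactors, p.Prime := fun p hp => Nat.prime_of_mem_primeFactors hp
  have h1 := rankin (ε := ε / 4) (by linarith) N.primeFactors hpr
    (X := (N : ℝ) ^ 3) (by positivity) (sup3 N) (by
      intro m hm
      rw [sup3, Finset.mem_filter, Finset.mem_Icc] at hm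
      refine ⟨by omega, by exact_mod_cast hm.1.2, fun p hp hpm => ?_⟩
      exact Nat.mem_primeFactors.mpr ⟨hp, hm.2 p (Nat.mem_primeFactors.mpr
        ⟨hp, hpm, by omega⟩), hN0⟩)
  have h2 : ∏ p ∈ N.primeFactors, (p : ℝ) ^ (ε / 4) ≤ (N : ℝ) ^ (ε / 4) := by
    rw [Real.finsetProd_rpow _ _ (fun p _ => by positivity)]
    apply Real.rpow_le_rpow (Finset.prod_nonneg (fun p _ => by positivity)) _ (by linarith)
    have h5 : ((∏ p ∈ N.primeFactors, p : ℕ) : ℝ) ≤ (N : ℝ) := by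
      exact_mod_cast Nat.le_of_dvd (by omega) (Nat.prod_primeFactors_dvd N)
    rw [Nat.cast_prod] at h5
    exact h5
  have h3 : ((N : ℝ) ^ 3) ^ (ε / 4) = (N : ℝ) ^ (3 * (ε / 4)) := by
    rw [← Real.rpow_natCast, ← Real.rpow_mul hNpos.le]
    norm_num
  calc ((sup3 N).card : ℝ) ≤ ((N : ℝ) ^ 3) ^ (ε / 4) *
        ∏ p ∈ N.primeFactors, (1 - (p : ℝ) ^ (-(ε / 4)))⁻¹ := h1
    _ ≤ ((N : ℝ) ^ 3) ^ (ε / 4) * (C * ∏ p ∈ N.primeFactors, (p : ℝ) ^ (ε / 4)) :=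
        mul_le_mul_of_nonneg_left (h _ hpr) (by positivity)
    _ ≤ ((N : ℝ) ^ 3) ^ (ε / 4) * (C * (N : ℝ) ^ (ε / 4)) := by
        apply mul_le_mul_of_nonneg_left _ (by positivity)
        exact mul_le_mul_of_nonneg_left h2 (by linarith)
    _ = C * (N : ℝ) ^ ε := by
        rw [h3]
        have : (N : ℝ) ^ (3 * (ε / 4)) * (C * (N : ℝ) ^ (ε / 4)) =
          C * ((N : ℝ) ^ (3 * (ε / 4)) * (N : ℝ) ^ (ε / 4)) := by ring
        rw [this, ← Real.rpow_add hNpos]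
        congr 2
        ring

end Pool.Agent.Helper905.Manes
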