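import Mathlib
import Pool.Agent.Helper905.Manes.Crit2
import Pool.Agent.Helper905.Manes.Rankin

namespace Pool.Agent.Helper905.Manes

/-- an index with small data -/
theorem small_index {n : ℕ} (hn : 0 < n) (N : ℕ) (E W : ℕ → ℕ) (hE1 : ∀ i, 1 ≤ E i)
    (hW1 : ∀ i, 1 ≤ W i) (hE : ∀ i, E (i + n) = E i) (hW : ∀ i, W (i + n) = W i)
    (hprod : (∏ i ∈ Finset.range n, E i) * (∏ i ∈ Finset.range n, W i) ^ 2 ≤ N ^ n) :
    ∃ i, E i * W i * (E (i + 1) * W (i + 1)) * E (i + 2) ≤ N ^ 3 := by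
  by_contra hcon
  push Not at hcon
  let a : ℕ → ℕ := fun i => E i * W i ^ 2
  have ha : ∏ i ∈ Finset.range n, a i ≤ N ^ n := by
    simp only [a]
    rw [Finset.prod_mul_distrib, Finset.prod_pow]
    exact hprod
  have hshift : ∀ g : ℕ → ℕ, (∀ i, g (i + n) = g i) → (∀ i, 1 ≤ g i) →
      ∏ i ∈ Finset.range n, g (i + 1) = ∏ i ∈ Finset.range n, g i := by
    intro g hg hg1
    have h1 := Finset.prod_range_succ g n
    have h2 := Finset.prod_range_succ' g n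
    have h3 : g n = g 0 := by
      have := hg 0
      rw [Nat.zero_add] at this
      exact this
    rw [h3] at h1
    rw [h1] at h2
    exact (Nat.eq_of_mul_eq_mul_right (hg1 0) h2).symm
  have ha1 : ∀ i, 1 ≤ a i := fun i => Nat.mul_pos (hE1 i) (Nat.pow_pos (hW1 i))
  have haper : ∀ i, a (i + n) = a i := fun i => by simp only [a, hE, hW]
  have s1 := hshift a haper ha1
  have s2 : ∏ i ∈ Finset.range n, a (i + 1 + 1) = ∏ i ∈ Finset.range n, a (i + 1) :=
    hshift (fun i => a (i + 1))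
    (fun i => by
      show a (i + n + 1) = a (i + 1)
      rw [Nat.add_right_comm, haper]) (fun i => ha1 _)
  have hlt : ∀ i, N ^ 3 < a i * a (i + 1) * a (i + 2) := by
    intro i
    refine lt_of_lt_of_le (hcon i) ?_
    simp only [a]
    have w0 := hW1 i
    have w1 := hW1 (i + 1)
    have w2 := hW1 (i + 2)
    have x0 : E i * W i ≤ E i * W i ^ 2 := Nat.mul_le_mul_left _ (Nat.le_self_pow (by norm_num) _)
    have x1 : E (i + 1) * W (i + 1) ≤ E (i + 1) * W (i + 1) ^ 2 :=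
      Nat.mul_le_mul_left _ (Nat.le_self_pow (by norm_num) _)
    have x2 : E (i + 2) ≤ E (i + 2) * W (i + 2) ^ 2 := Nat.le_mul_of_pos_right _ (Nat.pow_pos w2)
    exact Nat.mul_le_mul (Nat.mul_le_mul x0 x1) x2
  have h4 : ∏ i ∈ Finset.range n, N ^ 3 < ∏ i ∈ Finset.range n, (a i * a (i + 1) * a (i + 2)) := by
    by_cases hN : N = 0
    · subst hN
      rw [Finset.prod_const, Finset.card_range]
      simp only [ne_eq, OfNat.ofNat_ne_zero, not_false_eq_true, zero_pow]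
      rw [zero_pow hn.ne']
      exact Finset.prod_pos (fun i _ => lt_of_le_of_lt (Nat.zero_le _) (hlt i))
    · apply Finset.prod_lt_prod_of_nonempty
      · intro i _
        exact Nat.pow_pos (Nat.pos_of_ne_zero hN)
      · intro i _
        exact hlt i
      · exact ⟨0, Finset.mem_range.mpr hn⟩
  rw [Finset.prod_mul_distrib, Finset.prod_mul_distrib, Finset.prod_const, Finset.card_range] at h4
  have s3 : ∏ i ∈ Finset.range n, a (i + 2) = ∏ i ∈ Finset.range n, a i := by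
    rw [← s1]
    exact s2
  rw [s1, s3] at h4
  have h5 : (∏ i ∈ Finset.range n, a i) * (∏ i ∈ Finset.range n, a i) *
      (∏ i ∈ Finset.range n, a i) ≤ N ^ n * N ^ n * N ^ n :=
    Nat.mul_le_mul (Nat.mul_le_mul ha ha) ha
  have h6 : N ^ n * N ^ n * N ^ n = (N ^ 3) ^ n := by ring
  omega

/-- recovering `b` from two consecutive multipliers -/
theorem b_eq {b : ℚ} {u s : ℕ → ℚ} {n : ℕ} (C : Cyc b u s n) (i : ℕ) (h : (s i) ^ 2 ≠ 1) :
    b = s i * (s i * s (i + 1) - 1) / ((s i) ^ 2 - 1) := by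
  have ht := C.t_eq i
  have : (s i) ^ 2 - 1 ≠ 0 := sub_ne_zero.mpr h
  rw [eq_div_iff this]
  exact ht

/-- the candidates for `b` -/
def cand (N : ℕ) (t : ((ℕ × ℕ) × (ℕ × ℕ) × ℕ) × (Bool × Bool)) : ℚ :=
  let x : ℚ := (if t.2.1 then 1 else -1) *
    ((N : ℚ) * (t.1.2.1.1 : ℚ) / ((t.1.1.1 : ℚ) * (t.1.1.2 : ℚ)) ^ 2)
  let y : ℚ := (if t.2.2 then 1 else -1) *
    ((N : ℚ) * (t.1.2.2 : ℚ) / ((t.1.2.1.1 : ℚ) * (t.1.2.1.2 : ℚ)) ^ 2)
  x * (x * y - 1) / (x ^ 2 - 1)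

/-- the index set -/
def index (N : ℕ) : Finset (((ℕ × ℕ) × (ℕ × ℕ) × ℕ) × (Bool × Bool)) :=
  ((sup3 N ×ˢ sup3 N) ×ˢ (sup3 N ×ˢ sup3 N) ×ˢ sup3 N) ×ˢ (Finset.univ ×ˢ Finset.univ)

theorem index_card (N : ℕ) : (index N).card = 4 * (sup3 N).card ^ 5 := by
  simp only [index, Finset.card_product, Finset.card_univ, Fintype.card_bool]
  ring

theorem mem_cand {b : ℚ} {u s : ℕ → ℚ} {n : ℕ} (C : Cyc b u s n)
    (hnt : ¬ ∀ i, |s i * s (i + 1)| = 1) : b ∈ (index b.num.natAbs).image (cand b.num.natAbs) := by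
  obtain ⟨E, W, h⟩ := exists_data C hnt
  set N := b.num.natAbs with hN
  obtain ⟨i, hi⟩ := small_index C.hn N E W h.E1 h.W1 h.perE h.perW h.prod
  have e0 := h.E1 i
  have e1 := h.E1 (i + 1)
  have e2 := h.E1 (i + 2)
  have w0 := h.W1 i
  have w1 := h.W1 (i + 1)
  have hd : ∀ x, x ∣ E i * W i * (E (i + 1) * W (i + 1)) * E (i + 2) → x ≤ N ^ 3 := by
    intro x hx
    refine le_trans (Nat.le_of_dvd ?_ hx) hi
    have a0 := Nat.mul_pos e0 w0
    have a1 := Nat.mul_pos e1 w1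
    exact Nat.mul_pos (Nat.mul_pos a0 a1) e2
  have memE : ∀ j, E j ≤ N ^ 3 → E j ∈ sup3 N := by
    intro j hj
    rw [sup3, Finset.mem_filter, Finset.mem_Icc]
    refine ⟨⟨h.E1 j, hj⟩, fun p hp => ?_⟩
    exact h.supp j p (Nat.prime_of_mem_primeFactors hp)
      (dvd_mul_of_dvd_left (Nat.dvd_of_mem_primeFactors hp) _)
  have memW : ∀ j, W j ≤ N ^ 3 → W j ∈ sup3 N := by
    intro j hj
    rw [sup3, Finset.mem_filter, Finset.mem_Icc]
    refine ⟨⟨h.W1 j, hj⟩, fun p hp => ?_⟩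
    exact h.supp j p (Nat.prime_of_mem_primeFactors hp)
      (dvd_mul_of_dvd_right (Nat.dvd_of_mem_primeFactors hp) _)
  have m0 := memE i (hd _ ⟨W i * (E (i + 1) * W (i + 1)) * E (i + 2), by ring⟩)
  have m1 := memE (i + 1) (hd _ ⟨E i * W i * W (i + 1) * E (i + 2), by ring⟩)
  have m2 := memE (i + 2) (hd _ ⟨E i * W i * (E (i + 1) * W (i + 1)), by ring⟩)
  have k0 := memW i (hd _ ⟨E i * (E (i + 1) * W (i + 1)) * E (i + 2), by ring⟩)
  have k1 := memW (i + 1) (hd _ ⟨E i * W i * E (i + 1) * E (i + 2), by ring⟩)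
  have habs : ∀ j, s (j + 1) = (if (0 ≤ s (j + 1) : Bool) then 1 else -1) *
      ((N : ℚ) * (E (j + 1) : ℚ) / ((E j : ℚ) * (W j : ℚ)) ^ 2) := by
    intro j
    have hr := h.rel j
    have hEq : (E j : ℚ) ≠ 0 := by have := h.E1 j; positivity
    have hWq : (W j : ℚ) ≠ 0 := by have := h.W1 j; positivity
    have h1 : |s (j + 1)| = (N : ℚ) * (E (j + 1) : ℚ) / ((E j : ℚ) * (W j : ℚ)) ^ 2 := by
      rw [eq_div_iff (pow_ne_zero _ (mul_ne_zero hEq hWq))]
      exact hr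
    rw [← h1]
    by_cases h0 : 0 ≤ s (j + 1)
    · simp [h0, abs_of_nonneg h0]
    · push Not at h0
      simp [not_le.mpr h0, abs_of_neg h0]
  rw [Finset.mem_image]
  refine ⟨(((E i, W i), (E (i + 1), W (i + 1)), E (i + 2)),
    ((0 ≤ s (i + 1) : Bool), (0 ≤ s (i + 2) : Bool))), ?_, ?_⟩
  · simp only [index, Finset.mem_product, Finset.mem_univ, and_true]
    exact ⟨⟨m0, k0⟩, ⟨m1, k1⟩, m2⟩
  · have hb := b_eq C (i + 1) (h.hnt (i + 1))
    have a1 := habs i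
    have a2 := habs (i + 1)
    rw [show i + 1 + 1 = i + 2 by ring] at hb a2
    simp only [cand]
    rw [← a1, ← a2]
    exact hb.symm

end Pool.Agent.Helper905.Manes
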