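import Mathlib
import Pool.Agent.Helper905.Manes.Defs
import Pool.Agent.Helper905.Manes.Crit2

namespace Pool.Agent.Helper905.Manes

/-- two primes, `b > 1` -/
theorem case_two_primes {b : ℚ} {u s : ℕ → ℚ} {n : ℕ} (C : Cyc b u s n) (hb : 1 < b)
    (hcard : b.num.natAbs.primeFactors.card ≤ 2) : ∀ i, |s i * s (i + 1)| = 1 := by
  by_contra hnt
  obtain ⟨E, W, h⟩ := exists_data C hnt
  apply hnt
  apply two_primes_core C hcard
  intro i
  by_contra hcon
  push Not at hcon
  have hN0 : b.num.natAbs ≠ 0 := by simpa using C.hb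
  set N := b.num.natAbs with hNdef
  have hNq : (N : ℚ) ≠ 0 := by exact_mod_cast hN0
  have hup := upper_abs C hb h.hnt i
  have hbD := bD_eq (show 0 < b by linarith)
  have hD1 : (1:ℚ) ≤ b.den := by exact_mod_cast b.den_pos
  -- s i / N is an integer
  have hval : ∀ l, l.Prime → 0 ≤ padicValRat l (s i / N) := by
    intro l hl
    have : Fact l.Prime := ⟨hl⟩
    rw [padicValRat.div (C.s0 i) hNq, padicValRat.of_nat]
    by_cases hd : l ∣ N
    · have hmem : l ∈ N.primeFactors := Nat.mem_primeFactors.mpr ⟨hl, hd, hN0⟩
      have h1 := hcon l hmem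
      have h2 := val_of_dvd hl hd
      have h3 := val_pos_of_dvd hl C.hb hd
      have hnAC : ¬ (- padicValRat l b < padicValRat l (u i) ∧
          padicValRat l (u i) < padicValRat l b) := by
        intro hk
        exact hnt (caseAC C l h3 i hk)
      have hv2 := C.v2 l i
      have hv3 := C.v3 l i
      rw [← h2]
      by_cases hg : padicValRat l (u i) = padicValRat l b
      · rw [hg, min_self] at hv3; omega
      · have := hv2 hg
        omega
    · rw [padicValNat.eq_zero_of_not_dvd hd]
      rw [(C.v_unit l (val_of_not_dvd hd) i).1]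
      norm_num
  have hden := den_one_of_val hval
  have hne : s i / N ≠ 0 := div_ne_zero (C.s0 i) hNq
  have h1 : s i / N = (s i / N).num := by
    conv_lhs => rw [← Rat.num_div_den (s i / N), hden]
    simp
  have h2 : (s i / N).num ≠ 0 := by simpa using hne
  have h3 : (1:ℚ) ≤ |((s i / N).num : ℚ)| := by
    have := Int.one_le_abs h2
    exact_mod_cast this
  rw [← h1, abs_div, le_div_iff₀ (by positivity), one_mul] at h3
  have h4 : (N : ℚ) ≤ |s i| := le_trans (le_abs_self _) h3
  have h5 : (b - 1) * N < b := lt_of_le_of_lt (mul_le_mul_of_nonneg_left h4 (by linarith)) hup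
  have hND : b.den < N := by
    have : (b.den : ℚ) < (N : ℚ) := by rw [← hbD]; nlinarith
    exact_mod_cast this
  have hND' : (b.den : ℚ) + 1 ≤ (N : ℚ) := by exact_mod_cast hND
  have h6 : (b * b.den - b.den) * N < b * b.den := by nlinarith
  rw [hbD] at h6
  have h7 : (0:ℚ) < N := by positivity
  nlinarith


/-- the main statement on positive `b` -/
theorem main_pos {b : ℚ} {u s : ℕ → ℚ} {n : ℕ} (C : Cyc b u s n) (hb : 0 < b)
    (h : 0 < u 0 ∨ Good b) : ∀ i, s i * s (i + 1) * (s (i + 2) * s (i + 3)) = 1 := by
  have hsq : (∀ i, (s i) ^ 2 = 1) → ∀ i, s i * s (i + 1) * (s (i + 2) * s (i + 3)) = 1 := by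
    intro h1
    apply four_of_abs C
    intro i
    have a1 := h1 i
    have a2 := h1 (i + 1)
    have h3 : |s i * s (i + 1)| ^ 2 = 1 := by rw [sq_abs, mul_pow, a1, a2]; norm_num
    have h4 : (0:ℚ) ≤ |s i * s (i + 1)| := abs_nonneg _
    nlinarith
  rcases h with h | h
  · exact hsq (case_pos C hb h)
  by_cases hv2 : padicValRat 2 b = 0 ∨ padicValRat 2 b = -1
  · rcases hv2 with h1 | h1
    · exact hsq (case_two C h1)
    · exact hsq (case_half C h1)
  by_cases hv3 : padicValRat 3 b = 0
  · exact hsq (case_three C hv3)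
  by_cases hv5 : padicValRat 5 b = 0
  · exact case_five C hv5
  have hN0 : b.num.natAbs ≠ 0 := by simpa using C.hb
  by_cases hcard1 : b.num.natAbs.primeFactors.card ≤ 1
  · -- prime power
    have hpp : ∃ p k, p.Prime ∧ b.num.natAbs = p ^ k := by
      have hfac := prod_fac hN0
      rcases Nat.lt_or_ge 0 b.num.natAbs.primeFactors.card with h0 | h0
      · have h1 : b.num.natAbs.primeFactors.card = 1 := by omega
        obtain ⟨p, hp⟩ := Finset.card_eq_one.mp h1
        rw [hp, Finset.prod_singleton] at hfac
        refine ⟨p, _, ?_, hfac.symm⟩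
        apply Nat.prime_of_mem_primeFactors (n := b.num.natAbs)
        rw [hp]; exact Finset.mem_singleton_self p
      · have h1 : b.num.natAbs.primeFactors = ∅ := by
          apply Finset.card_eq_zero.mp; omega
        rw [h1, Finset.prod_empty] at hfac
        exact ⟨2, 0, Nat.prime_two, by rw [pow_zero]; exact hfac.symm⟩
    obtain ⟨p, k, hp, hk⟩ := hpp
    rcases case_pp C hb hp hk with h1 | h1
    · exact hsq h1
    · apply four_of_abs C
      intro i
      rw [h1 i]; norm_num
  by_contra hfail
  have hnt : ¬ ∀ i, |s i * s (i + 1)| = 1 := fun h1 => hfail (four_of_abs C h1)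
  obtain ⟨E, W, hd⟩ := exists_data C hnt
  have hbD := bD_eq hb
  have hD1 : (1:ℚ) ≤ b.den := by exact_mod_cast b.den_pos
  -- two distinct primes dividing the numerator
  set N := b.num.natAbs with hNdef
  have hcard2 : 2 ≤ N.primeFactors.card := by omega
  -- divisibility by 2 or 4 etc.
  have hden2 : b.den ≠ 2 := by
    intro h2
    apply hv2
    right
    have h3 : ¬ 2 ∣ b.num.natAbs := by
      intro h4
      have h5 : 2 ∣ 1 := by
        rw [← b.reduced]; exact Nat.dvd_gcd h4 (by rw [h2])
      omega
    rw [padicValRat, padicValInt, padicValNat.eq_zero_of_not_dvd h3, h2]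
    simp
  have hNge : ∀ p, p.Prime → p ∣ N → p ^ (padicValNat p N) * 2 ≤ N := by
    intro p hp hpd
    have hfac := prod_fac hN0
    have hmem : p ∈ N.primeFactors := Nat.mem_primeFactors.mpr ⟨hp, hpd, hN0⟩
    obtain ⟨q, hq, hqp⟩ : ∃ q ∈ N.primeFactors, q ≠ p := by
      by_contra hc
      push Not at hc
      have : N.primeFactors ⊆ {p} := by
        intro x hx; rw [Finset.mem_singleton]; exact hc x hx
      have := Finset.card_le_card this
      rw [Finset.card_singleton] at this
      omega
    have hpair : ({p, q} : Finset ℕ) ⊆ N.primeFactors := by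
      intro x hx
      simp only [Finset.mem_insert, Finset.mem_singleton] at hx
      rcases hx with rfl | rfl <;> assumption
    have h1 : ∏ x ∈ ({p, q} : Finset ℕ), x ^ (padicValNat x N) ≤
        ∏ x ∈ N.primeFactors, x ^ (padicValNat x N) := by
      apply Finset.prod_le_prod_of_subset_of_one_le' hpair
      intro x hx _
      exact Nat.one_le_pow _ _ (Nat.prime_of_mem_primeFactors hx).pos
    rw [hfac, Finset.prod_pair (Ne.symm hqp)] at h1
    have hqpr := Nat.prime_of_mem_primeFactors hq
    have h2 : 2 ≤ q ^ (padicValNat q N) := by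
      have h3 : 1 ≤ padicValNat q N := by
        have : Fact q.Prime := ⟨hqpr⟩
        exact one_le_padicValNat_of_dvd hN0 (Nat.dvd_of_mem_primeFactors hq)
      exact le_trans hqpr.two_le (Nat.le_self_pow (by omega) q)
    calc p ^ (padicValNat p N) * 2 ≤ p ^ (padicValNat p N) * q ^ (padicValNat q N) :=
          Nat.mul_le_mul_left _ h2
      _ ≤ N := h1
  -- if den = 1 then 6 | N
  have hden1 : b.den = 1 → 6 ≤ N := by
    intro h1
    have h2 : 2 ∣ N := by
      by_contra hc
      apply hv2
      left
      rw [padicValRat, padicValInt, padicValNat.eq_zero_of_not_dvd hc, h1]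
      simp
    have h3 : 3 ∣ N := by
      by_contra hc
      apply hv3
      rw [padicValRat, padicValInt, padicValNat.eq_zero_of_not_dvd hc, h1]
      simp
    have h6 : 6 ∣ N := Nat.Coprime.mul_dvd_of_dvd_of_dvd (by norm_num) h2 h3
    exact Nat.le_of_dvd (Nat.pos_of_ne_zero hN0) h6
  -- the large prime power criterion
  have hlargeq : (∃ p, p.Prime ∧ p ∣ N ∧ ∀ p', p'.Prime → p' ∣ N →
      2 * b.den ^ 2 ≤ p ^ (padicValNat p N) * p' ^ (padicValNat p' N)) → False := by
    rintro ⟨p, hp, hpd, hall⟩
    -- minimal prime power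
    obtain ⟨p0, hp0, hmin⟩ := Finset.exists_min_image N.primeFactors
      (fun x => x ^ (padicValNat x N)) (Finset.card_pos.mp (by omega))
    have hp0' := Nat.prime_of_mem_primeFactors hp0
    have hp0d := Nat.dvd_of_mem_primeFactors hp0
    set m := p0 ^ (padicValNat p0 N) with hm
    set q := p ^ (padicValNat p N) with hqdef
    have hmq := hall p0 hp0' hp0d
    rw [← hm] at hmq
    have hqq := hall p hp hpd
    have hm2 : 2 ≤ m := by
      have : Fact p0.Prime := ⟨hp0'⟩
      have h3 : 1 ≤ padicValNat p0 N := one_le_padicValNat_of_dvd hN0 hp0d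
      exact le_trans hp0'.two_le (Nat.le_self_pow (by omega) p0)
    have hq2 : 2 ≤ q := by
      have : Fact p.Prime := ⟨hp⟩
      have h3 : 1 ≤ padicValNat p N := one_le_padicValNat_of_dvd hN0 hpd
      exact le_trans hp.two_le (Nat.le_self_pow (by omega) p)
    -- b ≥ 6
    have hNbig : b.den ≠ 1 → 2 * b.den ^ 2 ≤ N := by
      intro _
      -- use a prime different from p
      obtain ⟨r, hr, hrp⟩ : ∃ r ∈ N.primeFactors, r ≠ p := by
        by_contra hc
        push Not at hc
        have : N.primeFactors ⊆ {p} := by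
          intro x hx; rw [Finset.mem_singleton]; exact hc x hx
        have := Finset.card_le_card this
        rw [Finset.card_singleton] at this
        omega
      have hrpr := Nat.prime_of_mem_primeFactors hr
      have hpair : ({p, r} : Finset ℕ) ⊆ N.primeFactors := by
        intro x hx
        simp only [Finset.mem_insert, Finset.mem_singleton] at hx
        rcases hx with rfl | rfl
        · exact Nat.mem_primeFactors.mpr ⟨hp, hpd, hN0⟩
        · assumption
      have h1 : ∏ x ∈ ({p, r} : Finset ℕ), x ^ (padicValNat x N) ≤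
          ∏ x ∈ N.primeFactors, x ^ (padicValNat x N) := by
        apply Finset.prod_le_prod_of_subset_of_one_le' hpair
        intro x hx _
        exact Nat.one_le_pow _ _ (Nat.prime_of_mem_primeFactors hx).pos
      rw [prod_fac hN0, Finset.prod_pair (Ne.symm hrp)] at h1
      exact le_trans (hall r hrpr (Nat.dvd_of_mem_primeFactors hr)) h1
    -- the minimal W
    have hmW : ∀ i, 1 < b → m ≤ W i := by
      intro i hb1
      -- W i ≠ 1, so it is at least some prime power
      exact hd.minW i m (fun x hx hxd => by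
        have hmem : x ∈ N.primeFactors := Nat.mem_primeFactors.mpr ⟨hx, hxd, hN0⟩
        exact hmin x hmem) (W_ne_one hd hb1 i)
    have hbcase : (b.den = 1 ∧ 6 ≤ b) ∨ (19 / 3 ≤ b) := by
      by_cases h1 : b.den = 1
      · left
        refine ⟨h1, ?_⟩
        have h2 := hden1 h1
        have h3 : b = N := by rw [← hbD, h1]; simp
        rw [h3]; exact_mod_cast h2
      · right
        have h2 := hNbig h1
        have h3 : 3 ≤ b.den := by
          have := b.den_pos
          omega
        have h4 : b = N / b.den := by rw [← hbD]; field_simp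
        rw [h4, div_le_div_iff₀ (by norm_num) (by linarith)]
        rcases Nat.eq_or_lt_of_le h3 with h5 | h5
        · -- den = 3
          have h6 : ¬ 3 ∣ N := by
            intro h7
            have h8 : 3 ∣ 1 := by
              rw [← b.reduced]; exact Nat.dvd_gcd h7 (by rw [← h5])
            omega
          have h9 : 19 ≤ N := by
            rw [← h5] at h2
            by_contra hc
            have : N = 18 := by omega
            apply h6
            rw [this]; norm_num
          rw [← h5]
          have : (19:ℚ) ≤ N := by exact_mod_cast h9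
          push_cast
          linarith
        · have h6 : 19 * b.den ≤ N * 3 := by nlinarith
          exact_mod_cast h6
    have hb6 : 6 ≤ b := by rcases hbcase with h1 | h1 <;> linarith [h1]
    apply crit_large hd hb6 (m := m) (q := q) (fun i => hmW i (by linarith)) (by omega)
      (hd.hit p hp hpd)
    have hmqr : 2 * (b.den : ℚ) ^ 2 ≤ (m : ℚ) * q := by
      have : 2 * b.den ^ 2 ≤ m * q := by rw [mul_comm m q]; exact hmq
      exact_mod_cast this
    rcases hbcase with ⟨h1, h2⟩ | h1
    · have h3 : (4:ℚ) ≤ (m : ℚ) * q := by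
        have : 4 ≤ m * q := by nlinarith
        exact_mod_cast this
      rw [h1]
      have h4 : b ^ 4 ≤ 4 * (b - 1) ^ 4 := by
        have h5 : b ≤ 6 / 5 * (b - 1) := by linarith
        have h6 : b ^ 4 ≤ (6 / 5 * (b - 1)) ^ 4 := pow_le_pow_left₀ (by linarith) h5 4
        have h7 : 0 ≤ (b - 1) ^ 4 := by positivity
        nlinarith
      have h7 : 0 ≤ (b - 1) ^ 4 := by positivity
      push_cast
      nlinarith
    · have h4 : b ^ 4 ≤ 2 * (b - 1) ^ 4 := by
        have h5 : b ≤ 19 / 16 * (b - 1) := by linarith
        have h6 : b ^ 4 ≤ (19 / 16 * (b - 1)) ^ 4 := pow_le_pow_left₀ (by linarith) h5 4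
        have h7 : 0 ≤ (b - 1) ^ 4 := by positivity
        nlinarith
      have h7 : 0 ≤ (b - 1) ^ 4 := by positivity
      have h8 : (b.den : ℚ) ^ 2 * b ^ 4 ≤ (b.den : ℚ) ^ 2 * (2 * (b - 1) ^ 4) :=
        mul_le_mul_of_nonneg_left h4 (by positivity)
      nlinarith
  rcases h with h1 | h1 | h1 | h1 | h1 | h1 | h1 | h1
  · exact hv2 h1
  · exact hv3 h1
  · exact hv5 h1
  · exact hcard1 h1
  · rw [abs_of_pos hb] at h1
    exact hnt (case_two_primes C h1.1 h1.2)
  · -- num ≥ den^5
    by_cases hone : b.den = 1
    · apply hlargeq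
      obtain ⟨p, hp⟩ := Finset.card_pos.mp (show 0 < N.primeFactors.card by omega)
      have hpp := Nat.prime_of_mem_primeFactors hp
      have hge : ∀ x, x.Prime → x ∣ N → 2 ≤ x ^ (padicValNat x N) := by
        intro x hx hxd
        have : Fact x.Prime := ⟨hx⟩
        have h3 : 1 ≤ padicValNat x N := one_le_padicValNat_of_dvd hN0 hxd
        exact le_trans hx.two_le (Nat.le_self_pow (by omega) x)
      refine ⟨p, hpp, Nat.dvd_of_mem_primeFactors hp, ?_⟩
      intro p' hp' hpd'
      rw [hone]
      have a := hge p hpp (Nat.dvd_of_mem_primeFactors hp)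
      have c := hge p' hp' hpd'
      nlinarith
    · have h3 : 3 ≤ b.den := by
        have := b.den_pos
        omega
      apply crit_num hd _ h1
      have h4 : b = N / b.den := by rw [← hbD]; field_simp
      rw [h4, le_div_iff₀ (by linarith)]
      have h5 : 81 * b.den ≤ N := by
        calc 81 * b.den = 3 ^ 4 * b.den := by norm_num
          _ ≤ b.den ^ 4 * b.den := Nat.mul_le_mul_right _ (Nat.pow_le_pow_left h3 4)
          _ = b.den ^ 5 := by ring
          _ ≤ N := h1
      exact_mod_cast h5
  · exact crit_den hd h1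
  · exact hlargeq h1

end Pool.Agent.Helper905.Manes
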