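import Mathlib
import Pool.Agent.Helper905.Manes.Defs
import Pool.Agent.Helper905.Manes.Final
import Pool.Agent.Helper905.Manes.Count

namespace Pool.Agent.Helper905.Manes

theorem Good.neg {b : ℚ} (h : Good b) : Good (-b) := by
  unfold Good at *
  simp only [padicValRat.neg, Rat.neg_num, Int.natAbs_neg, Rat.neg_den, abs_neg]
  exact h


theorem f_none (b c : ℚ) : f b c none = none := rfl

theorem f_zero (b c : ℚ) : f b c (some 0) = none := by simp [f]

theorem f_some (b c : ℚ) {x : ℚ} (hx : x ≠ 0) : f b c (some x) = some (b * x + c / x) := by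
  simp [f, hx]

theorem iter_none (b c : ℚ) (k : ℕ) : (f b c)^[k] none = none := by
  induction k with
  | zero => rfl
  | succ k ih => rw [Function.iterate_succ_apply, f_none, ih]

theorem main_any {b : ℚ} {u s : ℕ → ℚ} {n : ℕ} (C : Cyc b u s n)
    (h : 0 < b * u 0 ∨ Good b) : ∀ i, s i * s (i + 1) * (s (i + 2) * s (i + 3)) = 1 := by
  rcases lt_or_gt_of_ne C.hb with hb | hb
  · have C' := C.neg
    have h' : 0 < (fun i => - u i) 0 ∨ Good (-b) := by
      rcases h with h | h
      · left
        show 0 < - u 0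
        have : u 0 < 0 := by
          by_contra hc
          push Not at hc
          nlinarith
        linarith
      · right; exact h.neg
    have hm := main_pos C' (by linarith) h'
    intro i
    have := hm i
    linarith
  · apply main_pos C hb
    rcases h with h | h
    · left
      by_contra hc
      push Not at hc
      nlinarith
    · right; exact h

theorem period_of_four {b c : ℚ} {P : Option ℚ} (h4 : (f b c)^[4] P = P) :
    Function.minimalPeriod (f b c) P = 1 ∨ Function.minimalPeriod (f b c) P = 2 ∨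
      Function.minimalPeriod (f b c) P = 4 := by
  have hd : Function.minimalPeriod (f b c) P ∣ 4 :=
    Function.IsPeriodicPt.minimalPeriod_dvd h4
  have h5 : Function.minimalPeriod (f b c) P ≤ 4 := Nat.le_of_dvd (by norm_num) hd
  interval_cases hm : Function.minimalPeriod (f b c) P
  · omega
  · left; rfl
  · right; left; rfl
  · omega
  · right; right; rfl

/-- the cycle attached to a periodic point -/
theorem cyc_of_periodic {b c : ℚ} (hb : b ≠ 0) (hc : c ≠ 0) {P : Option ℚ}
    (hP : P ∈ Function.periodicPts (f b c)) : (f b c)^[4] P = P ∨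
    ∃ (u s : ℕ → ℚ) (n : ℕ), Cyc b u s n ∧ (0 < b * c → 0 < b * u 0) ∧
      ((∀ i, s i * s (i + 1) * (s (i + 2) * s (i + 3)) = 1) → (f b c)^[4] P = P) := by
  obtain ⟨n, hn, hPn⟩ := hP
  have hPn' : (f b c)^[n] P = P := hPn
  rcases P with _ | x0
  · left
    exact iter_none b c 4
  right
  -- every point of the orbit is a non-zero rational
  have hne : ∀ i, ∃ y : ℚ, y ≠ 0 ∧ (f b c)^[i] (some x0) = some y := by
    intro i
    -- otherwise the orbit would end in infinity
    have hnn : ∀ j, (f b c)^[j] (some x0) ≠ none := by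
      intro j hj
      have h1 : (f b c)^[n * j] (some x0) = some x0 := by
        have : Function.IsPeriodicPt (f b c) (n * j) (some x0) := by
          exact Function.IsPeriodicPt.mul_const hPn j
        exact this
      have h2 : j ≤ n * j := by nlinarith [Nat.mul_le_mul_right j hn]
      obtain ⟨k, hk⟩ := Nat.exists_eq_add_of_le h2
      rw [hk, Nat.add_comm, Function.iterate_add_apply, hj, iter_none] at h1
      exact absurd h1 (by simp)
    cases hy : (f b c)^[i] (some x0) with
    | none => exact absurd hy (hnn i)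
    | some y =>
      refine ⟨y, ?_, rfl⟩
      intro hy0
      apply hnn (i + 1)
      rw [Function.iterate_succ_apply', hy, hy0, f_zero]
  choose x hx0 hx using hne
  have hstep : ∀ i, x (i + 1) = b * x i + c / x i := by
    intro i
    have h1 := hx (i + 1)
    rw [Function.iterate_succ_apply', hx i, f_some b c (hx0 i)] at h1
    exact (Option.some.inj h1).symm
  have hxper : ∀ i, x (i + n) = x i := by
    intro i
    have h1 := hx (i + n)
    rw [Function.iterate_add_apply, hPn', hx i] at h1
    exact (Option.some.inj h1).symm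
  have hsx : ∀ i, x (i + 1) = (b + c / x i ^ 2) * x i := by
    intro i
    rw [hstep]
    have := hx0 i
    field_simp
  refine ⟨fun i => c / x i ^ 2, fun i => b + c / x i ^ 2, n, ?_, ?_, ?_⟩
  · refine ⟨hn, hb, fun i => rfl, ?_, ?_, ?_, ?_⟩
    · intro i
      show c / x (i + 1) ^ 2 = c / x i ^ 2 / (b + c / x i ^ 2) ^ 2
      rw [hsx i, mul_pow, div_div, mul_comm]
    · intro i
      show c / x (i + n) ^ 2 = c / x i ^ 2
      rw [hxper]
    · intro i
      exact div_ne_zero hc (pow_ne_zero 2 (hx0 i))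
    · intro i h1
      apply hx0 (i + 1)
      rw [hsx i]
      show (b + c / x i ^ 2) * x i = 0
      have h2 : b + c / x i ^ 2 = 0 := h1
      rw [h2, zero_mul]
  · intro h
    show 0 < b * (c / x 0 ^ 2)
    have : b * (c / x 0 ^ 2) = b * c / x 0 ^ 2 := by ring
    rw [this]
    have := hx0 0
    positivity
  · intro hm
    have hm0 := hm 0
    have h4 : x 4 = x 0 := by
      have a0 := hsx 0
      have a1 := hsx 1
      have a2 := hsx 2
      have a3 := hsx 3
      simp only [Nat.zero_add, Nat.reduceAdd] at a0 a1 a2 a3 hm0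
      rw [a3, a2, a1, a0]
      rw [a2, a1, a0] at hm0
      linear_combination (x 0) * hm0
    rw [hx 4, h4]
    have h0 := hx 0
    rw [Function.iterate_zero, id] at h0
    exact h0.symm


theorem part_one (b c : ℚ) (hb : b ≠ 0) (hc : c ≠ 0) (h : 0 < b * c ∨ Good b)
    (P : Option ℚ) (hP : P ∈ Function.periodicPts (f b c)) :
    Function.minimalPeriod (f b c) P = 1 ∨ Function.minimalPeriod (f b c) P = 2 ∨
      Function.minimalPeriod (f b c) P = 4 := by
  apply period_of_four
  rcases cyc_of_periodic hb hc hP with h4 | ⟨u, s, n, C, hpos, himp⟩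
  · exact h4
  · apply himp
    apply main_any C
    rcases h with h | h
    · left; exact hpos h
    · right; exact h

theorem exceptional_mem {b : ℚ} (h : Exceptional b) :
    b ∈ (index b.num.natAbs).image (cand b.num.natAbs) := by
  obtain ⟨hb, c, hc, P, hP, hnot⟩ := h
  rcases cyc_of_periodic hb hc hP with h4 | ⟨u, s, n, C, hpos, himp⟩
  · exact absurd (period_of_four h4) hnot
  · apply mem_cand C
    intro hall
    exact hnot (period_of_four (himp (four_of_abs C hall)))

/-- few exceptional `b` with a given numerator -/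
theorem part_two {ε : ℝ} (hε : 0 < ε) : ∃ C : ℝ, 1 ≤ C ∧ ∀ N : ℕ, 1 ≤ N →
    {b : ℚ | Exceptional b ∧ b.num.natAbs = N}.Finite ∧
    ({b : ℚ | Exceptional b ∧ b.num.natAbs = N}.ncard : ℝ) ≤ C * (N : ℝ) ^ ε := by
  obtain ⟨C, hC, h⟩ := sup3_card (ε := ε / 5) (by linarith)
  refine ⟨4 * C ^ 5, by nlinarith [one_le_pow₀ (n := 5) hC], ?_⟩
  intro N hN
  have hNpos : (0:ℝ) < N := by exact_mod_cast hN
  have hsub : {b : ℚ | Exceptional b ∧ b.num.natAbs = N} ⊆
      (((index N).image (cand N) : Finset ℚ) : Set ℚ) := by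
    intro b hb
    have := exceptional_mem hb.1
    rw [hb.2] at this
    exact this
  refine ⟨(Finset.finite_toSet _).subset hsub, ?_⟩
  have h1 : {b : ℚ | Exceptional b ∧ b.num.natAbs = N}.ncard ≤ 4 * (sup3 N).card ^ 5 := by
    calc {b : ℚ | Exceptional b ∧ b.num.natAbs = N}.ncard
        ≤ (((index N).image (cand N) : Finset ℚ) : Set ℚ).ncard :=
          Set.ncard_le_ncard hsub (Finset.finite_toSet _)
      _ = ((index N).image (cand N)).card := Set.ncard_coe_finset _
      _ ≤ (index N).card := Finset.card_image_le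
      _ = _ := index_card N
  calc ({b : ℚ | Exceptional b ∧ b.num.natAbs = N}.ncard : ℝ)
      ≤ ((4 * (sup3 N).card ^ 5 : ℕ) : ℝ) := by exact_mod_cast h1
    _ = 4 * ((sup3 N).card : ℝ) ^ 5 := by push_cast; ring
    _ ≤ 4 * (C * (N : ℝ) ^ (ε / 5)) ^ 5 := by
        apply mul_le_mul_of_nonneg_left _ (by norm_num)
        exact pow_le_pow_left₀ (by positivity) (h N hN) 5
    _ = 4 * C ^ 5 * (N : ℝ) ^ ε := by
        rw [mul_pow, ← Real.rpow_natCast ((N : ℝ) ^ (ε / 5)), ← Real.rpow_mul hNpos.le]
        have : ε / 5 * ((5 : ℕ) : ℝ) = ε := by push_cast; ring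
        rw [this]
        ring

/-- few exceptional `b` with bounded numerator -/
theorem part_three {ε : ℝ} (hε : 0 < ε) : ∃ C : ℝ, 1 ≤ C ∧ ∀ H : ℕ,
    {b : ℚ | Exceptional b ∧ b.num.natAbs ≤ H}.Finite ∧
    ({b : ℚ | Exceptional b ∧ b.num.natAbs ≤ H}.ncard : ℝ) ≤ C * (H : ℝ) ^ (1 + ε) := by
  obtain ⟨C, hC, h⟩ := part_two hε
  refine ⟨C, hC, ?_⟩
  intro H
  have heq : {b : ℚ | Exceptional b ∧ b.num.natAbs ≤ H} =
      ⋃ N ∈ Finset.Icc 1 H, {b : ℚ | Exceptional b ∧ b.num.natAbs = N} := by
    ext b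
    simp only [Set.mem_setOf_eq, Set.mem_iUnion, Finset.mem_Icc, exists_prop]
    constructor
    · rintro ⟨h1, h2⟩
      refine ⟨b.num.natAbs, ⟨?_, h2⟩, h1, rfl⟩
      have : b.num.natAbs ≠ 0 := by simpa using h1.1
      omega
    · rintro ⟨N, ⟨_, h2⟩, h3, h4⟩
      exact ⟨h3, by omega⟩
  have hfin : {b : ℚ | Exceptional b ∧ b.num.natAbs ≤ H}.Finite := by
    rw [heq]
    apply Set.Finite.biUnion (Finset.finite_toSet _)
    intro N hN
    have hN' := Finset.mem_coe.mp hN
    exact (h N (Finset.mem_Icc.mp hN').1).1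
  refine ⟨hfin, ?_⟩
  have hcard : ({b : ℚ | Exceptional b ∧ b.num.natAbs ≤ H}.ncard : ℝ) ≤
      ∑ N ∈ Finset.Icc 1 H, ({b : ℚ | Exceptional b ∧ b.num.natAbs = N}.ncard : ℝ) := by
    have h1 : {b : ℚ | Exceptional b ∧ b.num.natAbs ≤ H}.ncard ≤
        ∑ N ∈ Finset.Icc 1 H, {b : ℚ | Exceptional b ∧ b.num.natAbs = N}.ncard := by
      rw [heq]
      exact Finset.set_ncard_biUnion_le _ _
    exact_mod_cast h1
  rcases Nat.eq_zero_or_pos H with hH | hH
  · subst hH
    have : Finset.Icc 1 0 = (∅ : Finset ℕ) := by simp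
    rw [this, Finset.sum_empty] at hcard
    refine le_trans hcard ?_
    positivity
  have hHpos : (0:ℝ) < H := by exact_mod_cast hH
  calc ({b : ℚ | Exceptional b ∧ b.num.natAbs ≤ H}.ncard : ℝ)
      ≤ ∑ N ∈ Finset.Icc 1 H, ({b : ℚ | Exceptional b ∧ b.num.natAbs = N}.ncard : ℝ) := hcard
    _ ≤ ∑ N ∈ Finset.Icc 1 H, C * (H : ℝ) ^ ε := by
        apply Finset.sum_le_sum
        intro N hN
        obtain ⟨h1, h2⟩ := Finset.mem_Icc.mp hN
        refine le_trans (h N h1).2 ?_
        apply mul_le_mul_of_nonneg_left _ (by linarith)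
        exact Real.rpow_le_rpow (by positivity) (by exact_mod_cast h2) hε.le
    _ = C * (H : ℝ) ^ (1 + ε) := by
        rw [Finset.sum_const, Nat.card_Icc, nsmul_eq_mul, Real.rpow_add hHpos, Real.rpow_one,
          Nat.add_sub_cancel]
        ring

end Pool.Agent.Helper905.Manes
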