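import Mathlib
import Pool.Agent.Helper905.Manes.Defs
import Pool.Agent.Helper905.Manes.Wrap2

namespace Pool.Agent.Helper905.Manes

theorem sum_inv_sq (H : ℕ) (hH : 2 ≤ H) :
    ∑ k ∈ Finset.Icc 2 H, (1 : ℝ) / (k : ℝ) ^ 2 ≤ 3 / 4 - 1 / H := by
  induction H, hH using Nat.le_induction with
  | base =>
    simp only [Finset.Icc_self, Finset.sum_singleton]
    norm_num
  | succ H hH ih =>
    rw [Finset.sum_Icc_succ_top (by omega)]
    have h1 : (0:ℝ) < H := by positivity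
    have h2 : (1 : ℝ) / ((H + 1 : ℕ) : ℝ) ^ 2 ≤ 1 / H - 1 / ((H + 1 : ℕ) : ℝ) := by
      push_cast
      rw [div_sub_div _ _ h1.ne' (by positivity), div_le_div_iff₀ (by positivity) (by positivity)]
      nlinarith
    linarith

/-- at least a quarter of all pairs are coprime -/
theorem coprime_pairs (H : ℕ) :
    (H : ℝ) ^ 2 ≤ 4 * ((((Finset.Ioc 0 H) ×ˢ (Finset.Ioc 0 H)).filter
      (fun p => Nat.Coprime p.1 p.2)).card : ℝ) := by
  set A := (Finset.Ioc 0 H) ×ˢ (Finset.Ioc 0 H) with hA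
  have hAc : A.card = H ^ 2 := by
    rw [hA, Finset.card_product, Nat.card_Ioc, Nat.sub_zero, sq]
  have hsplit := Finset.card_filter_add_card_filter_not (s := A)
    (fun p : ℕ × ℕ => Nat.Coprime p.1 p.2)
  rw [hAc] at hsplit
  have hsub : A.filter (fun p => ¬ Nat.Coprime p.1 p.2) ⊆
      (Finset.Icc 2 H).biUnion (fun k => ((Finset.Ioc 0 H).filter (fun x => k ∣ x)) ×ˢ
        ((Finset.Ioc 0 H).filter (fun x => k ∣ x))) := by
    intro p hp
    rw [Finset.mem_filter, hA, Finset.mem_product] at hp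
    obtain ⟨⟨h1, h2⟩, h3⟩ := hp
    rw [Finset.mem_biUnion]
    refine ⟨Nat.gcd p.1 p.2, ?_, ?_⟩
    · rw [Finset.mem_Icc]
      rw [Finset.mem_Ioc] at h1
      have h4 : Nat.gcd p.1 p.2 ≤ p.1 := Nat.gcd_le_left _ h1.1
      have h5 : 0 < Nat.gcd p.1 p.2 := Nat.gcd_pos_of_pos_left _ h1.1
      have h6 : Nat.gcd p.1 p.2 ≠ 1 := h3
      omega
    · rw [Finset.mem_product, Finset.mem_filter, Finset.mem_filter]
      exact ⟨⟨h1, Nat.gcd_dvd_left _ _⟩, ⟨h2, Nat.gcd_dvd_right _ _⟩⟩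
  have hle : (((A.filter (fun p => ¬ Nat.Coprime p.1 p.2)).card : ℕ) : ℝ) ≤ 3 / 4 * (H : ℝ) ^ 2 := by
    have h1 : (A.filter (fun p => ¬ Nat.Coprime p.1 p.2)).card ≤
        ∑ k ∈ Finset.Icc 2 H, (H / k) ^ 2 := by
      refine le_trans (Finset.card_le_card hsub) (le_trans Finset.card_biUnion_le ?_)
      apply le_of_eq
      apply Finset.sum_congr rfl
      intro k _
      rw [Finset.card_product, Nat.Ioc_filter_dvd_card_eq_div, sq]
    rcases Nat.lt_or_ge H 2 with hH | hH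
    · have h2 : Finset.Icc 2 H = ∅ := Finset.Icc_eq_empty (by omega)
      rw [h2, Finset.sum_empty] at h1
      have h3 : (A.filter (fun p => ¬ Nat.Coprime p.1 p.2)).card = 0 := by omega
      rw [h3, Nat.cast_zero]
      positivity
    · calc (((A.filter (fun p => ¬ Nat.Coprime p.1 p.2)).card : ℕ) : ℝ)
          ≤ ((∑ k ∈ Finset.Icc 2 H, (H / k) ^ 2 : ℕ) : ℝ) := by exact_mod_cast h1
        _ = ∑ k ∈ Finset.Icc 2 H, (((H / k : ℕ) : ℝ)) ^ 2 := by push_cast; rfl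
        _ ≤ ∑ k ∈ Finset.Icc 2 H, (H : ℝ) ^ 2 * (1 / (k : ℝ) ^ 2) := by
            apply Finset.sum_le_sum
            intro k hk
            have hk2 := (Finset.mem_Icc.mp hk).1
            have hkpos : (0:ℝ) < k := by positivity
            have h4 : ((H / k : ℕ) : ℝ) ≤ (H : ℝ) / k := Nat.cast_div_le
            calc (((H / k : ℕ) : ℝ)) ^ 2 ≤ ((H : ℝ) / k) ^ 2 :=
                  pow_le_pow_left₀ (by positivity) h4 2
              _ = _ := by rw [div_pow]; ring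
        _ = (H : ℝ) ^ 2 * ∑ k ∈ Finset.Icc 2 H, (1 / (k : ℝ) ^ 2) := by rw [Finset.mul_sum]
        _ ≤ (H : ℝ) ^ 2 * (3 / 4) := by
            apply mul_le_mul_of_nonneg_left _ (by positivity)
            have := sum_inv_sq H hH
            have h5 : (0:ℝ) ≤ 1 / H := by positivity
            linarith
        _ = _ := by ring
  have hsplit' : (((A.filter (fun p => Nat.Coprime p.1 p.2)).card : ℕ) : ℝ) +
      (((A.filter (fun p => ¬ Nat.Coprime p.1 p.2)).card : ℕ) : ℝ) = (H : ℝ) ^ 2 := by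
    exact_mod_cast hsplit
  linarith


theorem box_finite (H : ℕ) : (Box H).Finite := by
  apply Set.Finite.subset (Set.Finite.image (fun p : ℤ × ℤ => ((p.1 : ℚ) / (p.2 : ℚ)))
    (Set.Finite.prod (Set.finite_Icc (-(H : ℤ)) H) (Set.finite_Icc (0 : ℤ) H)))
  rintro b ⟨h0, h1, h2⟩
  refine ⟨(b.num, (b.den : ℤ)), ⟨?_, ?_⟩, ?_⟩
  · simp only [Set.mem_Icc]
    omega
  · simp only [Set.mem_Icc]
    omega
  · simp only
    push_cast
    exact Rat.num_div_den b

theorem box_card (H : ℕ) : (H : ℝ) ^ 2 ≤ 4 * ((Box H).ncard : ℝ) := by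
  refine le_trans (coprime_pairs H) ?_
  apply mul_le_mul_of_nonneg_left _ (by norm_num)
  set T := ((Finset.Ioc 0 H) ×ˢ (Finset.Ioc 0 H)).filter (fun p => Nat.Coprime p.1 p.2) with hT
  have hnd : ∀ p ∈ T, (((p.1 : ℤ) : ℚ) / ((p.2 : ℤ) : ℚ)).num = (p.1 : ℤ) ∧
      (((((p.1 : ℤ) : ℚ) / ((p.2 : ℤ) : ℚ)).den : ℕ) : ℤ) = (p.2 : ℤ) ∧
      0 < p.1 ∧ p.1 ≤ H ∧ 0 < p.2 ∧ p.2 ≤ H := by
    intro p hp
    rw [hT, Finset.mem_filter, Finset.mem_product, Finset.mem_Ioc, Finset.mem_Ioc] at hp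
    obtain ⟨⟨h1, h2⟩, h3⟩ := hp
    have hpos : (0:ℤ) < (p.2 : ℤ) := by exact_mod_cast h2.1
    have hc : Nat.Coprime (p.1 : ℤ).natAbs (p.2 : ℤ).natAbs := by simpa using h3
    exact ⟨Rat.num_div_eq_of_coprime hpos hc, Rat.den_div_eq_of_coprime hpos hc,
      h1.1, h1.2, h2.1, h2.2⟩
  let φ : ℕ × ℕ → ℚ := fun p => ((p.1 : ℤ) : ℚ) / ((p.2 : ℤ) : ℚ)
  have hinj : Set.InjOn φ (T : Set (ℕ × ℕ)) := by
    intro p hp q hq hpq
    obtain ⟨a1, a2, _⟩ := hnd p (Finset.mem_coe.mp hp)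
    obtain ⟨c1, c2, _⟩ := hnd q (Finset.mem_coe.mp hq)
    simp only [φ] at hpq
    rw [hpq] at a1 a2
    apply Prod.ext
    · have := a1.symm.trans c1
      exact_mod_cast this
    · have := a2.symm.trans c2
      exact_mod_cast this
  have h1 : (T.image φ).card = T.card := Finset.card_image_of_injOn hinj
  have h2 : ((T.image φ : Finset ℚ) : Set ℚ) ⊆ Box H := by
    intro b hb
    rw [Finset.mem_coe, Finset.mem_image] at hb
    obtain ⟨p, hp, rfl⟩ := hb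
    obtain ⟨a1, a2, a3, a4, a5, a6⟩ := hnd p hp
    refine ⟨?_, ?_, ?_⟩
    · simp only [φ]
      have : (0:ℚ) < ((p.1 : ℤ) : ℚ) / ((p.2 : ℤ) : ℚ) := by
        apply div_pos
        · exact_mod_cast a3
        · exact_mod_cast a5
      exact this.ne'
    · simp only [φ]
      rw [a1]
      simpa using a4
    · simp only [φ]
      have : (((((p.1 : ℤ) : ℚ) / ((p.2 : ℤ) : ℚ)).den : ℕ) : ℤ) ≤ (H : ℤ) := by
        rw [a2]; exact_mod_cast a6
      exact_mod_cast this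
  have h3 : T.card ≤ (Box H).ncard := by
    calc T.card = (T.image φ).card := h1.symm
      _ = ((T.image φ : Finset ℚ) : Set ℚ).ncard := (Set.ncard_coe_finset _).symm
      _ ≤ (Box H).ncard := Set.ncard_le_ncard h2 (box_finite H)
  exact_mod_cast h3

/-- the exceptional numbers have density zero -/
theorem density_zero : Filter.Tendsto
    (fun H : ℕ => ((Box H ∩ {b : ℚ | Exceptional b}).ncard : ℝ) / ((Box H).ncard : ℝ))
    Filter.atTop (nhds 0) := by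
  obtain ⟨C, hC, h⟩ := part_three (ε := 1 / 2) (by norm_num)
  have hlim : Filter.Tendsto (fun H : ℕ => (4 * C) * ((H : ℝ) ^ (-(1 / 2 : ℝ)))) Filter.atTop
      (nhds 0) := by
    have h1 := (tendsto_rpow_neg_atTop (y := (1 / 2 : ℝ)) (by norm_num)).comp
      (tendsto_natCast_atTop_atTop (R := ℝ))
    have h2 := h1.const_mul (4 * C)
    rw [mul_zero] at h2
    exact h2
  refine squeeze_zero' (Filter.Eventually.of_forall (fun H => by positivity)) ?_ hlim
  filter_upwards [Filter.eventually_ge_atTop 1] with H hH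
  have hHpos : (0:ℝ) < H := by exact_mod_cast hH
  have hb := box_card H
  have hbpos : (0:ℝ) < ((Box H).ncard : ℝ) := by
    have : (0:ℝ) < (H : ℝ) ^ 2 := by positivity
    linarith
  rw [div_le_iff₀ hbpos]
  have h1 : ((Box H ∩ {b : ℚ | Exceptional b}).ncard : ℝ) ≤ C * (H : ℝ) ^ (1 + 1 / 2 : ℝ) := by
    refine le_trans ?_ (h H).2
    have : (Box H ∩ {b : ℚ | Exceptional b}).ncard ≤
        {b : ℚ | Exceptional b ∧ b.num.natAbs ≤ H}.ncard := by
      apply Set.ncard_le_ncard _ (h H).1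
      rintro b ⟨⟨_, h2, _⟩, h3⟩
      exact ⟨h3, h2⟩
    exact_mod_cast this
  have h2 : C * (H : ℝ) ^ (1 + 1 / 2 : ℝ) = (C * (H : ℝ) ^ (-(1 / 2 : ℝ))) * (H : ℝ) ^ 2 := by
    rw [mul_assoc, ← Real.rpow_natCast (H : ℝ) 2, ← Real.rpow_add hHpos]
    norm_num
  rw [h2] at h1
  have h3 : (0:ℝ) ≤ C * (H : ℝ) ^ (-(1 / 2 : ℝ)) := by positivity
  calc ((Box H ∩ {b : ℚ | Exceptional b}).ncard : ℝ)
      ≤ (C * (H : ℝ) ^ (-(1 / 2 : ℝ))) * (H : ℝ) ^ 2 := h1
    _ ≤ (C * (H : ℝ) ^ (-(1 / 2 : ℝ))) * (4 * ((Box H).ncard : ℝ)) :=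
        mul_le_mul_of_nonneg_left hb h3
    _ = _ := by ring

end Pool.Agent.Helper905.Manes
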