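import Mathlib
import Pool.Agent.Helper905.Manes.Defs
import Pool.Agent.Helper905.Manes.Density

namespace Pool.Agent.Helper905.Manes

theorem exists_hit {b : ℚ} {u s : ℕ → ℚ} {n : ℕ} (C : Cyc b u s n) (p : ℕ) [Fact p.Prime]
    (hβ : 0 < padicValRat p b)
    (hB : ∀ i, ¬ (-padicValRat p b < padicValRat p (u i) ∧ padicValRat p (u i) < padicValRat p b)) :
    ∃ i, padicValRat p (u i) = padicValRat p b := by
  by_contra hcon
  push Not at hcon
  have hge : ∀ i, padicValRat p b ≤ padicValRat p (u (i + 1)) := by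
    intro i
    exact (typeB_neg hβ (C.v1 p i) (C.v2 p i) (C.v3 p i) (hB i) (hB (i + 1))).2 (hcon i)
  apply per_lt (fun i => - padicValRat p (u i)) C.hn (fun i => by simp only [C.hper]) 1
  intro i hi
  obtain ⟨j, rfl⟩ : ∃ j, i = j + 1 := ⟨i - 1, by omega⟩
  have h1 := hge j
  have h2 := hcon (j + 1)
  have hv1 := C.v1 p (j + 1)
  have h3 := C.v2 p (j + 1) h2
  rw [min_eq_left h1] at h3
  show - padicValRat p (u (j + 1)) < - padicValRat p (u (j + 1 + 1))
  omega

theorem parity_const {b : ℚ} {u s : ℕ → ℚ} {n : ℕ} (C : Cyc b u s n) (p : ℕ) [Fact p.Prime]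
    (i : ℕ) : ∃ t : ℤ, padicValRat p (u i) = padicValRat p (u 0) - 2 * t := by
  induction i with
  | zero => exact ⟨0, by ring⟩
  | succ i ih =>
    obtain ⟨t, ht⟩ := ih
    refine ⟨t + padicValRat p (s i), ?_⟩
    rw [C.v1 p i, ht]
    ring

/-- a parity condition at one prime -/
theorem parity_case {b : ℚ} {u s : ℕ → ℚ} {n : ℕ} (C : Cyc b u s n) (p : ℕ) [Fact p.Prime]
    (hb : padicValRat p b ≠ 0) (hodd : Odd (padicValRat p b + padicValRat p (u 0))) :
    ∀ i, |s i * s (i + 1)| = 1 := by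
  rcases lt_or_gt_of_ne hb with h | h
  · exfalso
    obtain ⟨h1, h2⟩ := C.v_unit p h.le 0
    have h3 : padicValRat p (u 0) = padicValRat p b := by
      by_contra hne
      have h4 := C.v2 p 0 hne
      rw [min_eq_left h2, h1] at h4
      omega
    rw [h3] at hodd
    obtain ⟨k, hk⟩ := hodd
    omega
  · by_contra hnt
    have hB : ∀ i, ¬ (-padicValRat p b < padicValRat p (u i) ∧
        padicValRat p (u i) < padicValRat p b) := by
      intro i hk
      exact hnt (caseAC C p h i hk)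
    obtain ⟨i, hi⟩ := exists_hit C p h hB
    obtain ⟨t, ht⟩ := parity_const C p i
    obtain ⟨k, hk⟩ := hodd
    omega

/-- the cycle attached to a finite periodic point, with its first entry -/
theorem orbit_full {b c : ℚ} (hb : b ≠ 0) (hc : c ≠ 0) {x0 : ℚ}
    (hP : some x0 ∈ Function.periodicPts (f b c)) : x0 ≠ 0 ∧
    ∃ (u s : ℕ → ℚ) (n : ℕ), Cyc b u s n ∧ u 0 = c / x0 ^ 2 ∧
      ((∀ i, s i * s (i + 1) * (s (i + 2) * s (i + 3)) = 1) →
        (f b c)^[4] (some x0) = some x0) := by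
  obtain ⟨n, hn, hPn⟩ := hP
  have hPn' : (f b c)^[n] (some x0) = some x0 := hPn
  have hne : ∀ i, ∃ y : ℚ, y ≠ 0 ∧ (f b c)^[i] (some x0) = some y := by
    intro i
    have hnn : ∀ j, (f b c)^[j] (some x0) ≠ none := by
      intro j hj
      have h1 : (f b c)^[n * j] (some x0) = some x0 := by
        have : Function.IsPeriodicPt (f b c) (n * j) (some x0) := by
          exact Function.IsPeriodicPt.mul_const hPn j
        exact this
      have h2 : j ≤ n * j := by nlinarith [Nat.mul_le_mul_right j hn]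
      obtain ⟨k, hk⟩ := Nat.exists_eq_add_of_le h2
      rw [hk, Nat.add_comm, Function.iterate_add_apply, hj, iter_none] at h1
      exact absurd h1 (by simp)
    cases hy : (f b c)^[i] (some x0) with
    | none => exact absurd hy (hnn i)
    | some y =>
      refine ⟨y, ?_, rfl⟩
      intro hy0
      apply hnn (i + 1)
      rw [Function.iterate_succ_apply', hy, hy0, f_zero]
  choose x hx0 hx using hne
  have h00 : x 0 = x0 := by
    have := hx 0
    rw [Function.iterate_zero, id] at this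
    exact (Option.some.inj this).symm
  have hstep : ∀ i, x (i + 1) = b * x i + c / x i := by
    intro i
    have h1 := hx (i + 1)
    rw [Function.iterate_succ_apply', hx i, f_some b c (hx0 i)] at h1
    exact (Option.some.inj h1).symm
  have hxper : ∀ i, x (i + n) = x i := by
    intro i
    have h1 := hx (i + n)
    rw [Function.iterate_add_apply, hPn', hx i] at h1
    exact (Option.some.inj h1).symm
  have hsx : ∀ i, x (i + 1) = (b + c / x i ^ 2) * x i := by
    intro i
    rw [hstep]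
    have := hx0 i
    field_simp
  refine ⟨by rw [← h00]; exact hx0 0, fun i => c / x i ^ 2, fun i => b + c / x i ^ 2, n, ?_, ?_, ?_⟩
  · refine ⟨hn, hb, fun i => rfl, ?_, ?_, ?_, ?_⟩
    · intro i
      show c / x (i + 1) ^ 2 = c / x i ^ 2 / (b + c / x i ^ 2) ^ 2
      rw [hsx i, mul_pow, div_div, mul_comm]
    · intro i
      show c / x (i + n) ^ 2 = c / x i ^ 2
      rw [hxper]
    · intro i
      exact div_ne_zero hc (pow_ne_zero 2 (hx0 i))
    · intro i h1
      apply hx0 (i + 1)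
      rw [hsx i]
      show (b + c / x i ^ 2) * x i = 0
      have h2 : b + c / x i ^ 2 = 0 := h1
      rw [h2, zero_mul]
  · show c / x 0 ^ 2 = c / x0 ^ 2
    rw [h00]
  · intro hm
    have hm0 := hm 0
    have h4 : x 4 = x 0 := by
      have a0 := hsx 0
      have a1 := hsx 1
      have a2 := hsx 2
      have a3 := hsx 3
      simp only [Nat.zero_add, Nat.reduceAdd] at a0 a1 a2 a3 hm0
      rw [a3, a2, a1, a0]
      rw [a2, a1, a0] at hm0
      linear_combination (x 0) * hm0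
    rw [hx 4, h4, h00]


theorem fine_of_parity {b c : ℚ} (hb : b ≠ 0) (hc : c ≠ 0) {p : ℕ} (hp : p.Prime)
    (hv : padicValRat p b ≠ 0) (hodd : Odd (padicValRat p (b * c))) : Fine b c := by
  intro P hP
  have : Fact p.Prime := ⟨hp⟩
  apply period_of_four
  rcases P with _ | x0
  · exact iter_none b c 4
  obtain ⟨hx0, u, s, n, C, hu0, himp⟩ := orbit_full hb hc hP
  apply himp
  apply four_of_abs C
  apply parity_case C p hv
  rw [hu0, padicValRat.div hc (pow_ne_zero 2 hx0), padicValRat.pow]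
  rw [padicValRat.mul hb hc] at hodd
  obtain ⟨k, hk⟩ := hodd
  refine ⟨k - padicValRat p x0, ?_⟩
  push_cast
  omega

theorem exceptional_of_not_fine {b c : ℚ} (hb : b ≠ 0) (hc : c ≠ 0) (h : ¬ Fine b c) :
    Exceptional b := by
  simp only [Fine] at h
  push Not at h
  obtain ⟨P, hP, h1, h2, h3⟩ := h
  exact ⟨hb, c, hc, P, hP, by rintro (h4 | h4 | h4) <;> contradiction⟩

/-- the square class of the numerator is restricted by `c` -/
theorem class_of_not_fine {b c : ℚ} (hb : b ≠ 0) (hc : c ≠ 0) (h : ¬ Fine b c) :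
    ∃ g m : ℕ, 1 ≤ m ∧ g ∣ c.num.natAbs * c.den ∧ b.num.natAbs = m ^ 2 * g := by
  have hN0 : b.num.natAbs ≠ 0 := by simpa using hb
  have hK0 : c.num.natAbs * c.den ≠ 0 := Nat.mul_ne_zero (by simpa using hc) c.den_ne_zero
  obtain ⟨g, m, hgm, hsf⟩ := Nat.sq_mul_squarefree b.num.natAbs
  have hm0 : m ≠ 0 := by
    rintro rfl
    rw [zero_pow (by norm_num), zero_mul] at hgm
    exact hN0 hgm.symm
  have hg0 : g ≠ 0 := hsf.ne_zero
  refine ⟨g, m, Nat.pos_of_ne_zero hm0, ?_, hgm.symm⟩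
  have hsub : g.primeFactors ⊆ (c.num.natAbs * c.den).primeFactors := by
    intro p hp
    have hpp := Nat.prime_of_mem_primeFactors hp
    have : Fact p.Prime := ⟨hpp⟩
    have hpg := Nat.dvd_of_mem_primeFactors hp
    rw [Nat.mem_primeFactors]
    refine ⟨hpp, ?_, hK0⟩
    by_contra hnd
    apply h
    have hpN : p ∣ b.num.natAbs := by
      rw [← hgm]; exact dvd_mul_of_dvd_right hpg _
    have hvg : padicValNat p g = 1 := by
      have h1 : 1 ≤ padicValNat p g := one_le_padicValNat_of_dvd hg0 hpg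
      have h2 : padicValNat p g ≤ 1 := by
        by_contra h3
        push Not at h3
        have h4 : p ^ 2 ∣ g := (padicValNat_dvd_iff_le hg0).mpr h3
        rw [sq] at h4
        have := hsf p h4
        exact hpp.one_lt.ne' (Nat.isUnit_iff.mp this)
      omega
    have hvb : padicValRat p b = (2 * padicValNat p m + 1 : ℕ) := by
      rw [val_of_dvd hpp hpN, ← hgm, padicValNat.mul (pow_ne_zero 2 hm0) hg0, padicValNat.pow, hvg]
    have hvc : padicValRat p c = 0 := by
      have h1 : ¬ p ∣ c.num.natAbs := fun h2 => hnd (dvd_mul_of_dvd_left h2 _)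
      have h2 : ¬ p ∣ c.den := fun h2 => hnd (dvd_mul_of_dvd_right h2 _)
      rw [padicValRat, padicValInt, padicValNat.eq_zero_of_not_dvd h1,
        padicValNat.eq_zero_of_not_dvd h2]
      simp
    apply fine_of_parity hb hc hpp
    · rw [hvb]
      exact_mod_cast (by omega : 2 * padicValNat p m + 1 ≠ 0)
    · rw [padicValRat.mul hb hc, hvb, hvc, add_zero]
      exact ⟨padicValNat p m, by push_cast; ring⟩
  calc g = ∏ p ∈ g.primeFactors, p := (Nat.prod_primeFactors_of_squarefree hsf).symm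
    _ ∣ ∏ p ∈ (c.num.natAbs * c.den).primeFactors, p := Finset.prod_dvd_prod_of_subset _ _ _ hsub
    _ ∣ _ := Nat.prod_primeFactors_dvd _

/-- the square class of the denominator is restricted by `c` -/
theorem class_den_of_not_fine {b c : ℚ} (hb : b ≠ 0) (hc : c ≠ 0) (h : ¬ Fine b c) :
    ∃ g m : ℕ, 1 ≤ m ∧ g ∣ c.num.natAbs * c.den ∧ b.den = m ^ 2 * g := by
  have hN0 : b.den ≠ 0 := b.den_ne_zero
  have hK0 : c.num.natAbs * c.den ≠ 0 := Nat.mul_ne_zero (by simpa using hc) c.den_ne_zero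
  obtain ⟨g, m, hgm, hsf⟩ := Nat.sq_mul_squarefree b.den
  have hm0 : m ≠ 0 := by
    rintro rfl
    rw [zero_pow (by norm_num), zero_mul] at hgm
    exact hN0 hgm.symm
  have hg0 : g ≠ 0 := hsf.ne_zero
  refine ⟨g, m, Nat.pos_of_ne_zero hm0, ?_, hgm.symm⟩
  have hsub : g.primeFactors ⊆ (c.num.natAbs * c.den).primeFactors := by
    intro p hp
    have hpp := Nat.prime_of_mem_primeFactors hp
    have : Fact p.Prime := ⟨hpp⟩
    have hpg := Nat.dvd_of_mem_primeFactors hp
    rw [Nat.mem_primeFactors]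
    refine ⟨hpp, ?_, hK0⟩
    by_contra hnd
    apply h
    have hpD : p ∣ b.den := by
      rw [← hgm]; exact dvd_mul_of_dvd_right hpg _
    have hvg : padicValNat p g = 1 := by
      have h1 : 1 ≤ padicValNat p g := one_le_padicValNat_of_dvd hg0 hpg
      have h2 : padicValNat p g ≤ 1 := by
        by_contra h3
        push Not at h3
        have h4 : p ^ 2 ∣ g := (padicValNat_dvd_iff_le hg0).mpr h3
        rw [sq] at h4
        have := hsf p h4
        exact hpp.one_lt.ne' (Nat.isUnit_iff.mp this)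
      omega
    have hvb : padicValRat p b = - ((2 * padicValNat p m + 1 : ℕ) : ℤ) := by
      have h3 : ¬ p ∣ b.num.natAbs := by
        intro h2
        have h4 : p ∣ 1 := by
          rw [← b.reduced]; exact Nat.dvd_gcd h2 hpD
        exact hpp.one_lt.ne' (Nat.dvd_one.mp h4)
      rw [padicValRat, padicValInt, padicValNat.eq_zero_of_not_dvd h3, ← hgm,
        padicValNat.mul (pow_ne_zero 2 hm0) hg0, padicValNat.pow, hvg]
      simp
    have hvc : padicValRat p c = 0 := by
      have h1 : ¬ p ∣ c.num.natAbs := fun h2 => hnd (dvd_mul_of_dvd_left h2 _)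
      have h2 : ¬ p ∣ c.den := fun h2 => hnd (dvd_mul_of_dvd_right h2 _)
      rw [padicValRat, padicValInt, padicValNat.eq_zero_of_not_dvd h1,
        padicValNat.eq_zero_of_not_dvd h2]
      simp
    apply fine_of_parity hb hc hpp
    · rw [hvb]
      push_cast
      omega
    · rw [padicValRat.mul hb hc, hvb, hvc, add_zero]
      exact ⟨-(padicValNat p m : ℤ) - 1, by push_cast; ring⟩
  calc g = ∏ p ∈ g.primeFactors, p := (Nat.prod_primeFactors_of_squarefree hsf).symm
    _ ∣ ∏ p ∈ (c.num.natAbs * c.den).primeFactors, p := Finset.prod_dvd_prod_of_subset _ _ _ hsub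
    _ ∣ _ := Nat.prod_primeFactors_dvd _

/-- the normal form `b x + 1 / x` -/
theorem normal_form {b : ℚ} (hb : b ≠ 0) (h : ¬ Fine b 1) : ∃ β : ℚ, b = - β ^ 2 := by
  obtain ⟨g, m, _, h1, h2⟩ := class_of_not_fine hb one_ne_zero h
  obtain ⟨g', m', _, h1', h2'⟩ := class_den_of_not_fine hb one_ne_zero h
  have hg : g = 1 := by
    simpa using h1
  have hg' : g' = 1 := by
    simpa using h1'
  rw [hg, mul_one] at h2
  rw [hg', mul_one] at h2'
  have hneg : b < 0 := by
    by_contra hcon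
    push Not at hcon
    apply h
    intro P hP
    apply part_one b 1 hb one_ne_zero (Or.inl _) P hP
    rw [mul_one]
    exact lt_of_le_of_ne hcon (Ne.symm hb)
  refine ⟨(m : ℚ) / m', ?_⟩
  have h3 : (b.num : ℚ) = - ((m ^ 2 : ℕ) : ℚ) := by
    have h4 : b.num < 0 := Rat.num_neg.mpr hneg
    have h5 : b.num = - ((b.num.natAbs : ℕ) : ℤ) := by omega
    rw [h2] at h5
    exact_mod_cast h5
  have h6 : b = b.num / b.den := (Rat.num_div_den b).symm
  rw [h6, h3, h2']
  push_cast
  ring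

/-- few exceptional `b` for a given `c` -/
theorem part_four {c : ℚ} (hc : c ≠ 0) {ε : ℝ} (hε : 0 < ε) : ∃ C : ℝ, 0 ≤ C ∧ ∀ H : ℕ,
    {b : ℚ | b ≠ 0 ∧ ¬ Fine b c ∧ b.num.natAbs ≤ H}.Finite ∧
    ({b : ℚ | b ≠ 0 ∧ ¬ Fine b c ∧ b.num.natAbs ≤ H}.ncard : ℝ) ≤
      C * (H : ℝ) ^ (1 / 2 + ε) := by
  obtain ⟨C, hC, h⟩ := part_two hε
  set K := c.num.natAbs * c.den with hK
  have hK0 : K ≠ 0 := Nat.mul_ne_zero (by simpa using hc) c.den_ne_zero
  refine ⟨(K.divisors.card : ℝ) * C, by positivity, ?_⟩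
  intro H
  set I := ((K.divisors ×ˢ Finset.Icc 1 (Nat.sqrt H)).filter (fun t => t.2 ^ 2 * t.1 ≤ H)) with hI
  have hIcard : I.card ≤ K.divisors.card * Nat.sqrt H := by
    calc I.card ≤ (K.divisors ×ˢ Finset.Icc 1 (Nat.sqrt H)).card := Finset.card_filter_le _ _
      _ = _ := by rw [Finset.card_product, Nat.card_Icc, Nat.add_sub_cancel]
  have hpos : ∀ t ∈ I, 1 ≤ t.2 ^ 2 * t.1 ∧ t.2 ^ 2 * t.1 ≤ H := by
    intro t ht
    rw [hI, Finset.mem_filter, Finset.mem_product, Nat.mem_divisors, Finset.mem_Icc] at ht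
    obtain ⟨⟨⟨h1, _⟩, h3, _⟩, h5⟩ := ht
    refine ⟨?_, h5⟩
    have : 0 < t.1 := Nat.pos_of_dvd_of_pos h1 (Nat.pos_of_ne_zero hK0)
    exact Nat.mul_pos (Nat.pow_pos h3) this
  have hsub : {b : ℚ | b ≠ 0 ∧ ¬ Fine b c ∧ b.num.natAbs ≤ H} ⊆
      ⋃ t ∈ I, {b : ℚ | Exceptional b ∧ b.num.natAbs = t.2 ^ 2 * t.1} := by
    rintro b ⟨hb, hF, hH⟩
    obtain ⟨g, m, h1, h2, h3⟩ := class_of_not_fine hb hc hF
    simp only [Set.mem_iUnion, exists_prop]
    have hg : 0 < g := Nat.pos_of_dvd_of_pos h2 (Nat.pos_of_ne_zero hK0)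
    refine ⟨(g, m), ?_, exceptional_of_not_fine hb hc hF, h3⟩
    rw [hI, Finset.mem_filter, Finset.mem_product, Nat.mem_divisors, Finset.mem_Icc]
    refine ⟨⟨⟨h2, hK0⟩, h1, ?_⟩, ?_⟩
    · rw [Nat.le_sqrt, ← sq]
      refine le_trans ?_ (h3 ▸ hH : m ^ 2 * g ≤ H)
      exact Nat.le_mul_of_pos_right _ hg
    · exact h3 ▸ hH
  have hfinU : (⋃ t ∈ I, {b : ℚ | Exceptional b ∧ b.num.natAbs = t.2 ^ 2 * t.1}).Finite := by
    apply Set.Finite.biUnion (Finset.finite_toSet _)
    intro t ht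
    exact (h _ (hpos t (Finset.mem_coe.mp ht)).1).1
  refine ⟨hfinU.subset hsub, ?_⟩
  have hcard : ({b : ℚ | b ≠ 0 ∧ ¬ Fine b c ∧ b.num.natAbs ≤ H}.ncard : ℝ) ≤
      ∑ t ∈ I, ({b : ℚ | Exceptional b ∧ b.num.natAbs = t.2 ^ 2 * t.1}.ncard : ℝ) := by
    have h1 : {b : ℚ | b ≠ 0 ∧ ¬ Fine b c ∧ b.num.natAbs ≤ H}.ncard ≤
        ∑ t ∈ I, {b : ℚ | Exceptional b ∧ b.num.natAbs = t.2 ^ 2 * t.1}.ncard :=
      le_trans (Set.ncard_le_ncard hsub hfinU) (Finset.set_ncard_biUnion_le _ _)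
    exact_mod_cast h1
  rcases Nat.eq_zero_or_pos H with hH | hH
  · subst hH
    have : I = ∅ := by
      rw [Finset.eq_empty_iff_forall_notMem]
      intro t ht
      have := hpos t ht
      omega
    rw [this, Finset.sum_empty] at hcard
    refine le_trans hcard ?_
    positivity
  have hHpos : (0:ℝ) < H := by exact_mod_cast hH
  have hs : ((Nat.sqrt H : ℕ) : ℝ) ≤ (H : ℝ) ^ (1 / 2 : ℝ) := by
    rw [← Real.sqrt_eq_rpow]
    exact Real.nat_sqrt_le_real_sqrt
  calc ({b : ℚ | b ≠ 0 ∧ ¬ Fine b c ∧ b.num.natAbs ≤ H}.ncard : ℝ)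
      ≤ ∑ t ∈ I, ({b : ℚ | Exceptional b ∧ b.num.natAbs = t.2 ^ 2 * t.1}.ncard : ℝ) := hcard
    _ ≤ ∑ t ∈ I, C * (H : ℝ) ^ ε := by
        apply Finset.sum_le_sum
        intro t ht
        obtain ⟨h1, h2⟩ := hpos t ht
        refine le_trans (h _ h1).2 ?_
        apply mul_le_mul_of_nonneg_left _ (by linarith)
        exact Real.rpow_le_rpow (by positivity) (by exact_mod_cast h2) hε.le
    _ = (I.card : ℝ) * (C * (H : ℝ) ^ ε) := by rw [Finset.sum_const, nsmul_eq_mul]
    _ ≤ ((K.divisors.card : ℝ) * (H : ℝ) ^ (1 / 2 : ℝ)) * (C * (H : ℝ) ^ ε) := by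
        apply mul_le_mul_of_nonneg_right _ (by positivity)
        have h1 : (I.card : ℝ) ≤ ((K.divisors.card * Nat.sqrt H : ℕ) : ℝ) := by
          exact_mod_cast hIcard
        refine le_trans h1 ?_
        push_cast
        exact mul_le_mul_of_nonneg_left hs (by positivity)
    _ = (K.divisors.card : ℝ) * C * (H : ℝ) ^ (1 / 2 + ε) := by
        rw [Real.rpow_add hHpos]; ring

end Pool.Agent.Helper905.Manes
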