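import Mathlib
import Pool.Agent.Helper905.Manes.Defs
import Pool.Agent.Helper905.Manes.Parity

namespace Pool.Agent.Helper905.Manes


/-- there is a cycle for which the product of two consecutive multipliers is not `1` or `-1` -/
def Bad (b : ℚ) : Prop :=
  ∃ (u s : ℕ → ℚ) (n : ℕ), Cyc b u s n ∧ ¬ ∀ i, |s i * s (i + 1)| = 1

/-- integers are not bad -/
theorem int_case {b : ℚ} {u s : ℕ → ℚ} {n : ℕ} (C : Cyc b u s n) (hb : 0 < b)
    (hden : b.den = 1) : ∀ i, |s i * s (i + 1)| = 1 := by
  have hsq : (∀ i, (s i) ^ 2 = 1) → ∀ i, |s i * s (i + 1)| = 1 := by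
    intro h1 i
    have a1 := h1 i
    have a2 := h1 (i + 1)
    have h3 : |s i * s (i + 1)| ^ 2 = 1 := by rw [sq_abs, mul_pow, a1, a2]; norm_num
    have h4 : (0:ℚ) ≤ |s i * s (i + 1)| := abs_nonneg _
    nlinarith
  by_cases hv2 : padicValRat 2 b = 0
  · exact hsq (case_two C hv2)
  by_cases hv3 : padicValRat 3 b = 0
  · exact hsq (case_three C hv3)
  by_contra hnt
  obtain ⟨E, W, hd⟩ := exists_data C hnt
  have hN0 : b.num.natAbs ≠ 0 := by simpa using C.hb
  set N := b.num.natAbs with hNdef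
  have h2 : 2 ∣ N := by
    by_contra hc
    apply hv2
    rw [padicValRat, padicValInt, padicValNat.eq_zero_of_not_dvd hc, hden]
    simp
  have h3 : 3 ∣ N := by
    by_contra hc
    apply hv3
    rw [padicValRat, padicValInt, padicValNat.eq_zero_of_not_dvd hc, hden]
    simp
  have h6 : 6 ∣ N := Nat.Coprime.mul_dvd_of_dvd_of_dvd (by norm_num) h2 h3
  have h6' : 6 ≤ N := Nat.le_of_dvd (Nat.pos_of_ne_zero hN0) h6
  have hbN : b = N := by
    have := bD_eq hb
    rw [hden, Nat.cast_one, mul_one] at this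
    exact this
  have hb6 : 6 ≤ b := by rw [hbN]; exact_mod_cast h6'
  have hW2 : ∀ i, 2 ≤ W i := by
    intro i
    have h1 := hd.W1 i
    have h2 := W_ne_one hd (by linarith) i
    omega
  apply crit_large hd hb6 (m := 2) (q := 2) hW2 (by norm_num) ⟨0, hW2 0⟩
  rw [hden]
  have h5 : b ≤ 6 / 5 * (b - 1) := by linarith
  have h6 : b ^ 4 ≤ (6 / 5 * (b - 1)) ^ 4 := pow_le_pow_left₀ (by linarith) h5 4
  have h7 : 0 ≤ (b - 1) ^ 4 := by positivity
  push_cast
  nlinarith

theorem not_bad_int {b : ℚ} (hden : b.den = 1) : ¬ Bad b := by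
  rintro ⟨u, s, n, C, h⟩
  apply h
  rcases lt_or_gt_of_ne C.hb with hb | hb
  · have := int_case C.neg (by linarith) (by rw [Rat.neg_den]; exact hden)
    intro i
    have h1 := this i
    simpa using h1
  · exact int_case C hb hden

theorem bad_mem {b : ℚ} (h : Bad b) : b ∈ (index b.num.natAbs).image (cand b.num.natAbs) := by
  obtain ⟨u, s, n, C, hnt⟩ := h
  exact mem_cand C hnt

/-- the cycle attached to a finite periodic point, with its first entry -/
theorem orbit_of_periodic {b c : ℚ} (hb : b ≠ 0) (hc : c ≠ 0) {x0 : ℚ}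
    (hP : some x0 ∈ Function.periodicPts (f b c)) : x0 ≠ 0 ∧
    ∃ (u s : ℕ → ℚ) (n : ℕ), Cyc b u s n ∧ u 0 = c / x0 ^ 2 := by
  obtain ⟨n, hn, hPn⟩ := hP
  have hPn' : (f b c)^[n] (some x0) = some x0 := hPn
  have hne : ∀ i, ∃ y : ℚ, y ≠ 0 ∧ (f b c)^[i] (some x0) = some y := by
    intro i
    have hnn : ∀ j, (f b c)^[j] (some x0) ≠ none := by
      intro j hj
      have h1 : (f b c)^[n * j] (some x0) = some x0 := by
        have : Function.IsPeriodicPt (f b c) (n * j) (some x0) := by
          exact Function.IsPeriodicPt.mul_const hPn j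
        exact this
      have h2 : j ≤ n * j := by nlinarith [Nat.mul_le_mul_right j hn]
      obtain ⟨k, hk⟩ := Nat.exists_eq_add_of_le h2
      rw [hk, Nat.add_comm, Function.iterate_add_apply, hj, iter_none] at h1
      exact absurd h1 (by simp)
    cases hy : (f b c)^[i] (some x0) with
    | none => exact absurd hy (hnn i)
    | some y =>
      refine ⟨y, ?_, rfl⟩
      intro hy0
      apply hnn (i + 1)
      rw [Function.iterate_succ_apply', hy, hy0, f_zero]
  choose x hx0 hx using hne
  have h00 : x 0 = x0 := by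
    have := hx 0
    rw [Function.iterate_zero, id] at this
    exact (Option.some.inj this).symm
  have hstep : ∀ i, x (i + 1) = b * x i + c / x i := by
    intro i
    have h1 := hx (i + 1)
    rw [Function.iterate_succ_apply', hx i, f_some b c (hx0 i)] at h1
    exact (Option.some.inj h1).symm
  have hxper : ∀ i, x (i + n) = x i := by
    intro i
    have h1 := hx (i + n)
    rw [Function.iterate_add_apply, hPn', hx i] at h1
    exact (Option.some.inj h1).symm
  have hsx : ∀ i, x (i + 1) = (b + c / x i ^ 2) * x i := by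
    intro i
    rw [hstep]
    have := hx0 i
    field_simp
  refine ⟨by rw [← h00]; exact hx0 0, fun i => c / x i ^ 2, fun i => b + c / x i ^ 2, n, ?_, ?_⟩
  · refine ⟨hn, hb, fun i => rfl, ?_, ?_, ?_, ?_⟩
    · intro i
      show c / x (i + 1) ^ 2 = c / x i ^ 2 / (b + c / x i ^ 2) ^ 2
      rw [hsx i, mul_pow, div_div, mul_comm]
    · intro i
      show c / x (i + n) ^ 2 = c / x i ^ 2
      rw [hxper]
    · intro i
      exact div_ne_zero hc (pow_ne_zero 2 (hx0 i))
    · intro i h1
      apply hx0 (i + 1)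
      rw [hsx i]
      show (b + c / x i ^ 2) * x i = 0
      have h2 : b + c / x i ^ 2 = 0 := h1
      rw [h2, zero_mul]
  · show c / x 0 ^ 2 = c / x0 ^ 2
    rw [h00]

/-- `b` satisfies one of finitely many square conditions -/
def Thin (b : ℚ) : Prop :=
  (∃ q : ℚ, q ^ 2 = 1 + 4 * b ^ 2) ∨ (∃ q : ℚ, q ^ 2 = 1 + b ^ 2) ∨
  (∃ q : ℚ, q ≠ 0 ∧ q ^ 2 = b ^ 2 - 1) ∨ (∃ q : ℚ, q ≠ 0 ∧ q ^ 2 = b ^ 2 - b) ∨
  (∃ q : ℚ, q ≠ 0 ∧ q ^ 2 = b ^ 2 + b) ∨
  (b ≠ 1 ∧ ∃ q : ℚ, q ^ 2 = (1 - b) * (1 - b - 4 * b ^ 3)) ∨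
  (b ≠ -1 ∧ ∃ q : ℚ, q ^ 2 = (1 + b) * (1 + b + 4 * b ^ 3))

/-- the points that are always preperiodic -/
def InT (b c : ℚ) (P : Option ℚ) : Prop :=
  P = none ∨ P = some 0 ∨ ∃ x : ℚ, x ≠ 0 ∧ P = some x ∧
    (c / x ^ 2 = -b ∨ c / x ^ 2 = 1 - b ∨ c / x ^ 2 = -1 - b ∨
      (b ≠ 1 ∧ c / x ^ 2 = b ^ 2 / (1 - b)) ∨ (b ≠ -1 ∧ c / x ^ 2 = -(b ^ 2 / (1 + b))))

theorem inT_of_periodic {b c : ℚ} (hb : b ≠ 0) (hc : c ≠ 0) (hB : ¬ Bad b) (hT : ¬ Thin b)
    {P : Option ℚ} (hP : P ∈ Function.periodicPts (f b c)) : InT b c P := by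
  rcases P with _ | x
  · left; rfl
  right; right
  obtain ⟨hx0, u, s, n, C, hu0⟩ := orbit_of_periodic hb hc hP
  refine ⟨x, hx0, rfl, ?_⟩
  have hall : ∀ i, |s i * s (i + 1)| = 1 := by
    by_contra hcon
    exact hB ⟨u, s, n, C, hcon⟩
  have hs0 : (s 0) ^ 2 = 1 := by
    rcases of_t C hall with h1 | h1
    · exact h1 0
    · exfalso
      have h2 := C.t_eq 0
      rw [h1 0] at h2
      apply hT
      right; left
      exact ⟨b * s 0 + 1, by linear_combination b * h2⟩
  have h1 := C.hs 0
  rw [hu0] at h1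
  have h3 : (s 0 - 1) * (s 0 + 1) = 0 := by linear_combination hs0
  rcases mul_eq_zero.mp h3 with h4 | h4
  · right; left
    linarith
  · right; right; left
    linarith

theorem inT_back {b c : ℚ} (hb : b ≠ 0) (hc : c ≠ 0) (hT : ¬ Thin b)
    {P : Option ℚ} (hP : InT b c (f b c P)) : InT b c P := by
  rcases P with _ | x
  · left; rfl
  by_cases hx0 : x = 0
  · right; left; rw [hx0]
  right; right
  refine ⟨x, hx0, rfl, ?_⟩
  set u := c / x ^ 2 with hu
  have hune : u ≠ 0 := div_ne_zero hc (pow_ne_zero 2 hx0)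
  rw [f_some b c hx0] at hP
  have hfx : b * x + c / x = (b + u) * x := by
    rw [hu]; field_simp
  rw [hfx] at hP
  by_cases hs : b + u = 0
  · left; linarith
  have hval : c / ((b + u) * x) ^ 2 = u / (b + u) ^ 2 := by
    rw [hu, mul_pow, div_div, mul_comm]
  rcases hP with h | h | ⟨y, hy0, hy, h⟩
  · exact absurd h (by simp)
  · have := Option.some.inj h
    exact absurd this (mul_ne_zero hs hx0)
  have hy' := Option.some.inj hy
  rw [← hy', hval] at h
  have hs2 : (b + u) ^ 2 ≠ 0 := pow_ne_zero 2 hs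
  set t := b + u with ht
  have hut : u = t - b := by rw [ht]; ring
  rcases h with h | h | h | ⟨h0, h⟩ | ⟨h0, h⟩
  · exfalso
    rw [div_eq_iff hs2, hut] at h
    apply hT
    left
    exact ⟨2 * b * t + 1, by linear_combination (4 * b) * h⟩
  · rw [div_eq_iff hs2, hut] at h
    have h3 : (t - 1) * ((1 - b) * t - b) = 0 := by linear_combination - h
    rcases mul_eq_zero.mp h3 with h4 | h4
    · right; left
      linarith
    · right; right; right; left
      have hb1 : b ≠ 1 := by
        rintro rfl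
        apply hb
        linarith
      have hb1' : 1 - b ≠ 0 := sub_ne_zero.mpr (Ne.symm hb1)
      refine ⟨hb1, ?_⟩
      rw [eq_div_iff hb1', hut]
      linear_combination h4
  · rw [div_eq_iff hs2, hut] at h
    have h3 : (t + 1) * ((1 + b) * t - b) = 0 := by linear_combination h
    rcases mul_eq_zero.mp h3 with h4 | h4
    · right; right; left
      linarith
    · right; right; right; right
      have hb1 : b ≠ -1 := by
        rintro rfl
        apply hb
        linarith
      have hb1' : 1 + b ≠ 0 := by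
        intro h5
        apply hb1
        linarith
      refine ⟨hb1, ?_⟩
      rw [hut, ← neg_div, eq_div_iff hb1']
      linear_combination h4
  · exfalso
    have hb1' : 1 - b ≠ 0 := sub_ne_zero.mpr (Ne.symm h0)
    rw [div_eq_div_iff hs2 hb1', hut] at h
    apply hT
    right; right; right; right; right; left
    refine ⟨h0, 2 * b ^ 2 * t - (1 - b), ?_⟩
    linear_combination (-4 * b ^ 2) * h
  · exfalso
    have hb1' : 1 + b ≠ 0 := by
      intro h5
      apply h0
      linarith
    rw [← neg_div, div_eq_div_iff hs2 hb1', hut] at h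
    apply hT
    right; right; right; right; right; right
    refine ⟨h0, 2 * b ^ 2 * t + (1 + b), ?_⟩
    linear_combination (4 * b ^ 2) * h

theorem inT_of_prePer {b c : ℚ} (hb : b ≠ 0) (hc : c ≠ 0) (hB : ¬ Bad b) (hT : ¬ Thin b)
    {P : Option ℚ} (hP : P ∈ PrePer b c) : InT b c P := by
  have hfin : (Set.range (fun n : ℕ => (f b c)^[n] P)).Finite := hP
  have hni : ¬ Function.Injective (fun n : ℕ => (f b c)^[n] P) := by
    intro hinj
    exact Set.infinite_range_of_injective hinj hfin
  simp only [Function.Injective] at hni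
  push Not at hni
  obtain ⟨i, j, hij, hne⟩ := hni
  have key : ∀ i j : ℕ, i < j → (f b c)^[i] P = (f b c)^[j] P → InT b c P := by
    intro i j hlt heq
    have hper : (f b c)^[i] P ∈ Function.periodicPts (f b c) := by
      refine ⟨j - i, by omega, ?_⟩
      show (f b c)^[j - i] ((f b c)^[i] P) = (f b c)^[i] P
      rw [← Function.iterate_add_apply, Nat.sub_add_cancel hlt.le, heq]
    have h1 := inT_of_periodic hb hc hB hT hper
    have h2 : ∀ k, InT b c ((f b c)^[k] P) → InT b c P := by
      intro k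
      induction k with
      | zero => intro h; exact h
      | succ k ih =>
        intro h
        rw [Function.iterate_succ_apply'] at h
        exact ih (inT_back hb hc hT h)
    exact h2 i h1
  rcases lt_or_gt_of_ne hne with h | h
  · exact key i j h hij
  · exact key j i h hij.symm

end Pool.Agent.Helper905.Manes
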