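import Mathlib
import Pool.Agent.Helper905.Manes.Pre

namespace Pool.Agent.Helper905.Manes

theorem sq_cases {x r w : ℚ} (h1 : x ^ 2 = w) (h2 : r ^ 2 = w) : x = r ∨ x = -r := by
  have : (x - r) * (x + r) = 0 := by linear_combination h1 - h2
  rcases mul_eq_zero.mp this with h | h
  · left; linarith
  · right; linarith

/-- at most six points -/
theorem inT_six {b c : ℚ} (hb : b ≠ 0) (hc : c ≠ 0) (hT : ¬ Thin b) :
    ∃ r t : ℚ, ∀ P, InT b c P → P ∈ ({none, some 0, some r, some (-r), some (t * r),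
      some (-(t * r))} : Finset (Option ℚ)) := by
  -- two families cannot occur together
  have hprod : ∀ {x y α β : ℚ}, x ≠ 0 → y ≠ 0 → c / x ^ 2 = α → c / y ^ 2 = β →
      (c / (x * y)) ^ 2 = α * β ∧ c / (x * y) ≠ 0 := by
    intro x y α β hx hy h1 h2
    refine ⟨?_, div_ne_zero hc (mul_ne_zero hx hy)⟩
    rw [← h1, ← h2]
    field_simp
  -- normal form of the second and third family
  have hF1 : ∀ {x : ℚ}, x ≠ 0 → (c / x ^ 2 = 1 - b ∨ (b ≠ 1 ∧ c / x ^ 2 = b ^ 2 / (1 - b))) →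
      b ≠ 1 ∧ ∃ r : ℚ, r ≠ 0 ∧ c / r ^ 2 = 1 - b ∧
        (x = r ∨ x = (1 - b) / b * r) := by
    intro x hx h
    rcases h with h | ⟨h0, h⟩
    · have h0 : b ≠ 1 := by
        rintro rfl
        rw [sub_self] at h
        exact div_ne_zero hc (pow_ne_zero 2 hx) h
      exact ⟨h0, x, hx, h, Or.inl rfl⟩
    · have hb1' : 1 - b ≠ 0 := sub_ne_zero.mpr (Ne.symm h0)
      refine ⟨h0, b / (1 - b) * x, mul_ne_zero (div_ne_zero hb hb1') hx, ?_, Or.inr ?_⟩
      · have e : c / (b / (1 - b) * x) ^ 2 = (c / x ^ 2) * ((1 - b) ^ 2 / b ^ 2) := by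
          field_simp
        rw [e, h]
        field_simp
      · field_simp
  have hF2 : ∀ {x : ℚ}, x ≠ 0 → (c / x ^ 2 = -1 - b ∨ (b ≠ -1 ∧ c / x ^ 2 = -(b ^ 2 / (1 + b)))) →
      b ≠ -1 ∧ ∃ r : ℚ, r ≠ 0 ∧ c / r ^ 2 = -1 - b ∧
        (x = r ∨ x = (1 + b) / b * r) := by
    intro x hx h
    rcases h with h | ⟨h0, h⟩
    · have h0 : b ≠ -1 := by
        rintro rfl
        apply div_ne_zero hc (pow_ne_zero 2 hx)
        rw [h]; norm_num
      exact ⟨h0, x, hx, h, Or.inl rfl⟩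
    · have hb1' : 1 + b ≠ 0 := by
        intro h5
        apply h0
        linarith
      refine ⟨h0, b / (1 + b) * x, mul_ne_zero (div_ne_zero hb hb1') hx, ?_, Or.inr ?_⟩
      · have e : c / (b / (1 + b) * x) ^ 2 = (c / x ^ 2) * ((1 + b) ^ 2 / b ^ 2) := by
          field_simp
        rw [e, h]
        field_simp
        ring
      · field_simp
  -- conflicts
  have c01 : ∀ {x y : ℚ}, x ≠ 0 → y ≠ 0 → c / x ^ 2 = -b → c / y ^ 2 = 1 - b → False := by
    intro x y hx hy h1 h2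
    obtain ⟨h3, h4⟩ := hprod hx hy h1 h2
    apply hT
    right; right; right; left
    exact ⟨_, h4, by rw [h3]; ring⟩
  have c02 : ∀ {x y : ℚ}, x ≠ 0 → y ≠ 0 → c / x ^ 2 = -b → c / y ^ 2 = -1 - b → False := by
    intro x y hx hy h1 h2
    obtain ⟨h3, h4⟩ := hprod hx hy h1 h2
    apply hT
    right; right; right; right; left
    exact ⟨_, h4, by rw [h3]; ring⟩
  have c12 : ∀ {x y : ℚ}, x ≠ 0 → y ≠ 0 → c / x ^ 2 = 1 - b → c / y ^ 2 = -1 - b → False := by
    intro x y hx hy h1 h2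
    obtain ⟨h3, h4⟩ := hprod hx hy h1 h2
    apply hT
    right; right; left
    exact ⟨_, h4, by rw [h3]; ring⟩
  have hsq : ∀ {x y v : ℚ}, x ≠ 0 → y ≠ 0 → c / x ^ 2 = v → c / y ^ 2 = v → x = y ∨ x = -y := by
    intro x y v hx hy h1 h2
    have h3 : x ^ 2 = y ^ 2 := by
      have h4 : c / x ^ 2 = c / y ^ 2 := by rw [h1, h2]
      rw [div_eq_div_iff (pow_ne_zero 2 hx) (pow_ne_zero 2 hy)] at h4
      exact (mul_left_cancel₀ hc h4).symm
    exact sq_cases h3 rfl
  by_cases hA : ∃ r : ℚ, r ≠ 0 ∧ c / r ^ 2 = -b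
  · obtain ⟨r, hr0, hr⟩ := hA
    refine ⟨r, 1, ?_⟩
    rintro P (h | h | ⟨x, hx0, h, hx⟩)
    · subst h; simp
    · subst h; simp
    · subst h
      have hxr : x = r ∨ x = -r := by
        rcases hx with hx | hx | hx | hx | hx
        · exact hsq hx0 hr0 hx hr
        · exact absurd (c01 hr0 hx0 hr hx) id
        · exact absurd (c02 hr0 hx0 hr hx) id
        · obtain ⟨_, y, hy0, hy, _⟩ := hF1 hx0 (Or.inr hx)
          exact absurd (c01 hr0 hy0 hr hy) id
        · obtain ⟨_, y, hy0, hy, _⟩ := hF2 hx0 (Or.inr hx)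
          exact absurd (c02 hr0 hy0 hr hy) id
      rcases hxr with rfl | rfl <;> simp
  by_cases hB : ∃ r : ℚ, r ≠ 0 ∧ c / r ^ 2 = 1 - b
  · obtain ⟨r, hr0, hr⟩ := hB
    refine ⟨r, (1 - b) / b, ?_⟩
    rintro P (h | h | ⟨x, hx0, h, hx⟩)
    · subst h; simp
    · subst h; simp
    · subst h
      have hxr : (x = r ∨ x = -r) ∨ (x = (1 - b) / b * r ∨ x = -((1 - b) / b * r)) := by
        rcases hx with hx | hx | hx | hx | hx
        · exact absurd ⟨x, hx0, hx⟩ hA
        · left; exact hsq hx0 hr0 hx hr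
        · exact absurd (c12 hr0 hx0 hr hx) id
        · obtain ⟨_, y, hy0, hy, hxy⟩ := hF1 hx0 (Or.inr hx)
          have hyr := hsq hy0 hr0 hy hr
          rcases hxy with h1 | h1
          · left; rw [h1]; exact hyr
          · right
            rcases hyr with h2 | h2
            · left; rw [h1, h2]
            · right; rw [h1, h2]; ring
        · obtain ⟨_, y, hy0, hy, _⟩ := hF2 hx0 (Or.inr hx)
          exact absurd (c12 hr0 hy0 hr hy) id
      rcases hxr with (rfl | rfl) | (rfl | rfl) <;> simp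
  by_cases hC : ∃ r : ℚ, r ≠ 0 ∧ c / r ^ 2 = -1 - b
  · obtain ⟨r, hr0, hr⟩ := hC
    refine ⟨r, (1 + b) / b, ?_⟩
    rintro P (h | h | ⟨x, hx0, h, hx⟩)
    · subst h; simp
    · subst h; simp
    · subst h
      have hxr : (x = r ∨ x = -r) ∨ (x = (1 + b) / b * r ∨ x = -((1 + b) / b * r)) := by
        rcases hx with hx | hx | hx | hx | hx
        · exact absurd ⟨x, hx0, hx⟩ hA
        · exact absurd ⟨x, hx0, hx⟩ hB
        · left; exact hsq hx0 hr0 hx hr
        · obtain ⟨_, y, hy0, hy, _⟩ := hF1 hx0 (Or.inr hx)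
          exact absurd ⟨y, hy0, hy⟩ hB
        · obtain ⟨_, y, hy0, hy, hxy⟩ := hF2 hx0 (Or.inr hx)
          have hyr := hsq hy0 hr0 hy hr
          rcases hxy with h1 | h1
          · left; rw [h1]; exact hyr
          · right
            rcases hyr with h2 | h2
            · left; rw [h1, h2]
            · right; rw [h1, h2]; ring
      rcases hxr with (rfl | rfl) | (rfl | rfl) <;> simp
  refine ⟨0, 0, ?_⟩
  rintro P (h | h | ⟨x, hx0, h, hx⟩)
  · subst h; simp
  · subst h; simp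
  · exfalso
    rcases hx with hx | hx | hx | hx | hx
    · exact hA ⟨x, hx0, hx⟩
    · exact hB ⟨x, hx0, hx⟩
    · exact hC ⟨x, hx0, hx⟩
    · obtain ⟨_, y, hy0, hy, _⟩ := hF1 hx0 (Or.inr hx)
      exact hB ⟨y, hy0, hy⟩
    · obtain ⟨_, y, hy0, hy, _⟩ := hF2 hx0 (Or.inr hx)
      exact hC ⟨y, hy0, hy⟩

theorem pre_le_six {b c : ℚ} (hb : b ≠ 0) (hc : c ≠ 0) (hB : ¬ Bad b) (hT : ¬ Thin b) :
    (PrePer b c).Finite ∧ (PrePer b c).ncard ≤ 6 := by
  obtain ⟨r, t, h⟩ := inT_six hb hc hT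
  have hsub : PrePer b c ⊆ (({none, some 0, some r, some (-r), some (t * r),
      some (-(t * r))} : Finset (Option ℚ)) : Set (Option ℚ)) := by
    intro P hP
    exact h P (inT_of_prePer hb hc hB hT hP)
  refine ⟨(Finset.finite_toSet _).subset hsub, ?_⟩
  calc (PrePer b c).ncard ≤ _ := Set.ncard_le_ncard hsub (Finset.finite_toSet _)
    _ = _ := Set.ncard_coe_finset _
    _ ≤ 6 := Finset.card_le_six

end Pool.Agent.Helper905.Manes
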