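import Mathlib
import Pool.Agent.Helper905.Manes.Six

namespace Pool.Agent.Helper905.Manes

theorem no_sq {m k : ℤ} (hk : 0 ≤ k) (h1 : k ^ 2 < m ^ 2) (h2 : m ^ 2 < (k + 1) ^ 2) : False := by
  have a := sq_lt_sq.mp h1
  have c := sq_lt_sq.mp h2
  rw [abs_of_nonneg hk] at a
  rw [abs_of_nonneg (by omega : 0 ≤ k + 1)] at c
  omega

theorem int_of_sq {q : ℚ} {z : ℤ} (h : q ^ 2 = (z : ℚ)) : ∃ m : ℤ, m ^ 2 = z ∧ (q ≠ 0 → m ≠ 0) := by
  have h1 : IsSquare (z : ℚ) := ⟨q, by rw [← h, sq]⟩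
  obtain ⟨m, hm⟩ := Rat.isSquare_intCast_iff.mp h1
  refine ⟨m, by rw [hm, sq], ?_⟩
  rintro hq rfl
  apply hq
  rw [mul_zero] at hm
  rw [hm] at h
  simpa using h

theorem quartic {z m : ℤ} (hz : z ≠ 0) (hz1 : z ≠ 1)
    (h : m ^ 2 = (1 - z) * (1 - z - 4 * z ^ 3)) : False := by
  have e : m ^ 2 = (2 * z ^ 2 - z) ^ 2 - 2 * z + 1 := by rw [h]; ring
  rcases lt_or_ge z 0 with h0 | h0
  · apply no_sq (m := m) (k := 2 * z ^ 2 - z)
    · nlinarith
    · rw [e]; nlinarith
    · rw [e]; nlinarith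
  · have h2 : 2 ≤ z := by omega
    apply no_sq (m := m) (k := 2 * z ^ 2 - z - 1)
    · nlinarith
    · rw [e]; nlinarith
    · rw [e]; nlinarith

theorem not_thin_int {z : ℤ} (hz : z ≠ 0) : ¬ Thin (z : ℚ) := by
  have hw : 1 ≤ |z| := Int.one_le_abs hz
  have hwz : |z| ^ 2 = z ^ 2 := sq_abs z
  rintro (⟨q, hq⟩ | ⟨q, hq⟩ | ⟨q, hq0, hq⟩ | ⟨q, hq0, hq⟩ | ⟨q, hq0, hq⟩ | ⟨h0, q, hq⟩ | ⟨h0, q, hq⟩)
  · obtain ⟨m, hm, _⟩ := int_of_sq (z := 1 + 4 * z ^ 2) (by push_cast; exact hq)
    apply no_sq (m := m) (k := 2 * |z|) (by omega)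
    · rw [hm, ← hwz]; nlinarith
    · rw [hm, ← hwz]; nlinarith
  · obtain ⟨m, hm, _⟩ := int_of_sq (z := 1 + z ^ 2) (by push_cast; exact hq)
    apply no_sq (m := m) (k := |z|) (by omega)
    · rw [hm, ← hwz]; nlinarith
    · rw [hm, ← hwz]; nlinarith
  · obtain ⟨m, hm, hm0⟩ := int_of_sq (z := z ^ 2 - 1) (by push_cast; exact hq)
    have hm1 := hm0 hq0
    have hmpos : 0 < m ^ 2 := by positivity
    have hw2 : 2 ≤ |z| := by
      by_contra hc
      have : |z| = 1 := by omega
      rw [← hwz, this] at hm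
      rw [hm] at hmpos
      norm_num at hmpos
    apply no_sq (m := m) (k := |z| - 1) (by omega)
    · rw [hm, ← hwz]; nlinarith
    · rw [hm, ← hwz]; nlinarith
  · obtain ⟨m, hm, hm0⟩ := int_of_sq (z := z ^ 2 - z) (by push_cast; exact hq)
    have hm1 := Int.one_le_abs (hm0 hq0)
    have hmm : |m| ^ 2 = m ^ 2 := sq_abs m
    apply no_sq (m := 2 * z - 1) (k := 2 * |m|) (by omega)
    · nlinarith
    · nlinarith
  · obtain ⟨m, hm, hm0⟩ := int_of_sq (z := z ^ 2 + z) (by push_cast; exact hq)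
    have hm1 := Int.one_le_abs (hm0 hq0)
    have hmm : |m| ^ 2 = m ^ 2 := sq_abs m
    apply no_sq (m := 2 * z + 1) (k := 2 * |m|) (by omega)
    · nlinarith
    · nlinarith
  · obtain ⟨m, hm, _⟩ := int_of_sq (z := (1 - z) * (1 - z - 4 * z ^ 3)) (by push_cast; exact hq)
    have hz1 : z ≠ 1 := by
      rintro rfl
      exact h0 (by norm_num)
    exact quartic hz hz1 hm
  · obtain ⟨m, hm, _⟩ := int_of_sq (z := (1 + z) * (1 + z + 4 * z ^ 3)) (by push_cast; exact hq)
    have hz1 : -z ≠ 1 := by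
      intro h1
      apply h0
      have : z = -1 := by omega
      rw [this]; norm_num
    exact quartic (neg_ne_zero.mpr hz) hz1 (by rw [hm]; ring)

theorem prePer_of_invariant {b c : ℚ} (S : Finset (Option ℚ)) (hS : ∀ Q ∈ S, f b c Q ∈ S) :
    (S : Set (Option ℚ)) ⊆ PrePer b c := by
  intro P hP
  show (Set.range (fun n : ℕ => (f b c)^[n] P)).Finite
  apply (Finset.finite_toSet S).subset
  rintro _ ⟨n, rfl⟩
  show (f b c)^[n] P ∈ (S : Set (Option ℚ))
  induction n with
  | zero => exact hP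
  | succ n ih =>
    rw [Function.iterate_succ_apply']
    exact hS _ ih

theorem six_card {t : ℚ} (h0 : t ≠ 0) (h1 : t ≠ 1) (h2 : t ≠ -1) :
    ({none, some 0, some 1, some (-1), some t, some (-t)} : Finset (Option ℚ)).card = 6 := by
  have e1 : (0:ℚ) ≠ 1 := by norm_num
  have e2 : (0:ℚ) ≠ -1 := by norm_num
  have e3 : (0:ℚ) ≠ -t := fun h => h0 (by linarith)
  have e4 : (1:ℚ) ≠ -1 := by norm_num
  have e5 : (1:ℚ) ≠ -t := fun h => h2 (by linarith)
  have e6 : (-1:ℚ) ≠ -t := fun h => h1 (by linarith)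
  have e7 : t ≠ -t := fun h => h0 (by linarith)
  rw [Finset.card_insert_of_notMem, Finset.card_insert_of_notMem, Finset.card_insert_of_notMem,
    Finset.card_insert_of_notMem, Finset.card_insert_of_notMem, Finset.card_singleton]
  · simp only [Finset.mem_singleton, Option.some.injEq]
    exact e7
  · simp only [Finset.mem_insert, Finset.mem_singleton, Option.some.injEq]
    rintro (h | h)
    · exact h2 h.symm
    · exact e6 h
  · simp only [Finset.mem_insert, Finset.mem_singleton, Option.some.injEq]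
    rintro (h | h | h)
    · exact e4 h
    · exact h1 h.symm
    · exact e5 h
  · simp only [Finset.mem_insert, Finset.mem_singleton, Option.some.injEq]
    rintro (h | h | h | h)
    · exact e1 h
    · exact e2 h
    · exact h0 h.symm
    · exact e3 h
  · simp

/-- every `f_{b,c}` has at most six preperiodic points and some has exactly six -/
def Six (b : ℚ) : Prop :=
  (∀ c : ℚ, c ≠ 0 → (PrePer b c).Finite ∧ (PrePer b c).ncard ≤ 6) ∧
  ∃ c : ℚ, c ≠ 0 ∧ (PrePer b c).ncard = 6

theorem six_of {b : ℚ} (hb : b ≠ 0) (hB : ¬ Bad b) (hT : ¬ Thin b) : Six b := by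
  refine ⟨fun c hc => pre_le_six hb hc hB hT, ?_⟩
  have hfin : ∀ {c : ℚ}, c ≠ 0 → ∀ S : Finset (Option ℚ), S.card = 6 →
      (∀ Q ∈ S, f b c Q ∈ S) → (PrePer b c).ncard = 6 := by
    intro c hc S hS hinv
    obtain ⟨h1, h2⟩ := pre_le_six hb hc hB hT
    have h3 := Set.ncard_le_ncard (prePer_of_invariant S hinv) h1
    rw [Set.ncard_coe_finset, hS] at h3
    omega
  by_cases h1 : b = 1
  · refine ⟨-2, by norm_num, ?_⟩
    apply hfin (by norm_num) _ (six_card (t := 2) (by norm_num) (by norm_num) (by norm_num))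
    intro Q hQ
    rw [h1]
    simp only [Finset.mem_insert, Finset.mem_singleton] at hQ
    rcases hQ with rfl | rfl | rfl | rfl | rfl | rfl
    · rw [f_none]; simp
    · rw [f_zero]; simp
    · rw [f_some _ _ (by norm_num)]; norm_num
    · rw [f_some _ _ (by norm_num)]; norm_num
    · rw [f_some _ _ (by norm_num)]; norm_num
    · rw [f_some _ _ (by norm_num)]; norm_num
  · have hb1 : 1 - b ≠ 0 := sub_ne_zero.mpr (Ne.symm h1)
    refine ⟨1 - b, hb1, ?_⟩
    have ht0 : (1 - b) / b ≠ 0 := div_ne_zero hb1 hb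
    apply hfin hb1 _ (six_card (t := (1 - b) / b) ht0 ?_ ?_)
    · intro Q hQ
      simp only [Finset.mem_insert, Finset.mem_singleton] at hQ
      rcases hQ with rfl | rfl | rfl | rfl | rfl | rfl
      · rw [f_none]; simp
      · rw [f_zero]; simp
      · rw [f_some _ _ (by norm_num)]
        have : b * 1 + (1 - b) / 1 = 1 := by ring
        rw [this]; simp
      · rw [f_some _ _ (by norm_num)]
        have : b * (-1) + (1 - b) / (-1) = -1 := by ring
        rw [this]; simp
      · rw [f_some _ _ ht0]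
        have : b * ((1 - b) / b) + (1 - b) / ((1 - b) / b) = 1 := by
          field_simp
          ring
        rw [this]; simp
      · rw [f_some _ _ (neg_ne_zero.mpr ht0)]
        have : b * (-((1 - b) / b)) + (1 - b) / (-((1 - b) / b)) = -1 := by
          field_simp
          ring
        rw [this]; simp
    · intro h
      rw [div_eq_one_iff_eq hb] at h
      apply hT
      right; right; right; right; right; left
      refine ⟨h1, 0, ?_⟩
      have hb2 : b = 1 / 2 := by linarith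
      rw [hb2]; norm_num
    · intro h
      rw [div_eq_iff hb] at h
      linarith

theorem six_int {z : ℤ} (hz : z ≠ 0) : Six (z : ℚ) :=
  six_of (by exact_mod_cast hz) (not_bad_int (Rat.den_intCast z)) (not_thin_int hz)

end Pool.Agent.Helper905.Manes
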