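import Mathlib
import Pool.Agent.Helper905.Manes.Sharp

namespace Pool.Agent.Helper905.Manes

/-- candidates coming from the conics -/
def G1 (D : ℕ) : Finset ℚ :=
  ((D ^ 2).divisors ×ˢ ({1, -1} : Finset ℚ) ×ˢ ({1, -1} : Finset ℚ) ×ˢ ({2, 4} : Finset ℚ) ×ˢ
    ({-1, 0, 1} : Finset ℚ)).image (fun p => ((D : ℚ) ^ 2 / (p.2.1 * (p.1 : ℚ)) +
      p.2.2.1 * (p.2.1 * (p.1 : ℚ)) + p.2.2.2.2 * (2 * (D : ℚ))) / (p.2.2.2.1 * (D : ℚ)))

/-- candidates coming from the quartics -/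
def G2 (D H : ℕ) : Finset ℚ :=
  ((Finset.range (Nat.sqrt (2 * H) + 1)) ×ˢ ({1, -1} : Finset ℚ) ×ˢ ({1, 2} : Finset ℚ) ×ˢ
    ({1, -1} : Finset ℚ)).image (fun p => p.2.2.2 *
      ((D : ℚ) - p.2.1 * (p.2.2.1 * (p.1 : ℚ) ^ 2)) / (D : ℚ))

theorem G1_card (D : ℕ) : (G1 D).card ≤ 24 * (D ^ 2).divisors.card := by
  refine le_trans Finset.card_image_le ?_
  simp only [Finset.card_product]
  have a1 : ({1, -1} : Finset ℚ).card ≤ 2 := Finset.card_le_two
  have a2 : ({2, 4} : Finset ℚ).card ≤ 2 := Finset.card_le_two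
  have a3 : ({-1, 0, 1} : Finset ℚ).card ≤ 3 := Finset.card_le_three
  calc (D ^ 2).divisors.card * (({1, -1} : Finset ℚ).card * (({1, -1} : Finset ℚ).card *
        (({2, 4} : Finset ℚ).card * ({-1, 0, 1} : Finset ℚ).card)))
      ≤ (D ^ 2).divisors.card * (2 * (2 * (2 * 3))) :=
        Nat.mul_le_mul_left _ (Nat.mul_le_mul a1 (Nat.mul_le_mul a1 (Nat.mul_le_mul a2 a3)))
    _ = _ := by ring

theorem G2_card (D H : ℕ) : (G2 D H).card ≤ 8 * (Nat.sqrt (2 * H) + 1) := by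
  refine le_trans Finset.card_image_le ?_
  simp only [Finset.card_product, Finset.card_range]
  have a1 : ({1, -1} : Finset ℚ).card ≤ 2 := Finset.card_le_two
  have a2 : ({1, 2} : Finset ℚ).card ≤ 2 := Finset.card_le_two
  calc (Nat.sqrt (2 * H) + 1) * (({1, -1} : Finset ℚ).card * (({1, 2} : Finset ℚ).card *
        ({1, -1} : Finset ℚ).card))
      ≤ (Nat.sqrt (2 * H) + 1) * (2 * (2 * 2)) :=
        Nat.mul_le_mul_left _ (Nat.mul_le_mul a1 (Nat.mul_le_mul a2 a1))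
    _ = _ := by ring

theorem conic_mem {b : ℚ} {d e : ℤ} {w s t : ℚ} (hde : d * e = (b.den : ℤ) ^ 2)
    (hw : w ∈ ({2, 4} : Finset ℚ)) (hs : s ∈ ({1, -1} : Finset ℚ))
    (ht : t ∈ ({-1, 0, 1} : Finset ℚ)) (hN : w * (b.num : ℚ) = e + s * d + t * (2 * (b.den : ℚ))) :
    b ∈ G1 b.den := by
  have hD0 : (b.den : ℤ) ≠ 0 := by exact_mod_cast b.den_ne_zero
  have hDq : (b.den : ℚ) ≠ 0 := by exact_mod_cast b.den_ne_zero
  have hd0 : d ≠ 0 := by
    rintro rfl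
    rw [zero_mul] at hde
    exact pow_ne_zero 2 hD0 hde.symm
  have hdq : (d : ℚ) ≠ 0 := by exact_mod_cast hd0
  have hw0 : w ≠ 0 := by
    simp only [Finset.mem_insert, Finset.mem_singleton] at hw
    rcases hw with rfl | rfl <;> norm_num
  obtain ⟨σ, hσ, hσd⟩ : ∃ σ : ℚ, σ ∈ ({1, -1} : Finset ℚ) ∧ σ * ((d.natAbs : ℕ) : ℚ) = d := by
    rcases lt_or_gt_of_ne hd0 with h | h
    · refine ⟨-1, by simp, ?_⟩
      have h2 : ((d.natAbs : ℕ) : ℚ) = -d := by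
        rw [Nat.cast_natAbs, abs_of_neg h]; push_cast; rfl
      rw [h2]; ring
    · refine ⟨1, by simp, ?_⟩
      have h2 : ((d.natAbs : ℕ) : ℚ) = d := by
        rw [Nat.cast_natAbs, abs_of_pos h]
      rw [h2]; ring
  rw [G1, Finset.mem_image]
  refine ⟨(d.natAbs, σ, s, w, t), ?_, ?_⟩
  · simp only [Finset.mem_product]
    refine ⟨?_, hσ, hs, hw, ht⟩
    rw [Nat.mem_divisors]
    refine ⟨?_, pow_ne_zero 2 b.den_ne_zero⟩
    have h1 : d ∣ ((b.den ^ 2 : ℕ) : ℤ) := ⟨e, by push_cast; exact hde.symm⟩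
    exact Int.natAbs_dvd_natAbs.mpr h1
  · simp only
    rw [hσd]
    have he : (b.den : ℚ) ^ 2 / d = e := by
      rw [div_eq_iff hdq]
      have : (d : ℚ) * e = (b.den : ℚ) ^ 2 := by exact_mod_cast hde
      rw [← this]; ring
    rw [he, ← hN, mul_div_mul_left _ _ hw0]
    exact Rat.num_div_den b

/-- square classes of the first factor of the quartic -/
theorem quartic_class {N D m : ℤ} (hco : IsCoprime N D) (hne : D - N ≠ 0)
    (h : m ^ 2 = (D - N) * (D ^ 3 - N * D ^ 2 - 4 * N ^ 3)) :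
    ∃ (k a : ℕ), (a = 1 ∨ a = 2) ∧ (D - N).natAbs = a * k ^ 2 := by
  obtain ⟨a, k, hak, hsf⟩ := Nat.sq_mul_squarefree (D - N).natAbs
  have hK1 : (D - N).natAbs ≠ 0 := Int.natAbs_ne_zero.mpr hne
  have hk0 : k ≠ 0 := by
    rintro rfl
    rw [zero_pow (by norm_num), zero_mul] at hak
    exact hK1 hak.symm
  set K2 := (D ^ 3 - N * D ^ 2 - 4 * N ^ 3) with hK2
  have h1 : m.natAbs ^ 2 = k ^ 2 * (a * K2.natAbs) := by
    rw [← Int.natAbs_pow, h, Int.natAbs_mul, ← hak]; ring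
  have h2 : k ∣ m.natAbs := by
    apply (Nat.pow_dvd_pow_iff (n := 2) (by norm_num)).mp
    exact ⟨_, h1⟩
  obtain ⟨m', hm'⟩ := h2
  have h3 : m' ^ 2 = a * K2.natAbs := by
    rw [hm', mul_pow] at h1
    exact Nat.eq_of_mul_eq_mul_left (Nat.pow_pos (Nat.pos_of_ne_zero hk0)) h1
  have h4 : a ∣ m' := (hsf.dvd_pow_iff_dvd (by norm_num : (2:ℕ) ≠ 0)).mp ⟨_, h3⟩
  obtain ⟨m'', hm''⟩ := h4
  have ha0 : a ≠ 0 := hsf.ne_zero
  have h5 : a ∣ K2.natAbs := by
    refine ⟨m'' ^ 2, ?_⟩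
    rw [hm''] at h3
    have : a * (a * m'' ^ 2) = a * K2.natAbs := by rw [← h3]; ring
    exact (Nat.eq_of_mul_eq_mul_left (Nat.pos_of_ne_zero ha0) this).symm
  have d1 : (a : ℤ) ∣ D - N := by
    rw [← Int.dvd_natAbs]
    exact_mod_cast (⟨k ^ 2, by rw [← hak]; ring⟩ : a ∣ (D - N).natAbs)
  have d2 : (a : ℤ) ∣ K2 := by
    rw [← Int.dvd_natAbs]
    exact_mod_cast h5
  have d3 : (a : ℤ) ∣ N ^ 3 * 4 := by
    have e : N ^ 3 * 4 = D ^ 2 * (D - N) - K2 := by rw [hK2]; ring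
    rw [e]
    exact dvd_sub (dvd_mul_of_dvd_right d1 _) d2
  have c1 : IsCoprime N (D - N) := by
    obtain ⟨x, y, hxy⟩ := hco
    exact ⟨x + y, y, by linear_combination hxy⟩
  have c2 : IsCoprime (a : ℤ) N := by
    obtain ⟨j, hj⟩ := d1
    rw [hj] at c1
    exact (IsCoprime.of_mul_right_left c1).symm
  have d4 : (a : ℤ) ∣ 4 := (c2.pow_right (n := 3)).dvd_of_dvd_mul_left d3
  have d5 : a ∣ 4 := by exact_mod_cast d4
  have ha4 : a ≤ 4 := Nat.le_of_dvd (by norm_num) d5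
  refine ⟨k, a, ?_, by rw [← hak]; ring⟩
  interval_cases a
  · exact absurd rfl ha0
  · left; rfl
  · right; rfl
  · exfalso; revert d5; norm_num
  · exfalso
    have : IsUnit (2 : ℕ) := hsf 2 ⟨1, by norm_num⟩
    rw [Nat.isUnit_iff] at this
    omega

theorem quartic_mem {b τ : ℚ} {H : ℕ} {N : ℤ} (hτ : τ ∈ ({1, -1} : Finset ℚ))
    (hbN : b = τ * (N : ℚ) / (b.den : ℚ)) (hNH : N.natAbs ≤ H) (hDH : b.den ≤ H)
    (hco : IsCoprime N (b.den : ℤ)) {m : ℤ} (hne : (b.den : ℤ) - N ≠ 0)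
    (h : m ^ 2 = ((b.den : ℤ) - N) * ((b.den : ℤ) ^ 3 - N * (b.den : ℤ) ^ 2 - 4 * N ^ 3)) :
    b ∈ G2 b.den H := by
  obtain ⟨k, a, ha, hk⟩ := quartic_class hco hne h
  obtain ⟨σ, hσ, hσd⟩ : ∃ σ : ℚ, σ ∈ ({1, -1} : Finset ℚ) ∧
      ((b.den : ℚ) - N) = σ * ((a : ℚ) * (k : ℚ) ^ 2) := by
    rcases lt_or_gt_of_ne hne with h | h
    · refine ⟨-1, by simp, ?_⟩
      have h1 : (b.den : ℤ) - N = - ((a * k ^ 2 : ℕ) : ℤ) := by rw [← hk]; omega
      have h2 : (b.den : ℚ) - N = - ((a * k ^ 2 : ℕ) : ℚ) := by exact_mod_cast h1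
      rw [h2]; push_cast; ring
    · refine ⟨1, by simp, ?_⟩
      have h1 : (b.den : ℤ) - N = ((a * k ^ 2 : ℕ) : ℤ) := by rw [← hk]; omega
      have h2 : (b.den : ℚ) - N = ((a * k ^ 2 : ℕ) : ℚ) := by exact_mod_cast h1
      rw [h2]; push_cast; ring
  rw [G2, Finset.mem_image]
  refine ⟨(k, σ, (a : ℚ), τ), ?_, ?_⟩
  · simp only [Finset.mem_product]
    refine ⟨?_, hσ, ?_, hτ⟩
    · rw [Finset.mem_range, Nat.lt_succ_iff, Nat.le_sqrt]
      have h1 : k * k ≤ a * k ^ 2 := by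
        rcases ha with rfl | rfl <;> nlinarith
      have h2 : ((b.den : ℤ) - N).natAbs ≤ 2 * H := by omega
      omega
    · rcases ha with rfl | rfl <;> simp
  · simp only
    rw [← hσd]
    have : τ * ((b.den : ℚ) - ((b.den : ℚ) - N)) / (b.den : ℚ) = τ * (N : ℚ) / (b.den : ℚ) := by
      ring
    rw [this]
    exact hbN.symm

theorem thin_mem {b : ℚ} {H : ℕ} (hb : b ∈ Box H) (hT : Thin b) : b ∈ G1 b.den ∪ G2 b.den H := by
  obtain ⟨hb0, hNH, hDH⟩ := hb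
  have hDq : (b.den : ℚ) ≠ 0 := by exact_mod_cast b.den_ne_zero
  have hbD : b * b.den = b.num := Rat.mul_den_eq_num b
  have hco : IsCoprime b.num (b.den : ℤ) := by
    rw [Int.isCoprime_iff_gcd_eq_one]
    exact b.reduced
  set N := b.num with hN
  set D : ℤ := (b.den : ℤ) with hD
  have hDD : (D : ℚ) = (b.den : ℚ) := by rw [hD]; push_cast; rfl
  rw [Finset.mem_union]
  rcases hT with ⟨q, hq⟩ | ⟨q, hq⟩ | ⟨q, hq0, hq⟩ | ⟨q, hq0, hq⟩ | ⟨q, hq0, hq⟩ | ⟨h0, q, hq⟩ |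
    ⟨h0, q, hq⟩
  · left
    obtain ⟨m, hm, _⟩ := int_of_sq (q := q * b.den) (z := D ^ 2 + 4 * N ^ 2) (by
      push_cast; rw [hDD, ← hbD, mul_pow, hq]; ring)
    apply conic_mem (d := m - 2 * N) (e := m + 2 * N) (w := 4) (s := -1) (t := 0)
    · linear_combination hm
    · simp
    · simp
    · simp
    · push_cast; ring
  · left
    obtain ⟨m, hm, _⟩ := int_of_sq (q := q * b.den) (z := D ^ 2 + N ^ 2) (by
      push_cast; rw [hDD, ← hbD, mul_pow, hq]; ring)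
    apply conic_mem (d := m - N) (e := m + N) (w := 2) (s := -1) (t := 0)
    · linear_combination hm
    · simp
    · simp
    · simp
    · push_cast; ring
  · left
    obtain ⟨m, hm, _⟩ := int_of_sq (q := q * b.den) (z := N ^ 2 - D ^ 2) (by
      push_cast; rw [hDD, ← hbD, mul_pow, hq]; ring)
    apply conic_mem (d := N - m) (e := N + m) (w := 2) (s := 1) (t := 0)
    · linear_combination - hm
    · simp
    · simp
    · simp
    · push_cast; ring
  · left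
    obtain ⟨m, hm, _⟩ := int_of_sq (q := q * b.den) (z := N ^ 2 - N * D) (by
      push_cast; rw [hDD, ← hbD, mul_pow, hq]; ring)
    apply conic_mem (d := 2 * N - D - 2 * m) (e := 2 * N - D + 2 * m) (w := 4) (s := 1) (t := 1)
    · linear_combination (-4) * hm
    · simp
    · simp
    · simp
    · push_cast; rw [hDD]; ring
  · left
    obtain ⟨m, hm, _⟩ := int_of_sq (q := q * b.den) (z := N ^ 2 + N * D) (by
      push_cast; rw [hDD, ← hbD, mul_pow, hq]; ring)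
    apply conic_mem (d := 2 * N + D - 2 * m) (e := 2 * N + D + 2 * m) (w := 4) (s := 1) (t := -1)
    · linear_combination (-4) * hm
    · simp
    · simp
    · simp
    · push_cast; rw [hDD]; ring
  · right
    obtain ⟨m, hm, _⟩ := int_of_sq (q := q * (b.den : ℚ) ^ 2)
      (z := (D - N) * (D ^ 3 - N * D ^ 2 - 4 * N ^ 3)) (by
      push_cast; rw [hDD, ← hbD, mul_pow, hq]; ring)
    apply quartic_mem (τ := 1) (N := N) (by simp) _ hNH hDH hco (m := m) _ hm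
    · rw [one_mul, hN]; exact (Rat.num_div_den b).symm
    · intro h1
      apply h0
      have h2 : (N : ℚ) = (b.den : ℚ) := by
        rw [← hDD]; exact_mod_cast (by omega : N = D)
      rw [← hbD] at h2
      exact (mul_eq_right₀ hDq).mp h2
  · right
    obtain ⟨m, hm, _⟩ := int_of_sq (q := q * (b.den : ℚ) ^ 2)
      (z := (D - (-N)) * (D ^ 3 - (-N) * D ^ 2 - 4 * (-N) ^ 3)) (by
      push_cast; rw [hDD, ← hbD, mul_pow, hq]; ring)
    apply quartic_mem (τ := -1) (N := -N) (by simp) _ (by omega) hDH hco.neg_left (m := m) _ hm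
    · push_cast
      rw [neg_one_mul, neg_neg, hN]; exact (Rat.num_div_den b).symm
    · intro h1
      apply h0
      have h2 : (N : ℚ) = -(b.den : ℚ) := by
        rw [← hDD]; exact_mod_cast (by omega : N = -D)
      rw [← hbD] at h2
      have h3 : (b + 1) * (b.den : ℚ) = 0 := by linear_combination h2
      rcases mul_eq_zero.mp h3 with h4 | h4
      · linarith
      · exact absurd h4 hDq

theorem thin_count : ∃ C : ℝ, 0 ≤ C ∧ ∀ H : ℕ,
    ({b : ℚ | b ∈ Box H ∧ Thin b}.ncard : ℝ) ≤ C * (H : ℝ) ^ (3 / 2 : ℝ) := by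
  obtain ⟨C, hC, h⟩ := sup3_card (ε := 1 / 2) (by norm_num)
  refine ⟨24 * C + 24, by linarith, ?_⟩
  intro H
  have hsub : {b : ℚ | b ∈ Box H ∧ Thin b} ⊆
      (((Finset.Icc 1 H).biUnion (fun D => G1 D ∪ G2 D H) : Finset ℚ) : Set ℚ) := by
    rintro b ⟨hb, hT⟩
    rw [Finset.mem_coe, Finset.mem_biUnion]
    exact ⟨b.den, Finset.mem_Icc.mpr ⟨b.den_pos, hb.2.2⟩, thin_mem hb hT⟩
  have h1 : {b : ℚ | b ∈ Box H ∧ Thin b}.ncard ≤
      ∑ D ∈ Finset.Icc 1 H, (24 * (sup3 D).card + 8 * (Nat.sqrt (2 * H) + 1)) := by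
    calc {b : ℚ | b ∈ Box H ∧ Thin b}.ncard
        ≤ _ := Set.ncard_le_ncard hsub (Finset.finite_toSet _)
      _ = ((Finset.Icc 1 H).biUnion (fun D => G1 D ∪ G2 D H)).card := Set.ncard_coe_finset _
      _ ≤ ∑ D ∈ Finset.Icc 1 H, (G1 D ∪ G2 D H).card := Finset.card_biUnion_le
      _ ≤ _ := by
        apply Finset.sum_le_sum
        intro D hD
        have hD1 := (Finset.mem_Icc.mp hD).1
        refine le_trans (Finset.card_union_le _ _) (Nat.add_le_add ?_ (G2_card D H))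
        refine le_trans (G1_card D) (Nat.mul_le_mul_left _ (Finset.card_le_card ?_))
        intro x hx
        rw [Nat.mem_divisors] at hx
        rw [sup3, Finset.mem_filter, Finset.mem_Icc]
        have hD2 : 0 < D ^ 2 := by positivity
        refine ⟨⟨Nat.pos_of_dvd_of_pos hx.1 hD2, ?_⟩, ?_⟩
        · refine le_trans (Nat.le_of_dvd hD2 hx.1) ?_
          exact Nat.pow_le_pow_right hD1 (by norm_num)
        · intro p hp
          exact (Nat.prime_of_mem_primeFactors hp).dvd_of_dvd_pow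
            (dvd_trans (Nat.dvd_of_mem_primeFactors hp) hx.1)
  rcases Nat.eq_zero_or_pos H with hH | hH
  · subst hH
    have h2 : Finset.Icc 1 0 = (∅ : Finset ℕ) := by simp
    rw [h2, Finset.sum_empty] at h1
    have h3 : {b : ℚ | b ∈ Box 0 ∧ Thin b}.ncard = 0 := by omega
    rw [h3, Nat.cast_zero]
    have : (0:ℝ) ≤ 24 * C + 24 := by linarith
    positivity
  have hHpos : (0:ℝ) < H := by exact_mod_cast hH
  have hH1 : (1:ℝ) ≤ (H : ℝ) ^ (1 / 2 : ℝ) :=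
    Real.one_le_rpow (by exact_mod_cast hH) (by norm_num)
  have hsqrt : ((Nat.sqrt (2 * H) : ℕ) : ℝ) ≤ 2 * (H : ℝ) ^ (1 / 2 : ℝ) := by
    have h2 : ((Nat.sqrt (2 * H) : ℕ) : ℝ) ≤ Real.sqrt ((2 * H : ℕ) : ℝ) := Real.nat_sqrt_le_real_sqrt
    refine le_trans h2 ?_
    rw [Real.sqrt_le_left (by positivity), mul_pow, ← Real.rpow_natCast ((H : ℝ) ^ (1 / 2 : ℝ)),
      ← Real.rpow_mul hHpos.le]
    norm_num
    linarith
  calc ({b : ℚ | b ∈ Box H ∧ Thin b}.ncard : ℝ)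
      ≤ ((∑ D ∈ Finset.Icc 1 H, (24 * (sup3 D).card + 8 * (Nat.sqrt (2 * H) + 1)) : ℕ) : ℝ) := by
        exact_mod_cast h1
    _ = ∑ D ∈ Finset.Icc 1 H, (24 * ((sup3 D).card : ℝ) +
          8 * (((Nat.sqrt (2 * H) : ℕ) : ℝ) + 1)) := by push_cast; rfl
    _ ≤ ∑ D ∈ Finset.Icc 1 H, (24 * C + 24) * (H : ℝ) ^ (1 / 2 : ℝ) := by
        apply Finset.sum_le_sum
        intro D hD
        obtain ⟨hD1, hD2⟩ := Finset.mem_Icc.mp hD
        have h2 := h D hD1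
        have h3 : (D : ℝ) ^ (1 / 2 : ℝ) ≤ (H : ℝ) ^ (1 / 2 : ℝ) :=
          Real.rpow_le_rpow (by positivity) (by exact_mod_cast hD2) (by norm_num)
        have h4 : C * (D : ℝ) ^ (1 / 2 : ℝ) ≤ C * (H : ℝ) ^ (1 / 2 : ℝ) :=
          mul_le_mul_of_nonneg_left h3 (by linarith)
        nlinarith
    _ = (24 * C + 24) * (H : ℝ) ^ (3 / 2 : ℝ) := by
        rw [Finset.sum_const, Nat.card_Icc, nsmul_eq_mul, Nat.add_sub_cancel]
        have e : (3 / 2 : ℝ) = 1 + 1 / 2 := by norm_num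
        rw [e, Real.rpow_add hHpos, Real.rpow_one]
        ring

end Pool.Agent.Helper905.Manes
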