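import Mathlib
import Pool.Agent.Helper905.Manes.Defs
import Pool.Agent.Helper905.Manes.ThinCount

namespace Pool.Agent.Helper905.Manes

theorem period_two {b c : ℚ} (hb : b ≠ 0) (hc : c ≠ 0) (hB : ¬ Bad b) (hT : ¬ Thin b)
    {P : Option ℚ} (hP : P ∈ Function.periodicPts (f b c)) :
    Function.minimalPeriod (f b c) P = 1 ∨ Function.minimalPeriod (f b c) P = 2 := by
  have h2 : (f b c)^[2] P = P := by
    rcases P with _ | x
    · exact iter_none b c 2
    obtain ⟨hx0, u, s, n, C, hu0⟩ := orbit_of_periodic hb hc hP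
    have hall : ∀ i, |s i * s (i + 1)| = 1 := by
      by_contra hcon
      exact hB ⟨u, s, n, C, hcon⟩
    have hs0 : (s 0) ^ 2 = 1 := by
      rcases of_t C hall with h1 | h1
      · exact h1 0
      · exfalso
        have h2 := C.t_eq 0
        rw [h1 0] at h2
        apply hT
        right; left
        exact ⟨b * s 0 + 1, by linear_combination b * h2⟩
    have h1 := C.hs 0
    rw [hu0] at h1
    have hfx : b * x + c / x = s 0 * x := by
      rw [h1]; field_simp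
    have hsx : s 0 * x ≠ 0 := mul_ne_zero (C.s0 0) hx0
    show f b c (f b c (some x)) = some x
    rw [f_some b c hx0, hfx, f_some b c hsx]
    congr 1
    have h3 : (s 0 - 1) * (s 0 + 1) = 0 := by linear_combination hs0
    rcases mul_eq_zero.mp h3 with h4 | h4
    · have h5 : s 0 = 1 := by linarith
      rw [h5, one_mul, hfx, h5, one_mul]
    · have h5 : s 0 = -1 := by linarith
      rw [h5]
      have h6 : b * (-1 * x) + c / (-1 * x) = - (b * x + c / x) := by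
        field_simp
        ring
      rw [h6, hfx, h5]
      ring
  have hd : Function.minimalPeriod (f b c) P ∣ 2 :=
    Function.IsPeriodicPt.minimalPeriod_dvd h2
  have h5 : Function.minimalPeriod (f b c) P ≤ 2 := Nat.le_of_dvd (by norm_num) hd
  interval_cases hm : Function.minimalPeriod (f b c) P
  · omega
  · left; rfl
  · right; rfl


theorem settled_of {b : ℚ} (hb : b ≠ 0) (hB : ¬ Bad b) (hT : ¬ Thin b) : Settled b :=
  ⟨fun c hc => ⟨fun P hP => period_two hb hc hB hT hP, (six_of hb hB hT).1 c hc⟩,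
    (six_of hb hB hT).2⟩

theorem settled_int {z : ℤ} (hz : z ≠ 0) : Settled (z : ℚ) :=
  settled_of (by exact_mod_cast hz) (not_bad_int (Rat.den_intCast z)) (not_thin_int hz)

theorem bad_count_one {ε : ℝ} (hε : 0 < ε) : ∃ C : ℝ, 1 ≤ C ∧ ∀ N : ℕ, 1 ≤ N →
    {b : ℚ | Bad b ∧ b.num.natAbs = N}.Finite ∧
    ({b : ℚ | Bad b ∧ b.num.natAbs = N}.ncard : ℝ) ≤ C * (N : ℝ) ^ ε := by
  obtain ⟨C, hC, h⟩ := sup3_card (ε := ε / 5) (by linarith)
  refine ⟨4 * C ^ 5, by nlinarith [one_le_pow₀ (n := 5) hC], ?_⟩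
  intro N hN
  have hNpos : (0:ℝ) < N := by exact_mod_cast hN
  have hsub : {b : ℚ | Bad b ∧ b.num.natAbs = N} ⊆
      (((index N).image (cand N) : Finset ℚ) : Set ℚ) := by
    intro b hb
    have := bad_mem hb.1
    rw [hb.2] at this
    exact this
  refine ⟨(Finset.finite_toSet _).subset hsub, ?_⟩
  have h1 : {b : ℚ | Bad b ∧ b.num.natAbs = N}.ncard ≤ 4 * (sup3 N).card ^ 5 := by
    calc {b : ℚ | Bad b ∧ b.num.natAbs = N}.ncard
        ≤ (((index N).image (cand N) : Finset ℚ) : Set ℚ).ncard :=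
          Set.ncard_le_ncard hsub (Finset.finite_toSet _)
      _ = ((index N).image (cand N)).card := Set.ncard_coe_finset _
      _ ≤ (index N).card := Finset.card_image_le
      _ = _ := index_card N
  calc ({b : ℚ | Bad b ∧ b.num.natAbs = N}.ncard : ℝ)
      ≤ ((4 * (sup3 N).card ^ 5 : ℕ) : ℝ) := by exact_mod_cast h1
    _ = 4 * ((sup3 N).card : ℝ) ^ 5 := by push_cast; ring
    _ ≤ 4 * (C * (N : ℝ) ^ (ε / 5)) ^ 5 := by
        apply mul_le_mul_of_nonneg_left _ (by norm_num)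
        exact pow_le_pow_left₀ (by positivity) (h N hN) 5
    _ = 4 * C ^ 5 * (N : ℝ) ^ ε := by
        rw [mul_pow, ← Real.rpow_natCast ((N : ℝ) ^ (ε / 5)), ← Real.rpow_mul hNpos.le]
        have : ε / 5 * ((5 : ℕ) : ℝ) = ε := by push_cast; ring
        rw [this]
        ring

theorem bad_count {ε : ℝ} (hε : 0 < ε) : ∃ C : ℝ, 1 ≤ C ∧ ∀ H : ℕ,
    {b : ℚ | Bad b ∧ b.num.natAbs ≤ H}.Finite ∧
    ({b : ℚ | Bad b ∧ b.num.natAbs ≤ H}.ncard : ℝ) ≤ C * (H : ℝ) ^ (1 + ε) := by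
  obtain ⟨C, hC, h⟩ := bad_count_one hε
  refine ⟨C, hC, ?_⟩
  intro H
  have heq : {b : ℚ | Bad b ∧ b.num.natAbs ≤ H} =
      ⋃ N ∈ Finset.Icc 1 H, {b : ℚ | Bad b ∧ b.num.natAbs = N} := by
    ext b
    simp only [Set.mem_setOf_eq, Set.mem_iUnion, Finset.mem_Icc, exists_prop]
    constructor
    · rintro ⟨h1, h2⟩
      refine ⟨b.num.natAbs, ⟨?_, h2⟩, h1, rfl⟩
      obtain ⟨u, s, n, C, _⟩ := h1
      have : b.num.natAbs ≠ 0 := by simpa using C.hb
      omega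
    · rintro ⟨N, ⟨_, h2⟩, h3, h4⟩
      exact ⟨h3, by omega⟩
  have hfin : {b : ℚ | Bad b ∧ b.num.natAbs ≤ H}.Finite := by
    rw [heq]
    apply Set.Finite.biUnion (Finset.finite_toSet _)
    intro N hN
    have hN' := Finset.mem_coe.mp hN
    exact (h N (Finset.mem_Icc.mp hN').1).1
  refine ⟨hfin, ?_⟩
  have hcard : ({b : ℚ | Bad b ∧ b.num.natAbs ≤ H}.ncard : ℝ) ≤
      ∑ N ∈ Finset.Icc 1 H, ({b : ℚ | Bad b ∧ b.num.natAbs = N}.ncard : ℝ) := by
    have h1 : {b : ℚ | Bad b ∧ b.num.natAbs ≤ H}.ncard ≤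
        ∑ N ∈ Finset.Icc 1 H, {b : ℚ | Bad b ∧ b.num.natAbs = N}.ncard := by
      rw [heq]
      exact Finset.set_ncard_biUnion_le _ _
    exact_mod_cast h1
  rcases Nat.eq_zero_or_pos H with hH | hH
  · subst hH
    have : Finset.Icc 1 0 = (∅ : Finset ℕ) := by simp
    rw [this, Finset.sum_empty] at hcard
    refine le_trans hcard ?_
    positivity
  have hHpos : (0:ℝ) < H := by exact_mod_cast hH
  calc ({b : ℚ | Bad b ∧ b.num.natAbs ≤ H}.ncard : ℝ)
      ≤ ∑ N ∈ Finset.Icc 1 H, ({b : ℚ | Bad b ∧ b.num.natAbs = N}.ncard : ℝ) := hcard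
    _ ≤ ∑ N ∈ Finset.Icc 1 H, C * (H : ℝ) ^ ε := by
        apply Finset.sum_le_sum
        intro N hN
        obtain ⟨h1, h2⟩ := Finset.mem_Icc.mp hN
        refine le_trans (h N h1).2 ?_
        apply mul_le_mul_of_nonneg_left _ (by linarith)
        exact Real.rpow_le_rpow (by positivity) (by exact_mod_cast h2) hε.le
    _ = C * (H : ℝ) ^ (1 + ε) := by
        rw [Finset.sum_const, Nat.card_Icc, nsmul_eq_mul, Real.rpow_add hHpos, Real.rpow_one,
          Nat.add_sub_cancel]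
        ring

theorem unsettled_count : ∃ C : ℝ, 0 ≤ C ∧ ∀ H : ℕ,
    ((Box H ∩ {b : ℚ | ¬ Settled b}).ncard : ℝ) ≤ C * (H : ℝ) ^ (3 / 2 : ℝ) := by
  obtain ⟨C1, h1, k1⟩ := bad_count (ε := 1 / 2) (by norm_num)
  obtain ⟨C2, h2, k2⟩ := thin_count
  refine ⟨C1 + C2, by linarith, ?_⟩
  intro H
  have hsub : (Box H ∩ {b : ℚ | ¬ Settled b}) ⊆
      {b : ℚ | Bad b ∧ b.num.natAbs ≤ H} ∪ {b : ℚ | b ∈ Box H ∧ Thin b} := by
    rintro b ⟨hb, hS⟩
    by_cases hB : Bad b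
    · left; exact ⟨hB, hb.2.1⟩
    · by_cases hT : Thin b
      · right; exact ⟨hb, hT⟩
      · exact absurd (settled_of hb.1 hB hT) hS
  have hfin2 : {b : ℚ | b ∈ Box H ∧ Thin b}.Finite := (box_finite H).subset (fun b hb => hb.1)
  have h3 : (Box H ∩ {b : ℚ | ¬ Settled b}).ncard ≤
      {b : ℚ | Bad b ∧ b.num.natAbs ≤ H}.ncard + {b : ℚ | b ∈ Box H ∧ Thin b}.ncard :=
    le_trans (Set.ncard_le_ncard hsub ((k1 H).1.union hfin2)) (Set.ncard_union_le _ _)
  have h4 : ((Box H ∩ {b : ℚ | ¬ Settled b}).ncard : ℝ) ≤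
      ({b : ℚ | Bad b ∧ b.num.natAbs ≤ H}.ncard : ℝ) +
        ({b : ℚ | b ∈ Box H ∧ Thin b}.ncard : ℝ) := by exact_mod_cast h3
  have h5 := (k1 H).2
  have h6 := k2 H
  rw [show (1 + 1 / 2 : ℝ) = 3 / 2 by norm_num] at h5
  calc ((Box H ∩ {b : ℚ | ¬ Settled b}).ncard : ℝ) ≤ _ := h4
    _ ≤ C1 * (H : ℝ) ^ (3 / 2 : ℝ) + C2 * (H : ℝ) ^ (3 / 2 : ℝ) := add_le_add h5 h6
    _ = _ := by ring

theorem settled_density : Filter.Tendsto
    (fun H : ℕ => ((Box H ∩ {b : ℚ | Settled b}).ncard : ℝ) / ((Box H).ncard : ℝ))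
    Filter.atTop (nhds 1) := by
  obtain ⟨C, hC, h⟩ := unsettled_count
  have hzero : Filter.Tendsto
      (fun H : ℕ => ((Box H ∩ {b : ℚ | ¬ Settled b}).ncard : ℝ) / ((Box H).ncard : ℝ))
      Filter.atTop (nhds 0) := by
    have hlim : Filter.Tendsto (fun H : ℕ => (4 * C) * ((H : ℝ) ^ (-(1 / 2 : ℝ)))) Filter.atTop
        (nhds 0) := by
      have h1 := (tendsto_rpow_neg_atTop (y := (1 / 2 : ℝ)) (by norm_num)).comp
        (tendsto_natCast_atTop_atTop (R := ℝ))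
      have h2 := h1.const_mul (4 * C)
      rw [mul_zero] at h2
      exact h2
    refine squeeze_zero' (Filter.Eventually.of_forall (fun H => by positivity)) ?_ hlim
    filter_upwards [Filter.eventually_ge_atTop 1] with H hH
    have hHpos : (0:ℝ) < H := by exact_mod_cast hH
    have hb := box_card H
    have hbpos : (0:ℝ) < ((Box H).ncard : ℝ) := by
      have : (0:ℝ) < (H : ℝ) ^ 2 := by positivity
      linarith
    rw [div_le_iff₀ hbpos]
    have h1 := h H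
    have h2 : C * (H : ℝ) ^ (3 / 2 : ℝ) = (C * (H : ℝ) ^ (-(1 / 2 : ℝ))) * (H : ℝ) ^ 2 := by
      rw [mul_assoc, ← Real.rpow_natCast (H : ℝ) 2, ← Real.rpow_add hHpos]
      norm_num
    rw [h2] at h1
    have h3 : (0:ℝ) ≤ C * (H : ℝ) ^ (-(1 / 2 : ℝ)) := by positivity
    calc ((Box H ∩ {b : ℚ | ¬ Settled b}).ncard : ℝ)
        ≤ (C * (H : ℝ) ^ (-(1 / 2 : ℝ))) * (H : ℝ) ^ 2 := h1
      _ ≤ (C * (H : ℝ) ^ (-(1 / 2 : ℝ))) * (4 * ((Box H).ncard : ℝ)) :=
          mul_le_mul_of_nonneg_left hb h3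
      _ = _ := by ring
  have hone := hzero.const_sub 1
  rw [sub_zero] at hone
  refine hone.congr' ?_
  filter_upwards [Filter.eventually_ge_atTop 1] with H hH
  have hHpos : (0:ℝ) < H := by exact_mod_cast hH
  have hb := box_card H
  have hbpos : (0:ℝ) < ((Box H).ncard : ℝ) := by
    have : (0:ℝ) < (H : ℝ) ^ 2 := by positivity
    linarith
  have hsplit : (Box H ∩ {b : ℚ | Settled b}).ncard + (Box H ∩ {b : ℚ | ¬ Settled b}).ncard =
      (Box H).ncard := by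
    have h1 : Box H ∩ {b : ℚ | ¬ Settled b} = Box H \ {b : ℚ | Settled b} := by
      ext b
      simp [Set.mem_diff]
    rw [h1]
    exact Set.ncard_inter_add_ncard_diff_eq_ncard _ _ (box_finite H)
  have hsplit' : ((Box H ∩ {b : ℚ | Settled b}).ncard : ℝ) +
      ((Box H ∩ {b : ℚ | ¬ Settled b}).ncard : ℝ) = ((Box H).ncard : ℝ) := by
    exact_mod_cast hsplit
  rw [eq_div_iff hbpos.ne', sub_mul, div_mul_cancel₀ _ hbpos.ne']
  linarith

theorem main2 :
    (∀ b : ℤ, b ≠ 0 → Settled (b : ℚ)) ∧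
    (∃ C : ℝ, ∀ H : ℕ, ((Box H ∩ {b : ℚ | ¬ Settled b}).ncard : ℝ) ≤
      C * (H : ℝ) ^ (3 / 2 : ℝ)) ∧
    Filter.Tendsto (fun H : ℕ => ((Box H ∩ {b : ℚ | Settled b}).ncard : ℝ) /
      ((Box H).ncard : ℝ)) Filter.atTop (nhds 1) := by
  obtain ⟨C, _, h⟩ := unsettled_count
  exact ⟨fun b hb => settled_int hb, ⟨C, h⟩, settled_density⟩

end Pool.Agent.Helper905.Manes
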