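import Mathlib
import Pool.Agent.Helper905.Manes.Final2

namespace Pool.Agent.Helper905.Manes

theorem all_parts :
    (∀ b c : ℚ, b ≠ 0 → c ≠ 0 → (0 < b * c ∨ Good b ∨
      ∃ p : ℕ, p.Prime ∧ padicValRat p b ≠ 0 ∧ Odd (padicValRat p (b * c))) → Fine b c) ∧
    (∀ b : ℚ, b ≠ 0 → (¬ ∃ β : ℚ, b = - β ^ 2) → Fine b 1) ∧
    (∀ ε : ℝ, 0 < ε → ∃ C : ℝ, ∀ H : ℕ,
      {b : ℚ | Exceptional b ∧ b.num.natAbs ≤ H}.Finite ∧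
      ({b : ℚ | Exceptional b ∧ b.num.natAbs ≤ H}.ncard : ℝ) ≤ C * (H : ℝ) ^ (1 + ε)) ∧
    (∀ c : ℚ, c ≠ 0 → ∀ ε : ℝ, 0 < ε → ∃ C : ℝ, ∀ H : ℕ,
      {b : ℚ | b ≠ 0 ∧ ¬ Fine b c ∧ b.num.natAbs ≤ H}.Finite ∧
      ({b : ℚ | b ≠ 0 ∧ ¬ Fine b c ∧ b.num.natAbs ≤ H}.ncard : ℝ) ≤ C * (H : ℝ) ^ (1 / 2 + ε)) ∧
    (∀ b : ℤ, b ≠ 0 → Settled (b : ℚ)) ∧
    (∃ C : ℝ, ∀ H : ℕ, ((Box H ∩ {b : ℚ | ¬ Settled b}).ncard : ℝ) ≤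
      C * (H : ℝ) ^ (3 / 2 : ℝ)) ∧
    Filter.Tendsto (fun H : ℕ => ((Box H ∩ {b : ℚ | Settled b}).ncard : ℝ) /
      ((Box H).ncard : ℝ)) Filter.atTop (nhds 1) := by
  refine ⟨?_, ?_, ?_, ?_, main2⟩
  · rintro b c hb hc (h | h | ⟨p, hp, h1, h2⟩)
    · exact fun P hP => part_one b c hb hc (Or.inl h) P hP
    · exact fun P hP => part_one b c hb hc (Or.inr h) P hP
    · exact fine_of_parity hb hc hp h1 h2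
  · intro b hb h
    by_contra hcon
    exact h (normal_form hb hcon)
  · intro ε hε
    obtain ⟨C, _, h⟩ := part_three hε
    exact ⟨C, h⟩
  · intro c hc ε hε
    obtain ⟨C, _, h⟩ := part_four hc hε
    exact ⟨C, h⟩

end Pool.Agent.Helper905.Manes
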